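import Mathlib

set_option autoImplicit false

/-!
Values of `2^(n+2) mod n` in a residue class: the construction (helper52).

Take a prime `m > M + 3`, choose `1 ≤ c ≤ M` with `c ≡ 2^(m+2) - r (mod M)`, and a large prime `p`
with `p ≡ -1 (mod M (m-1))` and `c p ≡ -6 (mod m)`. Then for `n = m p` one has
`2^(n+2) mod n = 2^(m+2) + c p`.
-/

namespace Pool.Agent.Lib.MP_3e329f_nt.Res

/-- The construction. -/
lemma key (M r : ℕ) (hM : 0 < M) : ∃ m c W u : ℕ, 1 ≤ m ∧ 1 ≤ c ∧ 1 ≤ W ∧ Nat.Coprime u W ∧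
    ∀ p : ℕ, p.Prime → 2 ^ (m + 2) + m < p → p ≡ u [MOD W] →
      2 ^ (m * p + 2) % (m * p) = 2 ^ (m + 2) + c * p ∧ 2 ^ (m + 2) + c * p ≡ r [MOD M] := by
  -- the prime `m`
  obtain ⟨m, hmgt, hm⟩ := Nat.exists_infinite_primes (M + 4)
  have hm4 : 4 < m := by omega
  have hMm : M < m := by omega
  have : Fact m.Prime := ⟨hm⟩
  -- the coefficient `c`
  obtain ⟨c, hc1, hcM, hcr⟩ : ∃ c : ℕ, 1 ≤ c ∧ c ≤ M ∧ ((2 : ℤ) ^ (m + 2) - c ≡ r [ZMOD M]) := by
    have hMz : (0 : ℤ) < M := by exact_mod_cast hM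
    set t : ℤ := ((2 : ℤ) ^ (m + 2) - r - 1) % M with ht
    have ht0 : 0 ≤ t := Int.emod_nonneg _ (by omega)
    have htM : t < M := Int.emod_lt_of_pos _ hMz
    have htc : t ≡ (2 : ℤ) ^ (m + 2) - r - 1 [ZMOD M] := Int.mod_modEq _ _
    refine ⟨t.toNat + 1, by omega, by omega, ?_⟩
    have h1 : ((t.toNat + 1 : ℕ) : ℤ) = t + 1 := by
      push_cast; rw [Int.toNat_of_nonneg ht0]
    rw [h1]
    have h2 : (2 : ℤ) ^ (m + 2) - (t + 1) ≡ (2 : ℤ) ^ (m + 2) - (((2 : ℤ) ^ (m + 2) - r - 1) + 1) [ZMOD M] :=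
      Int.ModEq.sub_left _ (Int.ModEq.add_right _ htc)
    have h3 : (2 : ℤ) ^ (m + 2) - (((2 : ℤ) ^ (m + 2) - r - 1) + 1) = r := by ring
    rwa [h3] at h2
  have hcm : c < m := by omega
  -- residue of `p` modulo `m`
  have hc0 : ((c : ℕ) : ZMod m) ≠ 0 := by
    rw [Ne, ZMod.natCast_eq_zero_iff]
    intro h
    have := Nat.le_of_dvd (by omega) h
    omega
  have h60 : ((-6 : ℤ) : ZMod m) ≠ 0 := by
    intro h
    rw [ZMod.intCast_zmod_eq_zero_iff_dvd] at h
    have h1 : m ∣ 6 := by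
      have := Int.natCast_dvd.mp h
      simpa using this
    have h2 : m ∣ 2 * 3 := by simpa using h1
    rcases (Nat.Prime.dvd_mul hm).mp h2 with h3 | h3
    · have := Nat.le_of_dvd (by norm_num) h3
      omega
    · have := Nat.le_of_dvd (by norm_num) h3
      omega
  set y : ℕ := (((-6 : ℤ) : ZMod m) * ((c : ℕ) : ZMod m)⁻¹).val with hy
  have hyz : ((y : ℕ) : ZMod m) = ((-6 : ℤ) : ZMod m) * ((c : ℕ) : ZMod m)⁻¹ := by
    rw [hy, ZMod.natCast_val, ZMod.cast_id]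
  have hy0 : ((y : ℕ) : ZMod m) ≠ 0 := by
    rw [hyz]; exact mul_ne_zero h60 (inv_ne_zero hc0)
  -- the modulus for the minus one condition
  set L : ℕ := M * (m - 1) with hL
  have hLpos : 0 < L := Nat.mul_pos hM (by omega)
  have hcopL : Nat.Coprime L m := by
    rw [Nat.coprime_comm, Nat.Prime.coprime_iff_not_dvd hm, hL, Nat.Prime.dvd_mul hm]
    rintro (h | h)
    · have := Nat.le_of_dvd hM h
      omega
    · have := Nat.le_of_dvd (by omega) h
      omega
  obtain ⟨u, hu1, hu2⟩ := Nat.chineseRemainder hcopL (L - 1) y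
  have hucop : Nat.Coprime u (L * m) := by
    apply Nat.Coprime.mul_right
    · have h1 : Nat.gcd u L = Nat.gcd (L - 1) L := by
        exact hu1.gcd_eq
      rw [Nat.coprime_iff_gcd_eq_one, h1]
      have h2 : Nat.Coprime (L - 1) (L - 1 + 1) := by simp
      rwa [Nat.sub_add_cancel hLpos] at h2
    · have h1 : Nat.gcd u m = Nat.gcd y m := hu2.gcd_eq
      rw [Nat.coprime_iff_gcd_eq_one, h1, ← Nat.coprime_iff_gcd_eq_one, Nat.coprime_comm,
        Nat.Prime.coprime_iff_not_dvd hm]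
      intro h
      exact hy0 ((ZMod.natCast_eq_zero_iff _ _).mpr h)
  refine ⟨m, c, L * m, u, by omega, hc1, Nat.mul_pos hLpos (by omega), hucop, ?_⟩
  intro p hp hpgt hpu
  have : Fact p.Prime := ⟨hp⟩
  have hpL : p ≡ L - 1 [MOD L] := (hpu.of_mul_right m).trans hu1
  have hpm : p ≡ y [MOD m] := (hpu.of_mul_left L).trans hu2
  have hp1L : (p + 1) ≡ 0 [MOD L] := by
    have h1 : p + 1 ≡ (L - 1) + 1 [MOD L] := hpL.add_right 1
    rw [Nat.sub_add_cancel hLpos] at h1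
    exact h1.trans (by simp [Nat.ModEq])
  have hp1M : M ∣ p + 1 := by
    have h1 : L ∣ p + 1 := (Nat.modEq_zero_iff_dvd).mp hp1L
    exact (Dvd.intro _ hL.symm).trans h1
  have hp1m : (m - 1) ∣ p + 1 := by
    have h1 : L ∣ p + 1 := (Nat.modEq_zero_iff_dvd).mp hp1L
    exact (Dvd.intro_left _ hL.symm).trans h1
  have h2pos : 0 < 2 ^ (m + 2) := by positivity
  have hmltp : m < p := lt_of_le_of_lt (Nat.le_add_left _ _) hpgt
  have hmp : m ≠ p := hmltp.ne
  -- the value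
  have hlt : 2 ^ (m + 2) + c * p < m * p := by
    have h1 : c * p + p ≤ m * p := by
      have : (c + 1) * p ≤ m * p := Nat.mul_le_mul_right _ hcm
      linarith
    omega
  constructor
  · have hmod : 2 ^ (m * p + 2) ≡ 2 ^ (m + 2) + c * p [MOD (m * p)] := by
      rw [← Nat.modEq_and_modEq_iff_modEq_mul ((Nat.coprime_primes hm hp).mpr hmp)]
      constructor
      · rw [← ZMod.natCast_eq_natCast_iff]
        push_cast
        have h2ne : (2 : ZMod m) ≠ 0 := by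
          intro h
          have : ((2 : ℕ) : ZMod m) = 0 := by exact_mod_cast h
          rw [ZMod.natCast_eq_zero_iff] at this
          have := Nat.le_of_dvd (by norm_num) this
          omega
        have hpow : ∀ k : ℕ, (2 : ZMod m) ^ (m * k) = 2 ^ k := by
          intro k
          rw [pow_mul, ZMod.pow_card]
        have h1 : (2 : ZMod m) ^ (p + 1) = 1 := by
          obtain ⟨t, ht⟩ := hp1m
          rw [ht, pow_mul, ZMod.pow_card_sub_one_eq_one h2ne, one_pow]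
        have h2 : (2 : ZMod m) ^ (m * p + 2) = 2 := by
          rw [pow_add, hpow]
          have : (2 : ZMod m) ^ p * 2 ^ 2 = 2 ^ (p + 1) * 2 := by ring
          rw [this, h1, one_mul]
        have h3 : (2 : ZMod m) ^ (m + 2) = 8 := by
          rw [pow_add, ZMod.pow_card]; norm_num
        have h4 : ((p : ℕ) : ZMod m) = ((-6 : ℤ) : ZMod m) * ((c : ℕ) : ZMod m)⁻¹ := by
          rw [← hyz]
          exact (ZMod.natCast_eq_natCast_iff _ _ _).mpr hpm
        rw [h2, h3, h4]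
        have h5 : ((c : ℕ) : ZMod m) * (((-6 : ℤ) : ZMod m) * ((c : ℕ) : ZMod m)⁻¹) = -6 := by
          have h6 : ((c : ℕ) : ZMod m) * ((c : ℕ) : ZMod m)⁻¹ = 1 := mul_inv_cancel₀ hc0
          calc ((c : ℕ) : ZMod m) * (((-6 : ℤ) : ZMod m) * ((c : ℕ) : ZMod m)⁻¹)
              = ((-6 : ℤ) : ZMod m) * (((c : ℕ) : ZMod m) * ((c : ℕ) : ZMod m)⁻¹) := by ring
            _ = -6 := by rw [h6]; push_cast; ring
        rw [h5]; norm_num
      · rw [← ZMod.natCast_eq_natCast_iff]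
        push_cast
        have h1 : ((p : ℕ) : ZMod p) = 0 := ZMod.natCast_self p
        rw [h1, mul_zero, add_zero, pow_add, pow_add, mul_comm m p, pow_mul, ZMod.pow_card]
    have h7 := hmod
    unfold Nat.ModEq at h7
    rw [h7, Nat.mod_eq_of_lt hlt]
  · rw [← Int.natCast_modEq_iff]
    push_cast
    have h1 : (p : ℤ) ≡ -1 [ZMOD M] := by
      rw [Int.modEq_iff_dvd]
      have h2 : ((M : ℕ) : ℤ) ∣ ((p + 1 : ℕ) : ℤ) := by exact_mod_cast hp1M
      have h3 : (-1 : ℤ) - p = -(((p + 1 : ℕ) : ℤ)) := by push_cast; ring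
      rw [h3]
      exact (dvd_neg).mpr h2
    have h2 : (2 : ℤ) ^ (m + 2) + (c : ℤ) * p ≡ (2 : ℤ) ^ (m + 2) + (c : ℤ) * (-1) [ZMOD M] :=
      Int.ModEq.add_left _ (Int.ModEq.mul_left _ h1)
    refine h2.trans ?_
    have h3 : (2 : ℤ) ^ (m + 2) + (c : ℤ) * (-1) = (2 : ℤ) ^ (m + 2) - c := by ring
    rw [h3]
    exact hcr

end Pool.Agent.Lib.MP_3e329f_nt.Res
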