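import Pool.Agent.Lib.MP_3e329f_nt.ShiftU
import Pool.Agent.Lib.MP_3e329f_nt.ResKey

set_option autoImplicit false

/-!
Chebyshev's lower bound for the primes in a residue class, and the values of `2^(n+2) mod n` in a
residue class.
-/

namespace Pool.Agent.Lib.MP_3e329f_nt

open Finset Filter

open Pool.Agent.CM (wd sA sT er BVc CP mu)
open Pool.Agent.CH (thP)

/-- Primes in a residue class. -/
theorem ap_low (hBV : BVc CP 1) (hm1 : Pool.Agent.CM.M.R_m1) (hmu : Pool.Agent.CM.M.R_mu)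
    (W u : ℕ) (hW : 1 ≤ W) (hu : Nat.Coprime u W) : ∃ c : ℝ, 0 < c ∧ ∀ᶠ X : ℝ in atTop,
      c * X / Real.log X ≤
        (((Icc 1 ⌊X⌋₊).filter (fun p => p.Prime ∧ p ≡ u [MOD W])).card : ℝ) := by
  classical
  have hW0 : (0 : ℝ) < W := by exact_mod_cast hW
  refine ⟨1 / (12 * W), by positivity, ?_⟩
  have hbv := hBV 1 W 1 (1 / 4) hW (by norm_num)
  have hmass := sT_lower hm1 hmu
  have h3 : Tendsto (fun X : ℝ => X / 3) atTop atTop := tendsto_id.atTop_div_const (by norm_num)
  have hlog : ∀ᶠ Y : ℝ in atTop, 4 * (W : ℝ) ≤ Real.log Y :=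
    Real.tendsto_log_atTop.eventually_ge_atTop _
  filter_upwards [h3.eventually hbv, h3.eventually hmass, h3.eventually hlog,
    eventually_ge_atTop (3 : ℝ)] with X e1 e2 e3 hX3
  have hX0 : 0 < X := by linarith
  set Y : ℝ := X / 3 with hY
  have hY1 : 1 ≤ Y := by rw [hY]; linarith
  have hY0 : 0 < Y := by linarith
  have h3Y : 3 * Y = X := by rw [hY]; ring
  rw [h3Y] at e1 e2
  have hlogY : 0 < Real.log Y := by linarith
  have hlogX : Real.log Y ≤ Real.log X := Real.log_le_log hY0 (by linarith)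
  have hlogX0 : 0 < Real.log X := by linarith
  -- the error term
  have hE : er (fW Y) ⌊X⌋₊ W u ≤ Y / Real.log Y := by
    have h4 := e1 thP rfl (fun q => if q = 1 then u else 1) (by
      intro q
      by_cases hq : q = 1
      · subst hq
        simpa using hu
      · simp [hq])
    have h5 : 1 ∈ (Icc 1 ⌊Y ^ (1 / 2 - 1 / 4 : ℝ)⌋₊).filter Squarefree := by
      rw [mem_filter, mem_Icc]
      refine ⟨⟨le_rfl, ?_⟩, squarefree_one⟩
      rw [Nat.one_le_floor_iff]
      exact Real.one_le_rpow hY1 (by norm_num)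
    have h6 := Finset.single_le_sum (f := fun q => (((1 : ℕ) : ℝ)) ^ q.primeFactors.card *
      er (fun n => thP n * wd 1 Y n) ⌊X⌋₊ (W * q) (if q = 1 then u else 1))
      (fun q _ => by
        apply mul_nonneg (by positivity)
        exact abs_nonneg _) h5
    have h7 := h6.trans h4
    have hfW : fW Y = fun n => thP n * wd 1 Y n := rfl
    rw [hfW]
    simpa using h7
  have hlow : sT (fW Y) ⌊X⌋₊ / W - Y / Real.log Y ≤ sA (fW Y) ⌊X⌋₊ W u := by
    have hS0 : 0 ≤ sT (fW Y) ⌊X⌋₊ := sum_nonneg fun _ _ => fW_nonneg _ _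
    have hφ : (0 : ℝ) < Nat.totient W := by exact_mod_cast Nat.totient_pos.2 (by omega)
    have hφ2 : (Nat.totient W : ℝ) ≤ W := by exact_mod_cast Nat.totient_le W
    have h4 : sT (fW Y) ⌊X⌋₊ / W ≤ sT (fW Y) ⌊X⌋₊ / (Nat.totient W : ℝ) :=
      div_le_div_of_nonneg_left hS0 hφ hφ2
    have h5 : -(er (fW Y) ⌊X⌋₊ W u) ≤
        sA (fW Y) ⌊X⌋₊ W u - sT (fW Y) ⌊X⌋₊ / (Nat.totient W : ℝ) := by
      unfold er
      exact neg_abs_le _
    linarith
  have hup : sA (fW Y) ⌊X⌋₊ W u ≤
      (((Icc 1 ⌊X⌋₊).filter (fun p => p.Prime ∧ p ≡ u [MOD W])).card : ℝ) * Real.log X := by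
    unfold sA
    have h4 : ∀ n ∈ (Icc 1 ⌊X⌋₊).filter (fun n => n ≡ u [MOD W]), fW Y n ≤
        if n.Prime then Real.log X else 0 := by
      intro n hn
      rw [mem_filter, mem_Icc] at hn
      split_ifs with hp
      · refine (fW_le hn.1.2).trans ?_
        apply Real.log_le_log _ (Nat.floor_le hX0.le)
        have : 1 ≤ ⌊X⌋₊ := hn.1.1.trans hn.1.2
        exact_mod_cast this
      · rw [fW_zero hp]
    refine (sum_le_sum h4).trans ?_
    rw [← sum_filter, sum_const, nsmul_eq_mul]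
    apply mul_le_mul_of_nonneg_right _ hlogX0.le
    apply Nat.cast_le.2
    apply card_le_card
    intro n hn
    rw [mem_filter, mem_filter] at hn
    rw [mem_filter]
    exact ⟨hn.1.1, hn.2, hn.1.2⟩
  have e2' : Y / 2 ≤ sT (fW Y) ⌊X⌋₊ := e2
  have h4 : Y / 2 / W ≤ sT (fW Y) ⌊X⌋₊ / W := div_le_div_of_nonneg_right e2' hW0.le
  have h5 : Y / Real.log Y ≤ Y / (4 * W) := div_le_div_of_nonneg_left hY0.le (by positivity) e3
  have h6 : Y / 2 / W = Y / (4 * W) + Y / (4 * W) := by
    field_simp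
    ring
  have h7 : Y / (4 * W) ≤
      (((Icc 1 ⌊X⌋₊).filter (fun p => p.Prime ∧ p ≡ u [MOD W])).card : ℝ) * Real.log X := by
    linarith
  rw [div_le_iff₀ hlogX0]
  refine le_trans (le_of_eq ?_) h7
  rw [hY]
  field_simp
  ring

open Classical in
/-- The values below `X` in a residue class. -/
noncomputable def VR (X M r : ℕ) : Finset ℕ := (Finset.range X).filter
  (fun k => k ≡ r [MOD M] ∧ ∃ n, 1 ≤ n ∧ 2 ^ (n + 2) % n = k)

/-- Values in a residue class. -/
theorem res_count (hBV : BVc CP 1) (hm1 : Pool.Agent.CM.M.R_m1) (hmu : Pool.Agent.CM.M.R_mu)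
    (M r : ℕ) (hM : 1 ≤ M) : ∃ δ : ℝ, 0 < δ ∧ ∀ᶠ X : ℕ in atTop,
      δ * X / Real.log X ≤ ((VR X M r).card : ℝ) := by
  classical
  obtain ⟨m, c, W, u, hm, hc, hW, hu, hkey⟩ := Res.key M r hM
  obtain ⟨c0, hc0, hap⟩ := ap_low hBV hm1 hmu W u hW hu
  set B : ℕ := 2 ^ (m + 2) + m with hB
  have hcr : (0 : ℝ) < c := by exact_mod_cast hc
  refine ⟨c0 / (4 * c), by positivity, ?_⟩
  have ht : Tendsto (fun X : ℕ => (X : ℝ) / (2 * c)) atTop atTop :=
    tendsto_natCast_atTop_atTop.atTop_div_const (by positivity)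
  have hsmall : ∀ᶠ X : ℕ in atTop, (B : ℝ) ≤ c0 / (4 * c) * X / Real.log X := by
    have h1 := (Real.isLittleO_log_id_atTop).bound
      (show (0 : ℝ) < c0 / (4 * c) / (B + 1) by positivity)
    filter_upwards [tendsto_natCast_atTop_atTop.eventually h1, eventually_ge_atTop 3] with X hX hX3
    have hX3' : (3 : ℝ) ≤ X := by exact_mod_cast hX3
    have hlog : 0 < Real.log X := Real.log_pos (by linarith)
    rw [Real.norm_of_nonneg hlog.le, id, Real.norm_of_nonneg (by linarith)] at hX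
    rw [le_div_iff₀ hlog]
    have hB0 : (0 : ℝ) ≤ B := Nat.cast_nonneg _
    have h2 : (B : ℝ) * Real.log X ≤ B * (c0 / (4 * c) / (B + 1) * X) :=
      mul_le_mul_of_nonneg_left hX hB0
    have h3 : (B : ℝ) * (c0 / (4 * c) / (B + 1) * X) = (c0 / (4 * c) * X) * (B / (B + 1)) := by
      field_simp
    have h4 : (B : ℝ) / (B + 1) ≤ 1 := by
      rw [div_le_one (by positivity)]
      linarith
    have h5 : (c0 / (4 * c) * X) * (B / (B + 1)) ≤ (c0 / (4 * c) * X) * 1 :=
      mul_le_mul_of_nonneg_left h4 (by positivity)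
    linarith
  filter_upwards [ht.eventually hap, hsmall, eventually_ge_atTop (2 * B + 2),
    ht.eventually_ge_atTop 2] with X h1 h2 h3 h4
  have hX0 : (0 : ℝ) < X := by
    have : 0 < X := by omega
    exact_mod_cast this
  set Z : ℝ := (X : ℝ) / (2 * c) with hZ
  set P := (Icc 1 ⌊Z⌋₊).filter (fun p => p.Prime ∧ p ≡ u [MOD W]) with hP
  have hlogZ : 0 < Real.log Z := Real.log_pos (by linarith)
  have hZX : Z ≤ X := by
    rw [hZ, div_le_iff₀ (by positivity)]
    have : (1 : ℝ) ≤ c := by exact_mod_cast hc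
    nlinarith
  have hlogX : Real.log Z ≤ Real.log X := Real.log_le_log (by linarith) hZX
  -- the large primes
  have hcard : P.card ≤ (VR X M r).card + B := by
    have h5 : (P.filter (fun p => B < p)).card ≤ (VR X M r).card := by
      apply Finset.card_le_card_of_injOn (fun p => 2 ^ (m + 2) + c * p)
      · intro p hp
        rw [Finset.mem_coe, mem_filter, hP, mem_filter, mem_Icc] at hp
        obtain ⟨⟨⟨hp1, hp2⟩, hpp, hpu⟩, hpB⟩ := hp
        obtain ⟨h6, h7⟩ := hkey p hpp hpB hpu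
        rw [Finset.mem_coe, VR, mem_filter, Finset.mem_range]
        refine ⟨?_, h7, m * p, Nat.mul_pos hm hpp.pos, h6⟩
        have h8 : (p : ℝ) ≤ Z := by
          have h9 : (p : ℝ) ≤ ⌊Z⌋₊ := by exact_mod_cast hp2
          exact h9.trans (Nat.floor_le (by linarith))
        have h9 : 2 * (c * p : ℝ) ≤ X := by
          rw [hZ, le_div_iff₀ (by positivity)] at h8
          linarith
        have h10 : 2 * (c * p) ≤ X := by exact_mod_cast h9
        show 2 ^ (m + 2) + c * p < X
        omega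
      · intro p _ q _ hpq
        have h6 : 2 ^ (m + 2) + c * p = 2 ^ (m + 2) + c * q := hpq
        exact Nat.eq_of_mul_eq_mul_left hc (by omega)
    have h6 : P ⊆ P.filter (fun p => B < p) ∪ Icc 1 B := by
      intro p hp
      rw [mem_union, mem_filter, mem_Icc]
      by_cases h : B < p
      · exact Or.inl ⟨hp, h⟩
      · rw [hP, mem_filter, mem_Icc] at hp
        exact Or.inr ⟨hp.1.1, by omega⟩
    have h7 := (card_le_card h6).trans (card_union_le _ _)
    rw [Nat.card_Icc] at h7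
    omega
  have hcard' : (P.card : ℝ) ≤ ((VR X M r).card : ℝ) + B := by
    exact_mod_cast hcard
  have h5 : c0 * Z / Real.log X ≤ P.card := by
    refine le_trans ?_ h1
    apply div_le_div_of_nonneg_left _ hlogZ hlogX
    positivity
  have hlogX0 : 0 < Real.log X := by linarith
  have h6 : c0 * Z / Real.log X =
      c0 / (4 * c) * X / Real.log X + c0 / (4 * c) * X / Real.log X := by
    rw [hZ]
    field_simp
    ring
  linarith

end Pool.Agent.Lib.MP_3e329f_nt
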