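import Pool.Agent.Lib.MP_3e329f_nt.CountS

set_option autoImplicit false

/-!
The assembly, for short intervals; `u` is the exponent of the smoothness of the shifted primes.
-/

namespace Pool.Agent.Lib.MP_3e329f_nt.Short

open Filter
open Pool.Agent.Lib.MP_3e329f_nt (primes card_primes)
open Pool.Agent.Lib.MP_3e329f_nt.Many (Rich.mono)

/-- A form of Chebyshev's bound. -/
lemma exists_K0 : ∃ K0 : ℕ, ∀ K : ℕ, K0 ≤ K → (1 : ℝ) < K ∧
    ((primes K).card : ℝ) ≤ 3 * K / Real.log K := by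
  have h1 := Chebyshev.eventually_primeCounting_le (ε := 1) one_pos
  have h3 : ∀ᶠ x : ℝ in Filter.atTop, (1 : ℝ) < x := Filter.eventually_gt_atTop 1
  have h5 := tendsto_natCast_atTop_atTop (R := ℝ) |>.eventually (h1.and h3)
  obtain ⟨K0, hK0⟩ := eventually_atTop.mp h5
  refine ⟨K0, fun K hK => ?_⟩
  obtain ⟨hK1, hK3⟩ := hK0 K hK
  refine ⟨hK3, ?_⟩
  rw [Nat.floor_natCast] at hK1
  rw [card_primes]
  refine hK1.trans ?_
  have hlog : 0 < Real.log K := Real.log_pos hK3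
  have h4 : Real.log 4 ≤ 2 := by
    have : Real.log 4 = 2 * Real.log 2 := by
      rw [show (4 : ℝ) = 2 ^ 2 by norm_num, Real.log_pow]; norm_num
    have := Real.log_two_lt_d9
    linarith
  gcongr
  linarith

/-- The assembly. -/
theorem main_count (u : ℝ) (hu0 : 0 ≤ u) (hu1 : u ≤ 1 / 2) (hparams : ∀ ε : ℝ, 0 < ε →
    ∀ᶠ y : ℕ in atTop, ∃ (T : Finset ℕ) (v a z z1 M : ℕ),
      (∀ q ∈ T, q.Prime ∧ z1 < q ∧ q ≤ z ∧ ∀ l : ℕ, l.Prime → l ∣ q - 1 → l ≤ v) ∧
      v ≤ z1 ∧ Nat.log 2 z ≤ a ∧ 8 * T.card ≤ z1 ∧ 8 * T.card ≤ 2 ^ y ∧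
      primorial v ^ a * z ^ M ≤ 2 ^ y ∧
      ((2 : ℝ) ^ y) ^ (1 - u - ε) ≤ ((T.card).choose M : ℝ)) (ε : ℝ) (hε : 0 < ε) (N : ℕ) :
    ∃ (C : ℝ) (B : ℕ), ∀ᶠ X : ℕ in atTop, ∀ H : ℕ, H ≤ X → C * X / Real.log X ≤ H →
      (H : ℝ) / Real.log X ^ (u + ε) ≤ ((V N (X ^ B) X H).card : ℝ) := by
  classical
  set η : ℝ := min (ε / 2) (1 / 4) with hη
  have hη0 : 0 < η := lt_min (by linarith) (by norm_num)
  have hηε : η ≤ ε / 2 := min_le_left _ _
  have hη4 : η ≤ 1 / 4 := min_le_right _ _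
  refine ⟨3456 * 2 ^ N, 3840 * 4 ^ N, ?_⟩
  obtain ⟨y0, hy0⟩ := eventually_atTop.mp (hparams η hη0)
  set D : ℕ := 48 * 2 ^ N with hD
  obtain ⟨K0, hK0⟩ := exists_K0
  have h2N1 : (1 : ℝ) ≤ (2 : ℝ) ^ N := one_le_pow₀ (by norm_num)
  have hDr : (D : ℝ) = 48 * (2 : ℝ) ^ N := by rw [hD]; push_cast; ring
  have hDpos : 0 < D := by rw [hD]; positivity
  set C : ℝ := 4 * (960 * 4 ^ N) ^ 2 with hC
  have hlogX : Filter.Tendsto (fun X : ℕ => Real.log X) Filter.atTop Filter.atTop :=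
    Real.tendsto_log_atTop.comp tendsto_natCast_atTop_atTop
  have hloglogX : Filter.Tendsto (fun X : ℕ => Real.log (Real.log X)) Filter.atTop Filter.atTop :=
    Real.tendsto_log_atTop.comp hlogX
  have e1 : ∀ᶠ X : ℕ in Filter.atTop, (12 : ℝ) ≤ Real.log X := hlogX.eventually_ge_atTop 12
  have e2 : ∀ᶠ X : ℕ in Filter.atTop,
      ((y0 + 4 : ℕ) : ℝ) ≤ Real.log (Real.log X) := hloglogX.eventually_ge_atTop _
  have e3 : ∀ᶠ X : ℕ in Filter.atTop, (3840 * 4 ^ N : ℝ) ≤ Real.log X ^ η :=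
    ((tendsto_rpow_atTop hη0).comp hlogX).eventually_ge_atTop _
  have e4 : ∀ᶠ X : ℕ in Filter.atTop, C * Real.log X ^ 3 ≤ X := by
    have h1 : (fun x : ℝ => C * Real.log x ^ 3) =o[Filter.atTop] (fun x : ℝ => x) :=
      (Real.isLittleO_pow_log_id_atTop (n := 3)).const_mul_left C
    have h2 := (h1.bound one_pos)
    have h3 := tendsto_natCast_atTop_atTop (R := ℝ) |>.eventually h2
    filter_upwards [h3] with X hX
    have h4 := (le_abs_self _).trans hX
    rw [one_mul, Real.norm_eq_abs, abs_of_nonneg (Nat.cast_nonneg X)] at h4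
    exact h4
  have e5 : ∀ᶠ X : ℕ in Filter.atTop, (K0 + 1) ^ 2 ≤ X := eventually_ge_atTop _
  filter_upwards [e1, e2, e3, e4, e5] with X h12 h2 h3 h4 h5e H hHX hHC
  have h1 : (1 : ℝ) ≤ Real.log X := by linarith
  have hX0 : (0 : ℝ) < X := by
    by_contra hcon
    push Not at hcon
    have : (X : ℝ) = 0 := le_antisymm hcon (Nat.cast_nonneg X)
    rw [this, Real.log_zero] at h1
    linarith
  have hXn : 0 < X := by exact_mod_cast hX0
  have hlp : (0 : ℝ) < Real.log X := by linarith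
  set L := Nat.log 2 X + 3 with hL
  set y := Nat.log 2 (D * L) + 1 with hy
  have hDL : D * L ≠ 0 := Nat.mul_ne_zero (by omega) (by omega)
  have hy1 : D * L ≤ 2 ^ y := (Nat.lt_pow_succ_log_self (by norm_num) _).le
  have hy2 : 2 ^ y ≤ 2 * (D * L) := by
    have h5 : 2 ^ Nat.log 2 (D * L) ≤ D * L := Nat.pow_log_le_self 2 hDL
    have h6 : 2 ^ y = 2 * 2 ^ Nat.log 2 (D * L) := by rw [hy]; ring
    omega
  have hXL : 3 * X ≤ 2 ^ L := by
    have h5 : X < 2 ^ (Nat.log 2 X + 1) := Nat.lt_pow_succ_log_self (by norm_num) _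
    have h6 : 2 ^ L = 4 * 2 ^ (Nat.log 2 X + 1) := by rw [hL]; ring
    omega
  have hlog2 : (0.6931471803 : ℝ) < Real.log 2 := Real.log_two_gt_d9
  have hlog2' : Real.log 2 < (0.6931471808 : ℝ) := Real.log_two_lt_d9
  -- `L ≤ 5 log X`
  have hL3 : (L : ℝ) ≤ 5 * Real.log X := by
    have h5 : 2 ^ Nat.log 2 X ≤ X := Nat.pow_log_le_self 2 hXn.ne'
    have h6 : ((2 : ℝ) ^ Nat.log 2 X) ≤ X := by exact_mod_cast h5
    have h7 := Real.log_le_log (by positivity) h6
    rw [Real.log_pow] at h7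
    have h8 : (L : ℝ) = (Nat.log 2 X : ℝ) + 3 := by rw [hL]; push_cast; ring
    rw [h8]
    have h9 : (0 : ℝ) ≤ (Nat.log 2 X : ℝ) := Nat.cast_nonneg _
    have h10 : (Nat.log 2 X : ℝ) * (1 / 2) ≤ (Nat.log 2 X : ℝ) * Real.log 2 :=
      mul_le_mul_of_nonneg_left (by linarith) h9
    linarith
  -- `log X ≤ L`
  have hL1 : Real.log X ≤ L := by
    have h6 : (X : ℝ) ≤ (2 : ℝ) ^ L := by
      have : X ≤ 2 ^ L := by omega
      exact_mod_cast this
    have h7 := Real.log_le_log hX0 h6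
    rw [Real.log_pow] at h7
    have h9 : (0 : ℝ) ≤ (L : ℝ) := Nat.cast_nonneg _
    have h10 : (L : ℝ) * Real.log 2 ≤ L * 1 := mul_le_mul_of_nonneg_left (by linarith) h9
    linarith
  have hLpos : (1 : ℝ) ≤ L := h1.trans hL1
  have hDr1 : (1 : ℝ) ≤ D := by rw [hDr]; linarith
  have hK0pos : (0 : ℝ) ≤ K0 := Nat.cast_nonneg _
  set W : ℝ := (2 : ℝ) ^ y with hW
  have hWpos : 0 < W := by positivity
  have hW2 : W ≤ 480 * (2 : ℝ) ^ N * Real.log X := by
    have h5 : W ≤ 2 * (D * L) := by rw [hW]; exact_mod_cast hy2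
    rw [hDr] at h5
    calc W ≤ 2 * (48 * (2 : ℝ) ^ N * L) := h5
      _ ≤ 2 * (48 * (2 : ℝ) ^ N * (5 * Real.log X)) := by gcongr
      _ = 480 * (2 : ℝ) ^ N * Real.log X := by ring
  have h44 : (4 : ℝ) ^ N = (2 : ℝ) ^ N * (2 : ℝ) ^ N := by
    rw [← mul_pow]; norm_num
  -- the size of the modulus
  set U := 2 ^ (y + N + 1) with hU
  have hUr : (U : ℝ) = 2 * (2 : ℝ) ^ N * W := by
    rw [hU, hW]; push_cast; ring
  have hU2 : (U : ℝ) ≤ 960 * 4 ^ N * Real.log X := by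
    rw [hUr, h44]
    calc 2 * (2 : ℝ) ^ N * W ≤ 2 * (2 : ℝ) ^ N * (480 * (2 : ℝ) ^ N * Real.log X) := by gcongr
      _ = 960 * ((2 : ℝ) ^ N * (2 : ℝ) ^ N) * Real.log X := by ring
  have hUpos : 0 < U := by rw [hU]; positivity
  have hU1r : (1 : ℝ) ≤ U := by exact_mod_cast hUpos
  have hUsq : (4 * U ^ 2 : ℝ) * Real.log X ≤ X := by
    calc (4 * U ^ 2 : ℝ) * Real.log X ≤ (4 * (960 * 4 ^ N * Real.log X) ^ 2) * Real.log X := by
          gcongr
      _ = C * Real.log X ^ 3 := by rw [hC]; ring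
      _ ≤ X := h4
  have hUX : 4 * U ^ 2 ≤ X := by
    have h5 : (4 * U ^ 2 : ℝ) ≤ X := by
      refine le_trans ?_ hUsq
      exact le_mul_of_one_le_right (by positivity) h1
    exact_mod_cast h5
  have hHr : (X : ℝ) / Real.log X ≤ H := by
    refine le_trans ?_ hHC
    apply div_le_div_of_nonneg_right _ hlp.le
    have : (1 : ℝ) ≤ 3456 * 2 ^ N := by linarith
    exact le_mul_of_one_le_left hX0.le this
  have hUH : 4 * U ^ 2 ≤ H := by
    have h5 : (4 * U ^ 2 : ℝ) ≤ H := by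
      refine le_trans ?_ hHr
      rw [le_div_iff₀ hlp]
      exact hUsq
    exact_mod_cast h5
  have hsq1 : 2 * U ≤ Nat.sqrt X := by
    rw [Nat.le_sqrt]
    calc 2 * U * (2 * U) = 4 * U ^ 2 := by ring
      _ ≤ X := hUX
  have hsq2 : K0 ≤ Nat.sqrt X := by
    rw [Nat.le_sqrt]
    nlinarith
  have hKs1 : Nat.sqrt X + 1 ≤ X / U := by
    rw [Nat.le_div_iff_mul_le hUpos]
    calc (Nat.sqrt X + 1) * U ≤ (2 * Nat.sqrt X) * U := Nat.mul_le_mul_right _ (by omega)
      _ = Nat.sqrt X * (2 * U) := by ring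
      _ ≤ Nat.sqrt X * Nat.sqrt X := Nat.mul_le_mul_left _ hsq1
      _ ≤ X := Nat.sqrt_le X
  -- the primes
  set g := ⌊Real.log X / 6⌋₊ with hg
  have hgle : (g : ℝ) ≤ Real.log X / 6 := Nat.floor_le (by positivity)
  have hgge : Real.log X / 12 ≤ g := by
    have h5 : Real.log X / 6 < g + 1 := Nat.lt_floor_add_one _
    linarith
  have hg0 : 1 ≤ g := by
    have h5 : (0 : ℝ) < g := by linarith
    exact_mod_cast h5
  have hg1 : ∀ K, Nat.sqrt X + 1 ≤ K → g * (primes K).card ≤ K := by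
    intro K hK
    obtain ⟨hK1r, hKc⟩ := hK0 K (by omega)
    have h5 : X < K * K := Nat.sqrt_lt.mp (by omega)
    have h6 : (X : ℝ) ≤ (K : ℝ) ^ 2 := by
      have : (X : ℝ) < (K : ℝ) * K := by exact_mod_cast h5
      nlinarith
    have h7 := Real.log_le_log hX0 h6
    rw [Real.log_pow] at h7
    have h8 : Real.log X ≤ 2 * Real.log K := by exact_mod_cast h7
    have hlogK : 0 < Real.log K := Real.log_pos hK1r
    have h9 : (g : ℝ) * 3 ≤ Real.log K := by linarith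
    have h10 : (g : ℝ) * ((primes K).card : ℝ) ≤ K := by
      calc (g : ℝ) * ((primes K).card : ℝ) ≤ g * (3 * K / Real.log K) := by gcongr
        _ = (g * 3) * K / Real.log K := by ring
        _ ≤ Real.log K * K / Real.log K := by gcongr
        _ = K := by field_simp
    exact_mod_cast h10
  have hgH : 6 * (D * X) ≤ g * H := by
    have h5 : (6 * (D * X) : ℝ) ≤ g * H := by
      calc (6 * (D * X) : ℝ) = (Real.log X / 12) * (3456 * 2 ^ N * X / Real.log X) := by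
            rw [hDr]
            field_simp
            ring
        _ ≤ g * H := mul_le_mul hgge hHC (by positivity) (by positivity)
    exact_mod_cast h5
  -- `log log X ≤ y`
  have hyt : Real.log (Real.log X) ≤ y := by
    have h5 : Real.log X ≤ (2 : ℝ) ^ y := by
      have h6 : (D * L : ℝ) ≤ (2 : ℝ) ^ y := by exact_mod_cast hy1
      have h8 : (L : ℝ) ≤ D * L := le_mul_of_one_le_left (by linarith) hDr1
      linarith
    have h7 := Real.log_le_log hlp h5
    rw [Real.log_pow] at h7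
    have h9 : (0 : ℝ) ≤ (y : ℝ) := Nat.cast_nonneg _
    have h10 : (y : ℝ) * Real.log 2 ≤ y * 1 := mul_le_mul_of_nonneg_left (by linarith) h9
    linarith
  have hyr : y0 + 4 ≤ y := by
    have h5 : ((y0 + 4 : ℕ) : ℝ) ≤ y := h2.trans hyt
    exact_mod_cast h5
  obtain ⟨T, v, a, z, z1, M, hT, hv, ha, hT1, hT2, hM, hch⟩ := hy0 y (by omega)
  have h2y : (1 : ℝ) < (2 : ℝ) ^ y := one_lt_pow₀ (by norm_num) (by omega)
  have hTne : T.Nonempty := by
    rw [Finset.nonempty_iff_ne_empty]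
    intro h0
    have h5 : (1 : ℝ) < ((2 : ℝ) ^ y) ^ (1 - u - η) := Real.one_lt_rpow h2y (by linarith)
    have h6 : ((T.card).choose M : ℝ) ≤ 1 := by
      rw [h0, Finset.card_empty]
      have : Nat.choose 0 M ≤ 1 := by
        cases M with
        | zero => simp
        | succ n => simp
      exact_mod_cast this
    linarith
  have hvz : v ≤ z := by
    obtain ⟨q, hq⟩ := hTne
    have := hT q hq
    omega
  have hyU : 2 ^ y ≤ U := by
    rw [hU]
    exact Nat.pow_le_pow_right (by norm_num) (by omega)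
  have hUU : U * (U + 1) ≤ H := by
    refine le_trans ?_ hUH
    nlinarith
  have hHU : U + 1 ≤ H / U := by
    rw [Nat.le_div_iff_mul_le hUpos, mul_comm]
    exact hUU
  have h4U : 4 * U ≤ H := by
    refine le_trans ?_ hUH
    nlinarith
  have hcount := count_lower (T := T) (v := v) (a := a) (z := z) (z1 := z1) (M := M) (y := y)
    (N := N) (D := D) (L := L) (X := X) (H := H) (K1 := Nat.sqrt X + 1) (g := g)
    hT hv hvz ha hT1 hM hD hy1 hXL hHX (by omega) (by rw [← hU]; exact hUU)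
    (by rw [← hU]; exact h4U) (by rw [← hU]; omega) hg0 (by rw [← hU]; exact hKs1) hg1 hgH
  rw [← hU] at hcount
  -- the bound for `n`
  have hB : U * 2 ^ (U + 2) ≤ X ^ (3840 * 4 ^ N) := by
    have h5 : U * 2 ^ (U + 2) ≤ 2 ^ (4 * U) := by
      calc U * 2 ^ (U + 2) ≤ 2 ^ U * 2 ^ (U + 2) :=
            Nat.mul_le_mul_right _ (Nat.lt_two_pow_self).le
        _ = 2 ^ (U + (U + 2)) := (pow_add _ _ _).symm
        _ ≤ 2 ^ (4 * U) := Nat.pow_le_pow_right (by norm_num) (by omega)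
    refine h5.trans ?_
    have h6 : ((2 : ℝ) ^ (4 * U)) ≤ (X : ℝ) ^ (3840 * 4 ^ N) := by
      rw [← Real.log_le_log_iff (by positivity) (by positivity), Real.log_pow, Real.log_pow]
      push_cast
      calc (4 * (U : ℝ)) * Real.log 2 ≤ (4 * (U : ℝ)) * 1 :=
            mul_le_mul_of_nonneg_left (by linarith) (by positivity)
        _ ≤ (4 * (960 * 4 ^ N * Real.log X)) * 1 := by gcongr
        _ = 3840 * 4 ^ N * Real.log X := by ring
    exact_mod_cast h6
  have hVle : (V N (U * 2 ^ (U + 2)) X H).card ≤ (V N (X ^ (3840 * 4 ^ N)) X H).card := by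
    apply Finset.card_le_card
    intro k hk
    rw [V, Finset.mem_filter] at hk ⊢
    exact ⟨hk.1, hk.2.mono hB⟩
  set Z := ((H / U - 1 : ℕ) : ℝ) with hZ
  have hKreal : (H : ℝ) / (4 * (2 : ℝ) ^ N * W) ≤ Z := by
    have h5 : H < U * (H / U + 1) := Nat.lt_mul_div_succ _ hUpos
    have h5' : H / U + 1 = (H / U - 1) + 2 := by omega
    rw [h5'] at h5
    have h6 : (H : ℝ) < (U : ℝ) * (Z + 2) := by
      rw [hZ]; exact_mod_cast h5
    have h8 : (2 : ℝ) ≤ Z := by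
      have h9 : 4 ≤ U := by
        have : 2 ^ 2 ≤ U := by
          rw [hU]; exact Nat.pow_le_pow_right (by norm_num) (by omega)
        omega
      have : 2 ≤ H / U - 1 := by omega
      rw [hZ]
      exact_mod_cast this
    rw [div_le_iff₀ (by positivity)]
    rw [hUr] at h6
    have h10 : 2 * (2 : ℝ) ^ N * W * (Z + 2) ≤ 2 * (2 : ℝ) ^ N * W * (2 * Z) :=
      mul_le_mul_of_nonneg_left (by linarith) (by positivity)
    linarith
  have hcountR : ((T.card).choose M : ℝ) * Z ≤ 2 * ((V N (X ^ (3840 * 4 ^ N)) X H).card : ℝ) := by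
    have h5 := hcount.trans (Nat.mul_le_mul_left 2 hVle)
    rw [hZ]; exact_mod_cast h5
  have hlow : W ^ (1 - u - η) * ((H : ℝ) / (4 * (2 : ℝ) ^ N * W)) ≤
      2 * ((V N (X ^ (3840 * 4 ^ N)) X H).card : ℝ) := by
    refine le_trans ?_ hcountR
    gcongr
  set Q : ℝ := W ^ (u + η) with hQ
  have hQpos : 0 < Q := Real.rpow_pos_of_pos hWpos _
  have h11 : W ^ (1 - u - η) * ((H : ℝ) / (4 * (2 : ℝ) ^ N * W)) =
      H / (4 * (2 : ℝ) ^ N * Q) := by
    have h12 : W = W ^ (1 - u - η) * Q := by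
      rw [hQ, ← Real.rpow_add hWpos]
      have h14 : 1 - u - η + (u + η) = 1 := by ring
      rw [h14, Real.rpow_one]
    have h13 : 0 < W ^ (1 - u - η) := Real.rpow_pos_of_pos hWpos _
    rw [← mul_div_assoc, div_eq_div_iff (by positivity) (by positivity)]
    calc W ^ (1 - u - η) * (H : ℝ) * (4 * (2 : ℝ) ^ N * Q)
        = H * (4 * (2 : ℝ) ^ N * (W ^ (1 - u - η) * Q)) := by ring
      _ = H * (4 * (2 : ℝ) ^ N * W) := by rw [← h12]
  have hQ2 : Q ≤ 480 * (2 : ℝ) ^ N * Real.log X ^ (u + η) := by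
    have h12 : Q ≤ (480 * (2 : ℝ) ^ N * Real.log X) ^ (u + η) :=
      Real.rpow_le_rpow hWpos.le hW2 (by linarith)
    have h13 : (480 * (2 : ℝ) ^ N) ^ (u + η) ≤ 480 * (2 : ℝ) ^ N := by
      calc (480 * (2 : ℝ) ^ N) ^ (u + η) ≤ (480 * (2 : ℝ) ^ N) ^ (1 : ℝ) :=
            Real.rpow_le_rpow_of_exponent_le (by linarith) (by linarith)
        _ = 480 * (2 : ℝ) ^ N := Real.rpow_one _
    rw [Real.mul_rpow (by positivity) hlp.le] at h12
    exact h12.trans (mul_le_mul_of_nonneg_right h13 (by positivity))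
  set P : ℝ := Real.log X ^ (u + ε) with hP
  have hPpos : 0 < P := Real.rpow_pos_of_pos hlp _
  have h17 : 2 * (4 * (2 : ℝ) ^ N * Q) ≤ P := by
    calc 2 * (4 * (2 : ℝ) ^ N * Q)
        ≤ 2 * (4 * (2 : ℝ) ^ N * (480 * (2 : ℝ) ^ N * Real.log X ^ (u + η))) := by gcongr
      _ = (3840 * 4 ^ N) * Real.log X ^ (u + η) := by rw [h44]; ring
      _ ≤ Real.log X ^ η * Real.log X ^ (u + η) := by gcongr
      _ = Real.log X ^ (u + 2 * η) := by
          rw [← Real.rpow_add hlp]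
          congr 1
          ring
      _ ≤ P := Real.rpow_le_rpow_of_exponent_le h1 (by linarith)
  have h18 : (H : ℝ) / P ≤ H / (2 * (4 * (2 : ℝ) ^ N * Q)) :=
    div_le_div_of_nonneg_left (Nat.cast_nonneg H) (by positivity) h17
  have h19 : (H : ℝ) / (2 * (4 * (2 : ℝ) ^ N * Q)) = H / (4 * (2 : ℝ) ^ N * Q) / 2 := by
    rw [div_div]; ring_nf
  rw [h11] at hlow
  linarith

end Pool.Agent.Lib.MP_3e329f_nt.Short
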