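import Pool.Agent.Lib.MP_d610d0_nt.CH.D.Main
import Pool.Agent.Lib.MP_0da313_nt.CM.M
import Pool.Agent.Lib.MP_0da313_nt.CM.P.bil
import Pool.Agent.Lib.MP_0da313_nt.CM.P.blk
import Pool.Agent.Lib.MP_0da313_nt.CM.P.dya
import Pool.Agent.Lib.MP_0da313_nt.CM.P.tI
import Pool.Agent.Lib.MP_0da313_nt.CM.P.LL
import Pool.Agent.Lib.MP_0da313_nt.CM.P.LCP
import Pool.Agent.Lib.MP_0da313_nt.CM.P.SCP
import Pool.Agent.Lib.MP_0da313_nt.CM.P.okP
import Pool.Agent.Lib.MP_0da313_nt.CM.P.one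
import Pool.Agent.Lib.MP_0da313_nt.CM.P.swp
import Pool.Agent.Lib.MP_0da313_nt.CM.P.conn
import Pool.Agent.Lib.MP_0da313_nt.CM.P.cop
import Pool.Agent.Lib.MP_0da313_nt.CM.P.bv1
import Pool.Agent.Lib.MP_0da313_nt.CM.P.bv
import Pool.Agent.Lib.MP_0da313_nt.CM.P.mu
import Pool.Agent.Lib.MP_0da313_nt.CM.P.m1

set_option autoImplicit false

/-!
The Bombieri-Vinogradov theorem for the primes and the mass of the primes in a window (from the
files of the project CM).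
-/

namespace Pool.Agent.Lib.MP_3e329f_nt

open Pool.Agent Pool.Agent.CM Pool.Agent.CM.B

theorem h_BV : BVc CP 1 :=
  have h_bil : R_bil := p_bil CH.D.h_ls CH.D.p_kf CH.D.p_kb
  have h_LL : R_LL := p_LL (p_blk h_bil) p_dya p_tI CH.D.p_vau
  p_bv (p_bv1 p_one p_swp p_con p_cop) CP 1 (p_LCP h_LL 1 le_rfl)
    (p_SCP CH.D.h_pwp 1 le_rfl) (p_okP 1 le_rfl).1

theorem h_mu : CM.M.R_mu := CM.M.p_mu

theorem h_m1 : CM.M.R_m1 := CM.M.p_m1 CH.P.h_PNT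

end Pool.Agent.Lib.MP_3e329f_nt
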