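import Pool.Agent.Lib.MP_3e329f_nt.Count

set_option autoImplicit false

/-!
Almost all `k` in the residue class of `2^(m+2)` modulo a good number `m` are values.
-/

namespace Pool.Agent.Lib.MP_3e329f_nt.Cls

open Pool.Agent.Lib.MP_3e329f_nt (Val primes exists_K0 card_primes)

/-- Moduli `m` with `m ∣ 2^(m+2) (4^m - 1)`. -/
def Good (m : ℕ) : Prop := 4 ^ m * 2 ^ (m + 2) ≡ 2 ^ (m + 2) [MOD m]

lemma pow_step {m : ℕ} (hg : Good m) (t : ℕ) :
    4 ^ (m * t) * 2 ^ (m + 2) ≡ 2 ^ (m + 2) [MOD m] := by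
  induction t with
  | zero => simp only [mul_zero, pow_zero, one_mul]; rfl
  | succ t ih =>
    have h : 4 ^ (m * (t + 1)) * 2 ^ (m + 2) = 4 ^ (m * t) * (4 ^ m * 2 ^ (m + 2)) := by ring
    rw [h]
    exact (Nat.ModEq.mul_left _ hg).trans ih

lemma value_of {m p k : ℕ} (hm : 1 ≤ m) (hg : Good m) (hp : p.Prime) (hp2 : p ≠ 2)
    (hpm : Nat.Coprime m p) (hkm : k ≡ 2 ^ (m + 2) [MOD m]) (hkp : k ≡ 2 ^ (m + 2) [MOD p])
    (hk : k < m * p) : Val k := by
  refine ⟨m * p, Nat.mul_pos hm hp.pos, ?_⟩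
  obtain ⟨t, ht⟩ := hp.odd_of_ne_two hp2
  have h1 : 2 ^ (m * p + 2) = 4 ^ (m * t) * 2 ^ (m + 2) := by
    have h0 : (4 : ℕ) ^ (m * t) = 2 ^ (2 * (m * t)) := by
      have h4 : (4 : ℕ) = 2 ^ 2 := by norm_num
      rw [h4, ← pow_mul]
    rw [h0, ← pow_add]
    congr 1
    rw [ht]
    ring
  have h1' : 2 ^ (m * p + 2) = 2 ^ (m * (p - 1)) * 2 ^ (m + 2) := by
    rw [← pow_add]
    congr 1
    obtain ⟨q, rfl⟩ : ∃ q, p = q + 1 := ⟨p - 1, by have := hp.pos; omega⟩
    simp only [Nat.add_sub_cancel]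
    ring
  have h2 : 2 ^ (m * p + 2) ≡ k [MOD m] := by
    rw [h1]
    exact (pow_step hg t).trans hkm.symm
  have h3 : 2 ^ (m * p + 2) ≡ k [MOD p] := by
    have h4 : 2 ^ (p - 1) ≡ 1 [MOD p] := by
      have hc : Nat.Coprime 2 p := by
        rw [Nat.coprime_primes Nat.prime_two hp]
        exact fun h => hp2 h.symm
      have := Nat.ModEq.pow_totient hc
      rwa [Nat.totient_prime hp] at this
    rw [h1', mul_comm m (p - 1), pow_mul]
    have := (h4.pow m).mul hkp.symm
    simpa using this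
  have h4 : 2 ^ (m * p + 2) ≡ k [MOD m * p] :=
    (Nat.modEq_and_modEq_iff_modEq_mul hpm).mp ⟨h2, h3⟩
  have h5 : 2 ^ (m * p + 2) % (m * p) = k % (m * p) := h4
  rw [h5, Nat.mod_eq_of_lt hk]

/-- Few of the numbers `M, M - 1, …, M - K + 1` have all prime factors in `Q`. -/
lemma smooth_count {M K : ℕ} {Q : Finset ℕ} (hQ : ∀ p ∈ Q, p.Prime) (hKQ : primes K ⊆ Q)
    (hK : K < M) {B : Finset ℕ} (hB : B ⊆ Finset.range K)
    (hsm : ∀ i ∈ B, ∀ p, p.Prime → p ∣ M - i → p ∈ Q) :
    (M - K) ^ B.card ≤ K.factorial * M ^ Q.card := by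
  set R := ∏ i ∈ B, (M - i) with hR
  have hpos : ∀ i ∈ B, M - i ≠ 0 := by
    intro i hi
    have := Finset.mem_range.mp (hB hi)
    omega
  have hR0 : R ≠ 0 := Finset.prod_ne_zero_iff.mpr hpos
  have h1 : (M - K) ^ B.card ≤ R := by
    rw [hR, ← Finset.prod_const]
    apply Finset.prod_le_prod'
    intro i hi
    have := Finset.mem_range.mp (hB hi)
    omega
  have hC : (K.factorial * M.choose K) ≠ 0 :=
    mul_ne_zero (Nat.factorial_ne_zero K) (Nat.choose_pos hK.le).ne'
  have hdvd : R ∣ K.factorial * M.choose K := by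
    rw [← Nat.descFactorial_eq_factorial_mul_choose, Nat.descFactorial_eq_prod_range]
    exact Finset.prod_dvd_prod_of_subset _ _ _ hB
  have hsub : R.primeFactors ⊆ Q := by
    intro p hp
    have hpp := Nat.prime_of_mem_primeFactors hp
    have hpR := Nat.dvd_of_mem_primeFactors hp
    rw [hR] at hpR
    obtain ⟨i, hi, hpi⟩ := (Prime.dvd_finsetProd_iff (Nat.prime_iff.mp hpp) _).mp hpR
    exact hsm i hi p hpp hpi
  have hfac : ∏ p ∈ Q, p ^ K.factorial.factorization p = K.factorial := by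
    have h2 := Nat.prod_factorization_pow_eq_self (Nat.factorial_ne_zero K)
    rw [Finsupp.prod_of_support_subset _ (s := Q)] at h2
    · exact h2
    · intro p hp
      have hpp := Nat.prime_of_mem_primeFactors hp
      have hpK := Nat.dvd_of_mem_primeFactors hp
      apply hKQ
      rw [primes, Finset.mem_filter, Finset.mem_range]
      exact ⟨by have := (hpp.dvd_factorial).mp hpK; omega, hpp⟩
    · intro i _
      exact pow_zero i
  calc (M - K) ^ B.card ≤ R := h1
    _ = ∏ p ∈ R.primeFactors, p ^ R.factorization p :=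
        (Nat.prod_factorization_pow_eq_self hR0).symm
    _ ≤ ∏ p ∈ R.primeFactors, p ^ (K.factorial * M.choose K).factorization p := by
        apply Finset.prod_le_prod'
        intro p hp
        exact Nat.pow_le_pow_right (Nat.prime_of_mem_primeFactors hp).pos
          ((Nat.factorization_le_iff_dvd hR0 hC).mpr hdvd p)
    _ ≤ ∏ p ∈ Q, p ^ (K.factorial * M.choose K).factorization p := by
        apply Finset.prod_le_prod_of_subset_of_one_le' hsub
        intro p hp _
        exact Nat.one_le_pow _ _ (hQ p hp).pos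
    _ = ∏ p ∈ Q, (p ^ K.factorial.factorization p * p ^ (M.choose K).factorization p) := by
        apply Finset.prod_congr rfl
        intro p _
        rw [Nat.factorization_mul (Nat.factorial_ne_zero K) (Nat.choose_pos hK.le).ne',
          Finsupp.add_apply, pow_add]
    _ = K.factorial * ∏ p ∈ Q, p ^ (M.choose K).factorization p := by
        rw [Finset.prod_mul_distrib, hfac]
    _ ≤ K.factorial * M ^ Q.card := by
        apply Nat.mul_le_mul_left
        rw [← Finset.prod_const]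
        apply Finset.prod_le_prod'
        intro p _
        exact Nat.pow_factorization_choose_le (by omega)

/-- Bound for the number of bad `i`. -/
lemma bad_count {M m K s D : ℕ} {Q B : Finset ℕ} (hQ : ∀ p ∈ Q, p.Prime) (hKQ : primes K ⊆ Q)
    (hm : 7 ≤ m) (hM : M ≤ 2 ^ (m + 2))
    (hM2 : 2 ^ (m / 2 + 1) ≤ M) (hKs : K ≤ 2 ^ s) (hs : D * s ≤ m) (hs2 : s ≤ m / 2)
    (hπ : D * Q.card ≤ K) (hB : B ⊆ Finset.range K)
    (hsm : ∀ i ∈ B, ∀ p, p.Prime → p ∣ M - i → p ∈ Q) : D * B.card ≤ 6 * K := by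
  set h := m / 2 with hh
  have h1 : 2 ^ s ≤ 2 ^ h := Nat.pow_le_pow_right (by norm_num) hs2
  have h2 : 2 ^ (h + 1) = 2 * 2 ^ h := by ring
  have h0 : 0 < 2 ^ h := by positivity
  have hK : K < M := by omega
  have h3 := smooth_count hQ hKQ hK hB hsm
  have h4 : (2 ^ h) ^ B.card ≤ (M - K) ^ B.card := Nat.pow_le_pow_left (by omega) _
  have h5 : K.factorial ≤ (2 ^ s) ^ K :=
    (Nat.factorial_le_pow K).trans (Nat.pow_le_pow_left hKs K)
  have h6 : M ^ Q.card ≤ (2 ^ (m + 2)) ^ Q.card := Nat.pow_le_pow_left hM _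
  have h7 : 2 ^ (h * B.card) ≤ 2 ^ (s * K + (m + 2) * Q.card) := by
    calc 2 ^ (h * B.card) = (2 ^ h) ^ B.card := by rw [← pow_mul]
      _ ≤ K.factorial * M ^ Q.card := h4.trans h3
      _ ≤ (2 ^ s) ^ K * (2 ^ (m + 2)) ^ Q.card := Nat.mul_le_mul h5 h6
      _ = 2 ^ (s * K + (m + 2) * Q.card) := by rw [← pow_mul, ← pow_mul, ← pow_add]
  have h8 := (Nat.pow_le_pow_iff_right (by norm_num : 1 < 2)).mp h7
  have h9 : m + 2 ≤ 3 * h := by omega
  have h10 : m ≤ 3 * h := by omega
  have h11 : h * (D * B.card) ≤ h * (6 * K) := by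
    calc h * (D * B.card) = D * (h * B.card) := by ring
      _ ≤ D * (s * K + (m + 2) * Q.card) := Nat.mul_le_mul_left _ h8
      _ = (D * s) * K + (m + 2) * (D * Q.card) := by ring
      _ ≤ (3 * h) * K + (3 * h) * K :=
          Nat.add_le_add (Nat.mul_le_mul_right _ (hs.trans h10)) (Nat.mul_le_mul h9 hπ)
      _ = h * (6 * K) := by ring
  exact Nat.le_of_mul_le_mul_left h11 (by omega)

/-- If `M - i` has a prime factor larger than `K` which does not divide `m`, then `c + m i` is a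
value. -/
lemma val_of_large {M m c K i p : ℕ} (hm : 1 ≤ m) (hg : Good m) (hK2 : 2 ≤ K)
    (hMc : 2 ^ (m + 2) = m * M + c) (hc : c < m) (hi : i < K) (hiM : i < M) (hp : p.Prime)
    (hpK : K < p) (hpm : ¬ p ∣ m) (hpd : p ∣ M - i) : Val (c + m * i) := by
  have hcop : Nat.Coprime m p := by
    rw [Nat.coprime_comm, Nat.Prime.coprime_iff_not_dvd hp]
    exact hpm
  have hlt : c + m * i < m * p := by
    calc c + m * i < m + m * i := by omega
      _ = m * (i + 1) := by ring
      _ ≤ m * p := Nat.mul_le_mul_left _ (by omega)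
  have heq : 2 ^ (m + 2) = c + m * i + m * (M - i) := by
    obtain ⟨d, rfl⟩ : ∃ d, M = i + d := ⟨M - i, by omega⟩
    rw [hMc, Nat.add_sub_cancel_left]
    ring
  refine value_of hm hg hp (by omega) hcop ?_ ?_ hlt
  · rw [heq]
    have h1 : c + m * i ≡ c + m * i + m * (M - i) [MOD m] := by
      have : m * (M - i) ≡ 0 [MOD m] := (Nat.modEq_zero_iff_dvd).mpr (dvd_mul_right _ _)
      exact (Nat.ModEq.add_left (c + m * i) this).symm
    exact h1
  · rw [heq]
    have : m * (M - i) ≡ 0 [MOD p] := (Nat.modEq_zero_iff_dvd).mpr (hpd.mul_left _)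
    simpa using (Nat.ModEq.add_left (c + m * i) this).symm

/-- The count for one class. -/
lemma class_count {m K s D : ℕ} (hm : 7 ≤ m) (hg : Good m) (hK2 : 2 ≤ K)
    (hKs : K ≤ 2 ^ s) (hs : D * s ≤ m) (hs2 : s ≤ m / 2)
    (hπ : D * ((primes K).card + m.primeFactors.card) ≤ K) :
    ∃ I : Finset ℕ, (∀ i ∈ I, i < K ∧ Val (2 ^ (m + 2) % m + m * i)) ∧
      D * K ≤ D * I.card + 6 * K := by
  classical
  set M := 2 ^ (m + 2) / m with hMdef
  set c := 2 ^ (m + 2) % m with hcdef
  have hMc : 2 ^ (m + 2) = m * M + c := (Nat.div_add_mod _ _).symm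
  have hc : c < m := Nat.mod_lt _ (by omega)
  have hM : M ≤ 2 ^ (m + 2) := Nat.div_le_self _ _
  have hM2 : 2 ^ (m / 2 + 1) ≤ M := by
    by_contra hcon
    push Not at hcon
    have h1 : m < 2 ^ (m / 2 + 1) := by
      have h2 : ∀ x : ℕ, 1 ≤ x → 2 * x ≤ 2 ^ x := by
        intro x hx
        induction x, hx using Nat.le_induction with
        | base => norm_num
        | succ n hn ih =>
          have : 2 ^ (n + 1) = 2 * 2 ^ n := by ring
          have : 2 ^ 1 ≤ 2 ^ n := Nat.pow_le_pow_right (by norm_num) hn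
          omega
      have := h2 (m / 2 + 1) (by omega)
      omega
    have h3 : m * M + c < 2 ^ (m / 2 + 1) * 2 ^ (m / 2 + 1) := by
      calc m * M + c < m * M + m := by omega
        _ = m * (M + 1) := by ring
        _ ≤ 2 ^ (m / 2 + 1) * 2 ^ (m / 2 + 1) := Nat.mul_le_mul h1.le hcon
    rw [← hMc, ← pow_add] at h3
    have := (Nat.pow_lt_pow_iff_right (by norm_num : 1 < 2)).mp h3
    omega
  have hKM : K < M := by
    have h1 : 2 ^ s ≤ 2 ^ (m / 2) := Nat.pow_le_pow_right (by norm_num) hs2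
    have h2 : 2 ^ (m / 2 + 1) = 2 * 2 ^ (m / 2) := by ring
    have h0 : 0 < 2 ^ (m / 2) := by positivity
    omega
  set Q := primes K ∪ m.primeFactors with hQdef
  have hQ : ∀ p ∈ Q, p.Prime := by
    intro p hp
    rw [hQdef, Finset.mem_union] at hp
    rcases hp with hp | hp
    · rw [primes, Finset.mem_filter] at hp
      exact hp.2
    · exact Nat.prime_of_mem_primeFactors hp
  have hπ' : D * Q.card ≤ K :=
    (Nat.mul_le_mul_left _ (Finset.card_union_le _ _)).trans hπ
  set B := (Finset.range K).filter (fun i => ∀ p, p.Prime → p ∣ M - i → p ∈ Q) with hBdef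
  have hBc : D * B.card ≤ 6 * K := by
    refine bad_count hQ Finset.subset_union_left hm hM hM2 hKs hs hs2 hπ'
      (Finset.filter_subset _ _) ?_
    intro i hi
    exact (Finset.mem_filter.mp hi).2
  refine ⟨Finset.range K \ B, ?_, ?_⟩
  · intro i hi
    rw [Finset.mem_sdiff, Finset.mem_range] at hi
    obtain ⟨hlt, hiB⟩ := hi
    refine ⟨hlt, ?_⟩
    rw [hBdef, Finset.mem_filter, Finset.mem_range] at hiB
    push Not at hiB
    obtain ⟨p, hp, hpd, hpQ⟩ := hiB hlt
    rw [hQdef, Finset.mem_union, not_or] at hpQ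
    have hpK : K < p := by
      by_contra hcon
      apply hpQ.1
      rw [primes, Finset.mem_filter, Finset.mem_range]
      exact ⟨by omega, hp⟩
    have hpm : ¬ p ∣ m := by
      intro h
      apply hpQ.2
      rw [Nat.mem_primeFactors]
      exact ⟨hp, h, by omega⟩
    exact val_of_large (by omega) hg hK2 hMc hc hlt (by omega) hp hpK hpm hpd
  · have h1 : (Finset.range K).card - B.card ≤ (Finset.range K \ B).card :=
      Finset.le_card_sdiff B (Finset.range K)
    rw [Finset.card_range] at h1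
    have h2 : K ≤ (Finset.range K \ B).card + B.card := by omega
    calc D * K ≤ D * ((Finset.range K \ B).card + B.card) := Nat.mul_le_mul_left _ h2
      _ = D * (Finset.range K \ B).card + D * B.card := by ring
      _ ≤ _ := by omega

/-- `ω(m)` is at most the logarithm. -/
lemma card_primeFactors_le {m X : ℕ} (hm : m ≠ 0) (hmX : m ≤ X) :
    m.primeFactors.card ≤ Nat.log 2 X := by
  have h1 : 2 ^ m.primeFactors.card ≤ X := by
    calc 2 ^ m.primeFactors.card ≤ ∏ p ∈ m.primeFactors, p :=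
          Finset.pow_card_le_prod _ _ _ (fun p hp => (Nat.prime_of_mem_primeFactors hp).two_le)
      _ ≤ m := Nat.le_of_dvd (Nat.pos_of_ne_zero hm) (Nat.prod_primeFactors_dvd m)
      _ ≤ X := hmX
  exact (Nat.le_log_iff_pow_le (by norm_num) (by omega)).mpr h1

open Filter in
/-- The count for all classes. -/
theorem classes (D : ℕ) (hD : 1 ≤ D) : ∀ᶠ X : ℕ in atTop, ∀ m : ℕ,
    8 * D * Real.log X ≤ m → (m : ℝ) * (8 * D * Real.log X) ≤ X → Good m →
    ∃ I : Finset ℕ, (∀ i ∈ I, i < X / m ∧ Val (2 ^ (m + 2) % m + m * i)) ∧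
      D * (X / m) ≤ D * I.card + 6 * (X / m) := by
  obtain ⟨K0, hK0⟩ := exists_K0 (2 * D)
  have hlogX : Tendsto (fun X : ℕ => Real.log X) atTop atTop :=
    Real.tendsto_log_atTop.comp tendsto_natCast_atTop_atTop
  filter_upwards [hlogX.eventually_ge_atTop (4 + K0), eventually_ge_atTop 2] with X hL hX2 m hm1 hm2 hg
  set L := Real.log X with hLdef
  have hK00 : (0 : ℝ) ≤ K0 := Nat.cast_nonneg _
  have hL4 : 4 ≤ L := by linarith
  have hD1 : (1 : ℝ) ≤ D := by exact_mod_cast hD
  have hX0 : (0 : ℝ) < X := by exact_mod_cast (show 0 < X by omega)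
  have hDL : 0 < D * L := by positivity
  have hDLL : L ≤ D * L := le_mul_of_one_le_left (by linarith) hD1
  have hmpos : (0 : ℝ) < m := by linarith
  have hmpos' : 0 < m := by exact_mod_cast hmpos
  -- the logarithm to base 2
  have hlog2 : (Nat.log 2 X : ℝ) + 1 ≤ 2 * L := by
    have h1 : 2 ^ Nat.log 2 X ≤ X := Nat.pow_log_le_self 2 (by omega)
    have h2 : ((2 : ℝ)) ^ Nat.log 2 X ≤ X := by exact_mod_cast h1
    have h3 := Real.log_le_log (by positivity) h2
    rw [Real.log_pow] at h3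
    have h4 := Real.log_two_gt_d9
    have h5 : (0 : ℝ) ≤ Nat.log 2 X := Nat.cast_nonneg _
    nlinarith
  set s := Nat.log 2 X + 1 with hs
  have hsr : (s : ℝ) ≤ 2 * L := by rw [hs]; push_cast; exact hlog2
  have hXs : X ≤ 2 ^ s := (Nat.lt_pow_succ_log_self (by norm_num) X).le
  -- the number `K`
  set K := X / m with hK
  have hKX : K ≤ X := Nat.div_le_self _ _
  have hKlow : 8 * D * L - 1 ≤ K := by
    have h1 : X < m * (K + 1) := Nat.lt_mul_div_succ _ hmpos'
    have h2 : (X : ℝ) < m * (K + 1) := by exact_mod_cast h1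
    have h3 : (m : ℝ) * (8 * D * L) < m * (K + 1) := lt_of_le_of_lt hm2 h2
    have h4 := lt_of_mul_lt_mul_left h3 hmpos.le
    linarith
  have hmX : m ≤ X := by
    have h1 : (m : ℝ) ≤ X := by
      refine le_trans ?_ hm2
      exact le_mul_of_one_le_right hmpos.le (by linarith)
    exact_mod_cast h1
  have hKK0 : K0 ≤ K := by
    have h1 : (K0 : ℝ) ≤ K := by linarith
    exact_mod_cast h1
  refine class_count ?_ hg ?_ (hKX.trans hXs) ?_ ?_ ?_
  · have h1 : (7 : ℝ) ≤ m := by linarith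
    exact_mod_cast h1
  · have h1 : (2 : ℝ) ≤ K := by linarith
    exact_mod_cast h1
  · have h1 : ((D * s : ℕ) : ℝ) ≤ m := by
      push_cast
      have : (D : ℝ) * s ≤ D * (2 * L) := mul_le_mul_of_nonneg_left hsr (by linarith)
      linarith
    exact_mod_cast h1
  · have h1 : 2 * s ≤ m := by
      have h2 : ((2 * s : ℕ) : ℝ) ≤ m := by
        push_cast
        linarith
      exact_mod_cast h2
    omega
  · have h1 := hK0 K hKK0
    have h2 : 2 * (D * m.primeFactors.card) ≤ K := by
      have h3 : m.primeFactors.card ≤ s := (card_primeFactors_le hmpos'.ne' hmX).trans (by omega)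
      have h4 : ((2 * (D * m.primeFactors.card) : ℕ) : ℝ) ≤ K := by
        push_cast
        have h5 : (m.primeFactors.card : ℝ) ≤ 2 * L := (Nat.cast_le.mpr h3).trans hsr
        have h6 : (D : ℝ) * m.primeFactors.card ≤ D * (2 * L) :=
          mul_le_mul_of_nonneg_left h5 (by linarith)
        linarith
      exact_mod_cast h4
    have h3 : D * ((primes K).card + m.primeFactors.card) =
        D * (primes K).card + D * m.primeFactors.card := by ring
    have h4 : 2 * D * (primes K).card = 2 * (D * (primes K).card) := by ring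
    rw [h3]
    omega

end Pool.Agent.Lib.MP_3e329f_nt.Cls
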