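import Mathlib

set_option autoImplicit false

/-!
Combinatorial part: from a set `T` of primes `q` with smooth `q - 1` to values of `2^(n+2) mod n`.
-/

namespace Pool.Agent.Lib.MP_3e329f_nt

/-- `k` is of the form `2^(n+2) mod n` with `n ≥ 1`. -/
def Val (k : ℕ) : Prop := ∃ n, 1 ≤ n ∧ 2 ^ (n + 2) % n = k

/-- Moduli `m` with `m ∣ 2^(m+2) (2^m - 1)`. -/
def Good (m : ℕ) : Prop := 2 ^ m * 2 ^ (m + 2) ≡ 2 ^ (m + 2) [MOD m]

lemma pow_step {m : ℕ} (hg : Good m) (t : ℕ) :
    2 ^ (m * t) * 2 ^ (m + 2) ≡ 2 ^ (m + 2) [MOD m] := by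
  induction t with
  | zero => simp only [mul_zero, pow_zero, one_mul]; rfl
  | succ t ih =>
    have h : 2 ^ (m * (t + 1)) * 2 ^ (m + 2) = 2 ^ (m * t) * (2 ^ m * 2 ^ (m + 2)) := by ring
    rw [h]
    exact (Nat.ModEq.mul_left _ hg).trans ih

lemma value_of {m p k : ℕ} (hm : 1 ≤ m) (hg : Good m) (hp : p.Prime) (hp2 : p ≠ 2)
    (hpm : Nat.Coprime m p) (hkm : k ≡ 2 ^ (m + 2) [MOD m]) (hkp : k ≡ 2 ^ (m + 2) [MOD p])
    (hk : k < m * p) : Val k := by
  refine ⟨m * p, Nat.mul_pos hm hp.pos, ?_⟩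
  have h1 : 2 ^ (m * p + 2) = 2 ^ (m * (p - 1)) * 2 ^ (m + 2) := by
    rw [← pow_add]
    congr 1
    obtain ⟨q, rfl⟩ : ∃ q, p = q + 1 := ⟨p - 1, by have := hp.pos; omega⟩
    simp only [Nat.add_sub_cancel]
    ring
  have h2 : 2 ^ (m * p + 2) ≡ k [MOD m] := by
    rw [h1]
    exact (pow_step hg (p - 1)).trans hkm.symm
  have h3 : 2 ^ (m * p + 2) ≡ k [MOD p] := by
    have h4 : 2 ^ (p - 1) ≡ 1 [MOD p] := by
      have hc : Nat.Coprime 2 p := by
        rw [Nat.coprime_primes Nat.prime_two hp]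
        exact fun h => hp2 h.symm
      have := Nat.ModEq.pow_totient hc
      rwa [Nat.totient_prime hp] at this
    rw [h1, mul_comm m (p - 1), pow_mul]
    have := (h4.pow m).mul hkp.symm
    simpa using this
  have h4 : 2 ^ (m * p + 2) ≡ k [MOD m * p] :=
    (Nat.modEq_and_modEq_iff_modEq_mul hpm).mp ⟨h2, h3⟩
  have h5 : 2 ^ (m * p + 2) % (m * p) = k % (m * p) := h4
  rw [h5, Nat.mod_eq_of_lt hk]

/-- The primes up to `K`. -/
def primes (K : ℕ) : Finset ℕ := (Finset.range (K + 1)).filter Nat.Prime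

/-- Few of the numbers `M, M - 1, …, M - K + 1` have all prime factors `≤ K`. -/
lemma smooth_count {M K : ℕ} (hK : K < M) {B : Finset ℕ} (hB : B ⊆ Finset.range K)
    (hsm : ∀ i ∈ B, ∀ p, p.Prime → p ∣ M - i → p ≤ K) :
    (M - K) ^ B.card ≤ K.factorial * M ^ (primes K).card := by
  set R := ∏ i ∈ B, (M - i) with hR
  have hpos : ∀ i ∈ B, M - i ≠ 0 := by
    intro i hi
    have := Finset.mem_range.mp (hB hi)
    omega
  have hR0 : R ≠ 0 := Finset.prod_ne_zero_iff.mpr hpos
  have h1 : (M - K) ^ B.card ≤ R := by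
    rw [hR, ← Finset.prod_const]
    apply Finset.prod_le_prod'
    intro i hi
    have := Finset.mem_range.mp (hB hi)
    omega
  have hC : (K.factorial * M.choose K) ≠ 0 :=
    mul_ne_zero (Nat.factorial_ne_zero K) (Nat.choose_pos hK.le).ne'
  have hdvd : R ∣ K.factorial * M.choose K := by
    rw [← Nat.descFactorial_eq_factorial_mul_choose, Nat.descFactorial_eq_prod_range]
    exact Finset.prod_dvd_prod_of_subset _ _ _ hB
  have hsub : R.primeFactors ⊆ primes K := by
    intro p hp
    have hpp := Nat.prime_of_mem_primeFactors hp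
    have hpR := Nat.dvd_of_mem_primeFactors hp
    rw [hR] at hpR
    obtain ⟨i, hi, hpi⟩ := (Prime.dvd_finsetProd_iff (Nat.prime_iff.mp hpp) _).mp hpR
    rw [primes, Finset.mem_filter, Finset.mem_range]
    exact ⟨by have := hsm i hi p hpp hpi; omega, hpp⟩
  have hfac : ∏ p ∈ primes K, p ^ K.factorial.factorization p = K.factorial := by
    have h2 := Nat.prod_factorization_pow_eq_self (Nat.factorial_ne_zero K)
    rw [Finsupp.prod_of_support_subset _ (s := primes K)] at h2
    · exact h2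
    · intro p hp
      have hpp := Nat.prime_of_mem_primeFactors hp
      have hpK := Nat.dvd_of_mem_primeFactors hp
      rw [primes, Finset.mem_filter, Finset.mem_range]
      exact ⟨by have := (hpp.dvd_factorial).mp hpK; omega, hpp⟩
    · intro i _
      exact pow_zero i
  calc (M - K) ^ B.card ≤ R := h1
    _ = ∏ p ∈ R.primeFactors, p ^ R.factorization p :=
        (Nat.prod_factorization_pow_eq_self hR0).symm
    _ ≤ ∏ p ∈ R.primeFactors, p ^ (K.factorial * M.choose K).factorization p := by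
        apply Finset.prod_le_prod'
        intro p hp
        exact Nat.pow_le_pow_right (Nat.prime_of_mem_primeFactors hp).pos
          ((Nat.factorization_le_iff_dvd hR0 hC).mpr hdvd p)
    _ ≤ ∏ p ∈ primes K, p ^ (K.factorial * M.choose K).factorization p := by
        apply Finset.prod_le_prod_of_subset_of_one_le' hsub
        intro p hp _
        rw [primes, Finset.mem_filter] at hp
        exact Nat.one_le_pow _ _ hp.2.pos
    _ = ∏ p ∈ primes K, (p ^ K.factorial.factorization p * p ^ (M.choose K).factorization p) := by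
        apply Finset.prod_congr rfl
        intro p _
        rw [Nat.factorization_mul (Nat.factorial_ne_zero K) (Nat.choose_pos hK.le).ne',
          Finsupp.add_apply, pow_add]
    _ = K.factorial * ∏ p ∈ primes K, p ^ (M.choose K).factorization p := by
        rw [Finset.prod_mul_distrib, hfac]
    _ ≤ K.factorial * M ^ (primes K).card := by
        apply Nat.mul_le_mul_left
        rw [← Finset.prod_const]
        apply Finset.prod_le_prod'
        intro p _
        exact Nat.pow_factorization_choose_le (by omega)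

/-- Bound for the number of bad `i`. -/
lemma bad_count {M m K s D : ℕ} {B : Finset ℕ} (hm : 7 ≤ m) (hM : M ≤ 2 ^ (m + 2))
    (hM2 : 2 ^ (m / 2 + 1) ≤ M) (hKs : K ≤ 2 ^ s) (hs : D * s ≤ m) (hs2 : s ≤ m / 2)
    (hπ : D * (primes K).card ≤ K) (hB : B ⊆ Finset.range K)
    (hsm : ∀ i ∈ B, ∀ p, p.Prime → p ∣ M - i → p ≤ K) : D * B.card ≤ 6 * K := by
  set h := m / 2 with hh
  have h1 : 2 ^ s ≤ 2 ^ h := Nat.pow_le_pow_right (by norm_num) hs2
  have h2 : 2 ^ (h + 1) = 2 * 2 ^ h := by ring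
  have h0 : 0 < 2 ^ h := by positivity
  have hK : K < M := by omega
  have h3 := smooth_count hK hB hsm
  have h4 : (2 ^ h) ^ B.card ≤ (M - K) ^ B.card := Nat.pow_le_pow_left (by omega) _
  have h5 : K.factorial ≤ (2 ^ s) ^ K :=
    (Nat.factorial_le_pow K).trans (Nat.pow_le_pow_left hKs K)
  have h6 : M ^ (primes K).card ≤ (2 ^ (m + 2)) ^ (primes K).card := Nat.pow_le_pow_left hM _
  have h7 : 2 ^ (h * B.card) ≤ 2 ^ (s * K + (m + 2) * (primes K).card) := by
    calc 2 ^ (h * B.card) = (2 ^ h) ^ B.card := by rw [← pow_mul]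
      _ ≤ K.factorial * M ^ (primes K).card := h4.trans h3
      _ ≤ (2 ^ s) ^ K * (2 ^ (m + 2)) ^ (primes K).card := Nat.mul_le_mul h5 h6
      _ = 2 ^ (s * K + (m + 2) * (primes K).card) := by rw [← pow_mul, ← pow_mul, ← pow_add]
  have h8 := (Nat.pow_le_pow_iff_right (by norm_num : 1 < 2)).mp h7
  have h9 : m + 2 ≤ 3 * h := by omega
  have h10 : m ≤ 3 * h := by omega
  have h11 : h * (D * B.card) ≤ h * (6 * K) := by
    calc h * (D * B.card) = D * (h * B.card) := by ring
      _ ≤ D * (s * K + (m + 2) * (primes K).card) := Nat.mul_le_mul_left _ h8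
      _ = (D * s) * K + (m + 2) * (D * (primes K).card) := by ring
      _ ≤ (3 * h) * K + (3 * h) * K :=
          Nat.add_le_add (Nat.mul_le_mul_right _ (hs.trans h10)) (Nat.mul_le_mul h9 hπ)
      _ = h * (6 * K) := by ring
  exact Nat.le_of_mul_le_mul_left h11 (by omega)

/-- If `M - i` has a prime factor larger than `K`, then `c + m i` is a value. -/
lemma val_of_large {M m c K i p : ℕ} (hm : 1 ≤ m) (hg : Good m) (hK : m ≤ K) (hK2 : 2 ≤ K)
    (hMc : 2 ^ (m + 2) = m * M + c) (hc : c < m) (hi : i < K) (hiM : i < M) (hp : p.Prime)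
    (hpK : K < p) (hpd : p ∣ M - i) : Val (c + m * i) := by
  have hcop : Nat.Coprime m p := by
    rw [Nat.coprime_comm, Nat.Prime.coprime_iff_not_dvd hp]
    intro h
    have := Nat.le_of_dvd hm h
    omega
  have hlt : c + m * i < m * p := by
    calc c + m * i < m + m * i := by omega
      _ = m * (i + 1) := by ring
      _ ≤ m * p := Nat.mul_le_mul_left _ (by omega)
  have heq : 2 ^ (m + 2) = c + m * i + m * (M - i) := by
    obtain ⟨d, rfl⟩ : ∃ d, M = i + d := ⟨M - i, by omega⟩
    rw [hMc, Nat.add_sub_cancel_left]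
    ring
  refine value_of hm hg hp (by omega) hcop ?_ ?_ hlt
  · rw [heq]
    have h1 : c + m * i ≡ c + m * i + m * (M - i) [MOD m] := by
      have : m * (M - i) ≡ 0 [MOD m] := (Nat.modEq_zero_iff_dvd).mpr (dvd_mul_right _ _)
      exact (Nat.ModEq.add_left (c + m * i) this).symm
    exact h1
  · rw [heq]
    have : m * (M - i) ≡ 0 [MOD p] := (Nat.modEq_zero_iff_dvd).mpr (hpd.mul_left _)
    simpa using (Nat.ModEq.add_left (c + m * i) this).symm

lemma card_primes (K : ℕ) : (primes K).card = Nat.primeCounting K := by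
  rw [Nat.primeCounting, Nat.primeCounting', Nat.count_eq_card_filter_range, primes]

lemma exists_K0 (D : ℕ) : ∃ K0 : ℕ, ∀ K, K0 ≤ K → D * (primes K).card ≤ K := by
  have h1 := Chebyshev.eventually_primeCounting_le (ε := 1) one_pos
  have h2 : ∀ᶠ x : ℝ in Filter.atTop, (D : ℝ) * (Real.log 4 + 1) ≤ Real.log x :=
    Real.tendsto_log_atTop.eventually_ge_atTop _
  have h3 : ∀ᶠ x : ℝ in Filter.atTop, (1 : ℝ) < x := Filter.eventually_gt_atTop 1
  have h4 : ∀ᶠ K : ℕ in Filter.atTop, D * (primes K).card ≤ K := by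
    have h5 := tendsto_natCast_atTop_atTop (R := ℝ) |>.eventually (h1.and (h2.and h3))
    filter_upwards [h5] with K hK
    obtain ⟨hK1, hK2, hK3⟩ := hK
    rw [Nat.floor_natCast] at hK1
    have hlog : 0 < Real.log K := Real.log_pos hK3
    have h6 : (D : ℝ) * (Nat.primeCounting K : ℝ) ≤ K := by
      calc (D : ℝ) * (Nat.primeCounting K : ℝ) ≤ D * ((Real.log 4 + 1) * K / Real.log K) :=
            mul_le_mul_of_nonneg_left hK1 (Nat.cast_nonneg D)
        _ = (D * (Real.log 4 + 1)) * K / Real.log K := by ring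
        _ ≤ Real.log K * K / Real.log K := by
            apply div_le_div_of_nonneg_right _ hlog.le
            exact mul_le_mul_of_nonneg_right hK2 (Nat.cast_nonneg K)
        _ = K := by field_simp
    rw [card_primes]
    exact_mod_cast h6
  exact Filter.eventually_atTop.mp h4


open Classical in
/-- The values below `X`. -/
noncomputable def V (X : ℕ) : Finset ℕ := (Finset.range X).filter Val

/-- `m` is good if `p - 1 ∣ m` for all primes `p ∣ m`. -/
lemma good_of {m : ℕ} (hm : 0 < m) (h : ∀ p, p.Prime → p ∣ m → p - 1 ∣ m) : Good m := by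
  unfold Good
  have key : (m : ℤ) ∣ 2 ^ (m + 2) * (2 ^ m - 1) := by
    have h1 : ((m : ℕ) : ℤ) ∣ ((2 ^ (m + 2) * (2 ^ m - 1) : ℕ) : ℤ) := by
      rw [Int.natCast_dvd_natCast]
      rw [Nat.dvd_iff_prime_pow_dvd_dvd]
      intro p k hp hpk
      rcases Nat.eq_zero_or_pos k with hk | hk
      · subst hk; simp
      have hpm : p ∣ m := (dvd_pow_self p hk.ne').trans hpk
      by_cases hp2 : p = 2
      · subst hp2
        apply Dvd.dvd.mul_right
        apply pow_dvd_pow
        have h2 : 2 ^ k ≤ m := Nat.le_of_dvd hm hpk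
        have h3 : k < 2 ^ k := Nat.lt_two_pow_self
        omega
      · apply Dvd.dvd.mul_left
        have h2 : Nat.totient (p ^ k) ∣ m := by
          rw [Nat.totient_prime_pow hp hk]
          apply Nat.Coprime.mul_dvd_of_dvd_of_dvd
          · apply Nat.Coprime.pow_left
            rw [Nat.coprime_self_sub_right hp.one_le]
            exact Nat.coprime_one_right p
          · exact (pow_dvd_pow p (Nat.sub_le k 1)).trans hpk
          · exact h p hp hpm
        have hc : Nat.Coprime 2 (p ^ k) := by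
          apply Nat.Coprime.pow_right
          rw [Nat.coprime_primes Nat.prime_two hp]
          exact fun h => hp2 h.symm
        obtain ⟨t, ht⟩ := h2
        have h3 : 2 ^ m ≡ 1 [MOD p ^ k] := by
          have h4 := (Nat.ModEq.pow_totient hc).pow t
          rw [← pow_mul, ← ht, one_pow] at h4
          exact h4
        exact (Nat.modEq_iff_dvd' Nat.one_le_two_pow).mp h3.symm
    have h5 : 1 ≤ 2 ^ m := Nat.one_le_two_pow
    push_cast [Nat.cast_sub h5] at h1
    exact h1
  rw [Nat.modEq_iff_dvd]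
  have h3 : ((2 ^ (m + 2) : ℕ) : ℤ) - ((2 ^ m * 2 ^ (m + 2) : ℕ) : ℤ) =
      -(2 ^ (m + 2) * (2 ^ m - 1)) := by
    push_cast; ring
  rw [h3]
  exact (dvd_neg).mpr key

/-- A number all of whose prime factors are `≤ v` divides a power of the primorial. -/
lemma dvd_primorial_pow {n v a z : ℕ} (hn : 0 < n) (hnz : n ≤ z) (ha : Nat.log 2 z ≤ a)
    (h : ∀ l : ℕ, l.Prime → l ∣ n → l ≤ v) : n ∣ primorial v ^ a := by
  rw [Nat.dvd_iff_prime_pow_dvd_dvd]
  intro p k hp hpk
  rcases Nat.eq_zero_or_pos k with hk | hk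
  · subst hk; simp
  have hpn : p ∣ n := (dvd_pow_self p hk.ne').trans hpk
  have hpv : p ≤ v := h p hp hpn
  have h1 : p ∣ primorial v := by
    unfold primorial
    apply Finset.dvd_prod_of_mem (fun p => p)
    rw [Finset.mem_filter, Finset.mem_range]
    exact ⟨by omega, hp⟩
  have h2 : k ≤ a := by
    have h3 : 2 ^ k ≤ z := by
      calc 2 ^ k ≤ p ^ k := Nat.pow_le_pow_left hp.two_le k
        _ ≤ n := Nat.le_of_dvd hn hpk
        _ ≤ z := hnz
    have h4 : k ≤ Nat.log 2 z := (Nat.le_log_iff_pow_le (by norm_num) (by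
      have : 0 < 2 ^ k := by positivity
      omega)).mpr h3
    omega
  exact (pow_dvd_pow p h2).trans (pow_dvd_pow_of_dvd h1 a)

/-- The number of `i < K` with `c + m i ≡ 4 (mod q)`. -/
lemma count_mod {K m c q : ℕ} (hmq : Nat.Coprime m q) :
    ((Finset.range K).filter (fun i => c + m * i ≡ 4 [MOD q])).card ≤ K / q + 1 := by
  have h : ((Finset.range K).filter (fun i => c + m * i ≡ 4 [MOD q])).card ≤
      (Finset.range (K / q + 1)).card := by
    apply Finset.card_le_card_of_injOn (fun i => i / q)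
    · intro i hi
      rw [Finset.mem_coe, Finset.mem_filter, Finset.mem_range] at hi
      rw [Finset.mem_coe, Finset.mem_range]
      have : i / q ≤ K / q := Nat.div_le_div_right hi.1.le
      show i / q < K / q + 1
      omega
    · intro i hi i' hi' heq
      rw [Finset.mem_coe, Finset.mem_filter] at hi hi'
      have heq' : i / q = i' / q := heq
      have h1 : c + m * i ≡ c + m * i' [MOD q] := hi.2.trans hi'.2.symm
      have h2 : m * i ≡ m * i' [MOD q] := Nat.ModEq.add_left_cancel' c h1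
      have h3 : i ≡ i' [MOD q] := by
        apply Nat.ModEq.cancel_left_of_coprime _ h2
        rw [Nat.coprime_comm] at hmq
        exact hmq
      have h4 : i % q = i' % q := h3
      rw [← Nat.div_add_mod i q, ← Nat.div_add_mod i' q, heq', h4]
  rwa [Finset.card_range] at h

/-- The values attached to a good modulus. -/
lemma class_count {M m c K s z1 : ℕ} {T S : Finset ℕ} (hm : 7 ≤ m) (hg : Good m) (hK : m ≤ K)
    (hMc : 2 ^ (m + 2) = m * M + c) (hc : c < m) (hKs : K ≤ 2 ^ s) (hs : 24 * s ≤ m)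
    (hπ : 24 * (primes K).card ≤ K)
    (hT : ∀ q ∈ T \ S, z1 < q ∧ Nat.Coprime m q) (hT1 : 8 * T.card ≤ z1) (hT2 : 8 * T.card ≤ K) :
    ∃ I : Finset ℕ, (∀ i ∈ I, i < K ∧ Val (c + m * i) ∧ ∀ q ∈ T \ S, ¬ c + m * i ≡ 4 [MOD q]) ∧
      K ≤ 2 * I.card := by
  classical
  have hs2 : s ≤ m / 2 := by omega
  have hM : M ≤ 2 ^ (m + 2) := by
    rw [hMc]
    calc M ≤ m * M := Nat.le_mul_of_pos_left M (by omega)
      _ ≤ m * M + c := Nat.le_add_right _ _
  have hM2 : 2 ^ (m / 2 + 1) ≤ M := by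
    by_contra hcon
    push Not at hcon
    have h1 : m < 2 ^ (m / 2 + 1) := by
      have : m / 2 + 1 < 2 ^ (m / 2 + 1) := Nat.lt_two_pow_self
      have h2 : ∀ x : ℕ, 1 ≤ x → 2 * x ≤ 2 ^ x := by
        intro x hx
        induction x, hx using Nat.le_induction with
        | base => norm_num
        | succ n hn ih =>
          have : 2 ^ (n + 1) = 2 * 2 ^ n := by ring
          have : 2 ^ 1 ≤ 2 ^ n := Nat.pow_le_pow_right (by norm_num) hn
          omega
      have := h2 (m / 2 + 1) (by omega)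
      omega
    have h3 : m * M + c < 2 ^ (m / 2 + 1) * 2 ^ (m / 2 + 1) := by
      calc m * M + c < m * M + m := by omega
        _ = m * (M + 1) := by ring
        _ ≤ 2 ^ (m / 2 + 1) * 2 ^ (m / 2 + 1) := Nat.mul_le_mul h1.le hcon
    rw [← hMc, ← pow_add] at h3
    have := (Nat.pow_lt_pow_iff_right (by norm_num : 1 < 2)).mp h3
    omega
  have hKM : K < M := by
    have h1 : 2 ^ s ≤ 2 ^ (m / 2) := Nat.pow_le_pow_right (by norm_num) hs2
    have h2 : 2 ^ (m / 2 + 1) = 2 * 2 ^ (m / 2) := by ring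
    have h0 : 0 < 2 ^ (m / 2) := by positivity
    omega
  set B := (Finset.range K).filter (fun i => ∀ p, p.Prime → p ∣ M - i → p ≤ K) with hBdef
  have hBc : 24 * B.card ≤ 6 * K := by
    refine bad_count hm hM hM2 hKs hs hs2 hπ (Finset.filter_subset _ _) ?_
    intro i hi
    exact (Finset.mem_filter.mp hi).2
  set E := (T \ S).biUnion (fun q => (Finset.range K).filter (fun i => c + m * i ≡ 4 [MOD q]))
    with hE
  have hEc : E.card ≤ T.card * (K / z1) + T.card := by
    calc E.card ≤ ∑ q ∈ T \ S,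
          ((Finset.range K).filter (fun i => c + m * i ≡ 4 [MOD q])).card :=
          Finset.card_biUnion_le
      _ ≤ ∑ q ∈ T \ S, (K / z1 + 1) := by
          apply Finset.sum_le_sum
          intro q hq
          obtain ⟨h1, h2⟩ := hT q hq
          refine (count_mod h2).trans ?_
          rcases Nat.eq_zero_or_pos z1 with h0 | h0
          · have hTe : T.card = 0 := by omega
            have : q ∈ T := (Finset.mem_sdiff.mp hq).1
            rw [Finset.card_eq_zero] at hTe
            rw [hTe] at this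
            simp at this
          · have := Nat.div_le_div_left h1.le h0 (a := K)
            omega
      _ = (T \ S).card * (K / z1 + 1) := by rw [Finset.sum_const, smul_eq_mul]
      _ ≤ T.card * (K / z1 + 1) := Nat.mul_le_mul_right _ (Finset.card_le_card Finset.sdiff_subset)
      _ = T.card * (K / z1) + T.card := by ring
  have hE4 : 4 * E.card ≤ K := by
    have h1 : 8 * (T.card * (K / z1)) ≤ K := by
      calc 8 * (T.card * (K / z1)) = (8 * T.card) * (K / z1) := by ring
        _ ≤ z1 * (K / z1) := Nat.mul_le_mul_right _ hT1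
        _ ≤ K := Nat.mul_div_le K z1
    omega
  refine ⟨Finset.range K \ (B ∪ E), ?_, ?_⟩
  · intro i hi
    rw [Finset.mem_sdiff, Finset.mem_union, not_or, Finset.mem_range] at hi
    obtain ⟨hlt, hiB, hiE⟩ := hi
    refine ⟨hlt, ?_, ?_⟩
    · rw [hBdef, Finset.mem_filter, Finset.mem_range] at hiB
      push Not at hiB
      obtain ⟨p, hp, hpd, hpK⟩ := hiB hlt
      exact val_of_large (by omega) hg hK (by omega) hMc hc hlt (by omega) hp hpK hpd
    · intro q hq h
      apply hiE
      rw [hE, Finset.mem_biUnion]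
      exact ⟨q, hq, Finset.mem_filter.mpr ⟨Finset.mem_range.mpr hlt, h⟩⟩
  · have h1 : (Finset.range K).card - (B ∪ E).card ≤ (Finset.range K \ (B ∪ E)).card :=
      Finset.le_card_sdiff (B ∪ E) (Finset.range K)
    rw [Finset.card_range] at h1
    have h2 : (B ∪ E).card ≤ B.card + E.card := Finset.card_union_le B E
    omega

/-- One class of values. -/
lemma class_exists {T S : Finset ℕ} {v a z z1 N y L X K0 : ℕ}
    (hT : ∀ q ∈ T, q.Prime ∧ z1 < q ∧ q ≤ z ∧ ∀ l : ℕ, l.Prime → l ∣ q - 1 → l ≤ v)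
    (hv : v ≤ z1) (hvz : v ≤ z) (ha : Nat.log 2 z ≤ a) (hT1 : 8 * T.card ≤ z1)
    (hS : S ⊆ T) (hSN : S.card = N) (hN : primorial v ^ a * z ^ N ≤ 2 ^ y)
    (hy : 24 * L ≤ 2 ^ y) (hXL : X ≤ 2 ^ L)
    (hy3 : 3 ≤ y) (hK1 : 2 ^ (y + 1) ≤ X / 2 ^ (y + 1)) (hT2 : 8 * T.card ≤ X / 2 ^ (y + 1))
    (hK3 : K0 ≤ X / 2 ^ (y + 1)) (hK0 : ∀ K, K0 ≤ K → 24 * (primes K).card ≤ K) :
    ∃ A : Finset ℕ, (∀ k ∈ A, k < X ∧ Val k ∧ ∀ q ∈ T, (k ≡ 4 [MOD q] ↔ q ∈ S)) ∧
      X / 2 ^ (y + 1) ≤ 2 * A.card := by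
  classical
  set u := primorial v ^ a * ∏ q ∈ S, q with hu
  have hprod0 : 0 < ∏ q ∈ S, q := Finset.prod_pos fun q hq => (hT q (hS hq)).1.pos
  have hpr0 : 0 < primorial v ^ a := pow_pos (primorial_pos v) a
  have hu0 : 0 < u := Nat.mul_pos hpr0 hprod0
  have huy : u ≤ 2 ^ y := by
    refine le_trans (Nat.mul_le_mul_left _ ?_) hN
    rw [← hSN, ← Finset.prod_const]
    apply Finset.prod_le_prod'
    intro q hq
    exact (hT q (hS hq)).2.2.1
  set l := Nat.log 2 u with hl
  have hl1 : 2 ^ l ≤ u := Nat.pow_log_le_self 2 hu0.ne'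
  have hl2 : u < 2 ^ (l + 1) := Nat.lt_pow_succ_log_self (by norm_num) u
  have hly : l ≤ y := by
    have h1 : 2 ^ l ≤ 2 ^ y := hl1.trans huy
    exact (Nat.pow_le_pow_iff_right (by norm_num : 1 < 2)).mp h1
  set j := y - l with hj
  have hjl : j + l = y := by omega
  set m := 2 ^ j * u with hm
  have hm1 : 2 ^ y ≤ m := by
    rw [hm, ← hjl, pow_add]
    exact Nat.mul_le_mul_left _ hl1
  have hm2 : m < 2 ^ (y + 1) := by
    have : y + 1 = j + (l + 1) := by omega
    rw [hm, this, pow_add]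
    exact Nat.mul_lt_mul_of_pos_left hl2 (by positivity)
  have hm7 : 7 ≤ m := by
    have : 2 ^ 3 ≤ 2 ^ y := Nat.pow_le_pow_right (by norm_num) hy3
    omega
  -- prime divisors of `m`
  have hpd : ∀ p, p.Prime → p ∣ m → p = 2 ∨ p ≤ v ∨ p ∈ S := by
    intro p hp hpm
    rw [hm, hu] at hpm
    rcases (Nat.Prime.dvd_mul hp).mp hpm with h1 | h1
    · left
      exact (Nat.prime_dvd_prime_iff_eq hp Nat.prime_two).mp (hp.dvd_of_dvd_pow h1)
    rcases (Nat.Prime.dvd_mul hp).mp h1 with h2 | h2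
    · right; left
      have h3 := hp.dvd_of_dvd_pow h2
      unfold primorial at h3
      obtain ⟨x, hx, hx2⟩ := (Prime.dvd_finsetProd_iff (Nat.prime_iff.mp hp) _).mp h3
      rw [Finset.mem_filter, Finset.mem_range] at hx
      have := (Nat.prime_dvd_prime_iff_eq hp hx.2).mp hx2
      omega
    · right; right
      obtain ⟨x, hx, hx2⟩ := (Prime.dvd_finsetProd_iff (Nat.prime_iff.mp hp) _).mp h2
      have := (Nat.prime_dvd_prime_iff_eq hp (hT x (hS hx)).1).mp hx2
      rw [this]; exact hx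
  have hprm : primorial v ^ a ∣ m := by
    rw [hm, hu]
    exact Dvd.dvd.mul_left (dvd_mul_right _ _) _
  have hsub1 : ∀ p, p.Prime → p ∣ m → p - 1 ∣ m := by
    intro p hp hpm
    rcases hpd p hp hpm with h1 | h1 | h1
    · rw [h1]; exact one_dvd _
    · have h2 := hp.two_le
      refine (dvd_primorial_pow (v := v) (z := z) (by omega) (by omega) ha ?_).trans hprm
      intro l _ hl
      have := Nat.le_of_dvd (by omega) hl
      omega
    · obtain ⟨h2, h3, h4, h5⟩ := hT p (hS h1)
      refine (dvd_primorial_pow ?_ ?_ ha h5).trans hprm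
      · have := hp.two_le; omega
      · omega
  have hg : Good m := good_of (by omega) hsub1
  set M := 2 ^ (m + 2) / m with hM
  set c := 2 ^ (m + 2) % m with hc
  have hMc : 2 ^ (m + 2) = m * M + c := (Nat.div_add_mod _ _).symm
  have hcm : c < m := Nat.mod_lt _ (by omega)
  set K := X / m with hK
  have hKmin : X / 2 ^ (y + 1) ≤ K := Nat.div_le_div_left hm2.le (by omega)
  have hcop : ∀ q ∈ T \ S, z1 < q ∧ Nat.Coprime m q := by
    intro q hq
    rw [Finset.mem_sdiff] at hq
    obtain ⟨h2, h3, h4, h5⟩ := hT q hq.1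
    refine ⟨h3, ?_⟩
    rw [Nat.coprime_comm, Nat.Prime.coprime_iff_not_dvd h2]
    intro h
    rcases hpd q h2 h with h6 | h6 | h6
    · have : 0 < T.card := Finset.card_pos.mpr ⟨q, hq.1⟩
      omega
    · omega
    · exact hq.2 h6
  obtain ⟨I, hI, hIc⟩ := class_count (M := M) (m := m) (c := c) (K := K) (s := L) (z1 := z1)
    (T := T) (S := S) hm7 hg (by omega) hMc hcm
    ((Nat.div_le_self X m).trans hXL) (hy.trans hm1) (hK0 K (by omega)) hcop hT1 (by omega)
  refine ⟨I.image (fun i => c + m * i), ?_, ?_⟩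
  · intro k hk
    obtain ⟨i, hi, rfl⟩ := Finset.mem_image.mp hk
    obtain ⟨hiK, hval, hqq⟩ := hI i hi
    refine ⟨?_, hval, ?_⟩
    · calc c + m * i < m + m * i := by omega
        _ = m * (i + 1) := by ring
        _ ≤ m * K := Nat.mul_le_mul_left _ hiK
        _ ≤ X := Nat.mul_div_le X m
    · intro q hq
      constructor
      · intro h
        by_contra hqS
        exact hqq q (Finset.mem_sdiff.mpr ⟨hq, hqS⟩) h
      · intro hqS
        have hqp := (hT q hq).1
        have hqm : q ∣ m := by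
          rw [hm, hu]
          exact Dvd.dvd.mul_left (Dvd.dvd.mul_left (Finset.dvd_prod_of_mem (fun q => q) hqS) _) _
        have hq2 : q ≠ 2 := by
          have h1 : 0 < T.card := Finset.card_pos.mpr ⟨q, hq⟩
          have h2 := (hT q hq).2.1
          omega
        have hc2 : Nat.Coprime 2 q := by
          rw [Nat.coprime_primes Nat.prime_two hqp]
          exact fun h => hq2 h.symm
        obtain ⟨t, ht⟩ := hsub1 q hqp hqm
        have h3 : 2 ^ m ≡ 1 [MOD q] := by
          have h4 := (Nat.ModEq.pow_totient hc2).pow t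
          rw [Nat.totient_prime hqp, ← pow_mul, ← ht, one_pow] at h4
          exact h4
        have h5 : 2 ^ (m + 2) ≡ 4 [MOD q] := by
          have := h3.mul_right 4
          rw [pow_add]
          simpa using this
        have h6 : ∀ x, m * x ≡ 0 [MOD q] := fun x =>
          (Nat.modEq_zero_iff_dvd).mpr (hqm.mul_right x)
        have h7 : m * M + c ≡ 0 + c [MOD q] := (h6 M).add_right c
        have h8 : c + m * i ≡ c + 0 [MOD q] := (h6 i).add_left c
        rw [← hMc, zero_add] at h7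
        rw [add_zero] at h8
        exact h8.trans (h7.symm.trans h5)
  · have hcard : (I.image (fun i => c + m * i)).card = I.card := by
      apply Finset.card_image_of_injective
      intro i i' h
      have h' : m * i = m * i' := by simpa using h
      exact Nat.eq_of_mul_eq_mul_left (by omega) h'
    rw [hcard]
    exact hKmin.trans hIc

/-- The lower bound for the number of values below `X`. -/
theorem count_lower {T : Finset ℕ} {v a z z1 N y L X K0 : ℕ}
    (hT : ∀ q ∈ T, q.Prime ∧ z1 < q ∧ q ≤ z ∧ ∀ l : ℕ, l.Prime → l ∣ q - 1 → l ≤ v)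
    (hv : v ≤ z1) (hvz : v ≤ z) (ha : Nat.log 2 z ≤ a) (hT1 : 8 * T.card ≤ z1)
    (hN : primorial v ^ a * z ^ N ≤ 2 ^ y) (hy : 24 * L ≤ 2 ^ y) (hXL : X ≤ 2 ^ L)
    (hy3 : 3 ≤ y) (hK1 : 2 ^ (y + 1) ≤ X / 2 ^ (y + 1)) (hT2 : 8 * T.card ≤ X / 2 ^ (y + 1))
    (hK3 : K0 ≤ X / 2 ^ (y + 1)) (hK0 : ∀ K, K0 ≤ K → 24 * (primes K).card ≤ K) :
    (T.card.choose N) * (X / 2 ^ (y + 1)) ≤ 2 * (V X).card := by
  classical
  have key : ∀ S ∈ T.powersetCard N, ∃ A : Finset ℕ,
      (∀ k ∈ A, k < X ∧ Val k ∧ ∀ q ∈ T, (k ≡ 4 [MOD q] ↔ q ∈ S)) ∧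
      X / 2 ^ (y + 1) ≤ 2 * A.card := by
    intro S hS
    rw [Finset.mem_powersetCard] at hS
    exact class_exists hT hv hvz ha hT1 hS.1 hS.2 hN hy hXL hy3 hK1 hT2 hK3 hK0
  choose! A hA1 hA2 using key
  have hdisj : ∀ S ∈ T.powersetCard N, ∀ S' ∈ T.powersetCard N, S ≠ S' →
      Disjoint (A S) (A S') := by
    intro S hS S' hS' hne
    rw [Finset.disjoint_left]
    intro k hk hk'
    apply hne
    obtain ⟨_, _, h1⟩ := hA1 S hS k hk
    obtain ⟨_, _, h2⟩ := hA1 S' hS' k hk'
    rw [Finset.mem_powersetCard] at hS hS'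
    ext q
    constructor
    · intro hq
      exact (h2 q (hS.1 hq)).mp ((h1 q (hS.1 hq)).mpr hq)
    · intro hq
      exact (h1 q (hS'.1 hq)).mp ((h2 q (hS'.1 hq)).mpr hq)
  have hsub : (T.powersetCard N).biUnion A ⊆ V X := by
    intro k hk
    obtain ⟨S, hS, hkS⟩ := Finset.mem_biUnion.mp hk
    obtain ⟨h1, h2, _⟩ := hA1 S hS k hkS
    rw [V, Finset.mem_filter, Finset.mem_range]
    exact ⟨h1, h2⟩
  calc (T.card.choose N) * (X / 2 ^ (y + 1))
      = ∑ _S ∈ T.powersetCard N, X / 2 ^ (y + 1) := by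
        rw [Finset.sum_const, Finset.card_powersetCard, smul_eq_mul]
    _ ≤ ∑ S ∈ T.powersetCard N, 2 * (A S).card := Finset.sum_le_sum hA2
    _ = 2 * ((T.powersetCard N).biUnion A).card := by
        rw [← Finset.mul_sum, Finset.card_biUnion hdisj]
    _ ≤ 2 * (V X).card := Nat.mul_le_mul_left _ (Finset.card_le_card hsub)

end Pool.Agent.Lib.MP_3e329f_nt
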