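import Pool.Agent.Lib.MP_3e329f_nt.Rich

set_option autoImplicit false

/-!
Combinatorial part for short intervals, with several `n` for each `k` and a bound for `n`.
-/

namespace Pool.Agent.Lib.MP_3e329f_nt.Short

open Pool.Agent.Lib.MP_3e329f_nt (primes dvd_primorial_pow Good pow_step good_of count_mod)
open Pool.Agent.Lib.MP_3e329f_nt.Many (Rich value_eq)

open Classical in
/-- The integers `X ≤ k < X + H` which are values for `N` integers `n ≤ B`. -/
noncomputable def V (N B X H : ℕ) : Finset ℕ := (Finset.Ico X (X + H)).filter (Rich N B)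

/-- Few of the numbers `M, M - 1, …, M - H + 1` have all prime factors `≤ K`. -/
lemma smooth_count {M H K : ℕ} (hH : H < M) (hHK : H ≤ K) {B : Finset ℕ}
    (hB : B ⊆ Finset.range H) (hsm : ∀ i ∈ B, ∀ p, p.Prime → p ∣ M - i → p ≤ K) :
    (M - H) ^ B.card ≤ H.factorial * M ^ (primes K).card := by
  set R := ∏ i ∈ B, (M - i) with hR
  have hpos : ∀ i ∈ B, M - i ≠ 0 := by
    intro i hi
    have := Finset.mem_range.mp (hB hi)
    omega
  have hR0 : R ≠ 0 := Finset.prod_ne_zero_iff.mpr hpos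
  have h1 : (M - H) ^ B.card ≤ R := by
    rw [hR, ← Finset.prod_const]
    apply Finset.prod_le_prod'
    intro i hi
    have := Finset.mem_range.mp (hB hi)
    omega
  have hC : (H.factorial * M.choose H) ≠ 0 :=
    mul_ne_zero (Nat.factorial_ne_zero H) (Nat.choose_pos hH.le).ne'
  have hdvd : R ∣ H.factorial * M.choose H := by
    rw [← Nat.descFactorial_eq_factorial_mul_choose, Nat.descFactorial_eq_prod_range]
    exact Finset.prod_dvd_prod_of_subset _ _ _ hB
  have hsub : R.primeFactors ⊆ primes K := by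
    intro p hp
    have hpp := Nat.prime_of_mem_primeFactors hp
    have hpR := Nat.dvd_of_mem_primeFactors hp
    rw [hR] at hpR
    obtain ⟨i, hi, hpi⟩ := (Prime.dvd_finsetProd_iff (Nat.prime_iff.mp hpp) _).mp hpR
    rw [primes, Finset.mem_filter, Finset.mem_range]
    exact ⟨by have := hsm i hi p hpp hpi; omega, hpp⟩
  have hfac : ∏ p ∈ primes K, p ^ H.factorial.factorization p = H.factorial := by
    have h2 := Nat.prod_factorization_pow_eq_self (Nat.factorial_ne_zero H)
    rw [Finsupp.prod_of_support_subset _ (s := primes K)] at h2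
    · exact h2
    · intro p hp
      have hpp := Nat.prime_of_mem_primeFactors hp
      have hpK := Nat.dvd_of_mem_primeFactors hp
      rw [primes, Finset.mem_filter, Finset.mem_range]
      exact ⟨by have := (hpp.dvd_factorial).mp hpK; omega, hpp⟩
    · intro i _
      exact pow_zero i
  calc (M - H) ^ B.card ≤ R := h1
    _ = ∏ p ∈ R.primeFactors, p ^ R.factorization p :=
        (Nat.prod_factorization_pow_eq_self hR0).symm
    _ ≤ ∏ p ∈ R.primeFactors, p ^ (H.factorial * M.choose H).factorization p := by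
        apply Finset.prod_le_prod'
        intro p hp
        exact Nat.pow_le_pow_right (Nat.prime_of_mem_primeFactors hp).pos
          ((Nat.factorization_le_iff_dvd hR0 hC).mpr hdvd p)
    _ ≤ ∏ p ∈ primes K, p ^ (H.factorial * M.choose H).factorization p := by
        apply Finset.prod_le_prod_of_subset_of_one_le' hsub
        intro p hp _
        rw [primes, Finset.mem_filter] at hp
        exact Nat.one_le_pow _ _ hp.2.pos
    _ = ∏ p ∈ primes K, (p ^ H.factorial.factorization p * p ^ (M.choose H).factorization p) := by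
        apply Finset.prod_congr rfl
        intro p _
        rw [Nat.factorization_mul (Nat.factorial_ne_zero H) (Nat.choose_pos hH.le).ne',
          Finsupp.add_apply, pow_add]
    _ = H.factorial * ∏ p ∈ primes K, p ^ (M.choose H).factorization p := by
        rw [Finset.prod_mul_distrib, hfac]
    _ ≤ H.factorial * M ^ (primes K).card := by
        apply Nat.mul_le_mul_left
        rw [← Finset.prod_const]
        apply Finset.prod_le_prod'
        intro p _
        exact Nat.pow_factorization_choose_le (by omega)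

/-- Bound for the number of bad `i`. -/
lemma bad_count {M m H K s D : ℕ} {B : Finset ℕ} (hm : 7 ≤ m) (hM : M ≤ 2 ^ (m + 2))
    (hM2 : 2 ^ (m / 2 + 1) ≤ M) (hHs : H ≤ 2 ^ s) (hHK : H ≤ K) (hs : D * s ≤ m)
    (hs2 : s ≤ m / 2) (hπ : D * (primes K).card ≤ H) (hB : B ⊆ Finset.range H)
    (hsm : ∀ i ∈ B, ∀ p, p.Prime → p ∣ M - i → p ≤ K) : D * B.card ≤ 6 * H := by
  set h := m / 2 with hh
  have h1 : 2 ^ s ≤ 2 ^ h := Nat.pow_le_pow_right (by norm_num) hs2
  have h2 : 2 ^ (h + 1) = 2 * 2 ^ h := by ring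
  have h0 : 0 < 2 ^ h := by positivity
  have hK : H < M := by omega
  have h3 := smooth_count hK hHK hB hsm
  have h4 : (2 ^ h) ^ B.card ≤ (M - H) ^ B.card := Nat.pow_le_pow_left (by omega) _
  have h5 : H.factorial ≤ (2 ^ s) ^ H :=
    (Nat.factorial_le_pow H).trans (Nat.pow_le_pow_left hHs H)
  have h6 : M ^ (primes K).card ≤ (2 ^ (m + 2)) ^ (primes K).card := Nat.pow_le_pow_left hM _
  have h7 : 2 ^ (h * B.card) ≤ 2 ^ (s * H + (m + 2) * (primes K).card) := by
    calc 2 ^ (h * B.card) = (2 ^ h) ^ B.card := by rw [← pow_mul]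
      _ ≤ H.factorial * M ^ (primes K).card := h4.trans h3
      _ ≤ (2 ^ s) ^ H * (2 ^ (m + 2)) ^ (primes K).card := Nat.mul_le_mul h5 h6
      _ = 2 ^ (s * H + (m + 2) * (primes K).card) := by rw [← pow_mul, ← pow_mul, ← pow_add]
  have h8 := (Nat.pow_le_pow_iff_right (by norm_num : 1 < 2)).mp h7
  have h9 : m + 2 ≤ 3 * h := by omega
  have h10 : m ≤ 3 * h := by omega
  have h11 : h * (D * B.card) ≤ h * (6 * H) := by
    calc h * (D * B.card) = D * (h * B.card) := by ring
      _ ≤ D * (s * H + (m + 2) * (primes K).card) := Nat.mul_le_mul_left _ h8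
      _ = (D * s) * H + (m + 2) * (D * (primes K).card) := by ring
      _ ≤ (3 * h) * H + (3 * h) * H :=
          Nat.add_le_add (Nat.mul_le_mul_right _ (hs.trans h10)) (Nat.mul_le_mul h9 hπ)
      _ = h * (6 * H) := by ring
  exact Nat.le_of_mul_le_mul_left h11 (by omega)

open Classical in
/-- For one modulus `m0`, few elements `c + m t` of the class modulo a multiple `m` of `m0` are such
that `2^(m0+2) - (c + m t)` has only prime factors `≤ R K2`. -/
lemma bad_one {m0 m R c K K2 s D : ℕ} (hm0 : 16 ≤ m0) (hm : m = R * m0) (hR : 1 ≤ R)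
    (hcm : c ≡ 2 ^ (m0 + 2) [MOD m0]) (hKK : K ≤ K2) (hcK : c + m * K ≤ m * K2)
    (hKs : R * K2 ≤ 2 ^ s) (hD : 2 ≤ D) (hs : D * s ≤ m0)
    (hπ : D * (primes (R * K2)).card ≤ R * K) :
    D * ((Finset.range K).filter (fun t => ∀ p, p.Prime → p ∣ 2 ^ (m0 + 2) - (c + m * t) →
      p ≤ R * K2)).card ≤ 6 * (R * K) := by
  classical
  set B := (Finset.range K).filter (fun t => ∀ p, p.Prime → p ∣ 2 ^ (m0 + 2) - (c + m * t) →
      p ≤ R * K2) with hB
  have hs2 : s ≤ m0 / 2 := by
    have h1 : 2 * s ≤ D * s := Nat.mul_le_mul_right _ hD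
    omega
  set M := 2 ^ (m0 + 2) / m0 with hM
  set c0 := 2 ^ (m0 + 2) % m0 with hc0
  have hMc : 2 ^ (m0 + 2) = m0 * M + c0 := (Nat.div_add_mod _ _).symm
  have hc0m : c0 < m0 := Nat.mod_lt _ (by omega)
  have hM1 : M ≤ 2 ^ (m0 + 2) := by
    calc M ≤ m0 * M := Nat.le_mul_of_pos_left M (by omega)
      _ ≤ 2 ^ (m0 + 2) := by omega
  set h := m0 / 2 with hh
  have hM2 : 2 ^ (h + 2) ≤ M := by
    by_contra hcon
    push Not at hcon
    have h2 : ∀ x : ℕ, 8 ≤ x → 2 * x + 2 ≤ 2 ^ (x - 2) := by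
      intro x hx
      induction x, hx using Nat.le_induction with
      | base => norm_num
      | succ n hn ih =>
        have h3 : n + 1 - 2 = (n - 2) + 1 := by omega
        rw [h3, pow_succ]
        omega
    have h1 : m0 < 2 ^ (h - 2) := by
      have := h2 h (by omega)
      omega
    have h3 : m0 * M + c0 < 2 ^ (h - 2) * 2 ^ (h + 2) := by
      calc m0 * M + c0 < m0 * M + m0 := by omega
        _ = m0 * (M + 1) := by ring
        _ ≤ 2 ^ (h - 2) * 2 ^ (h + 2) := Nat.mul_le_mul h1.le hcon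
    rw [← hMc, ← pow_add] at h3
    have := (Nat.pow_lt_pow_iff_right (by norm_num : 1 < 2)).mp h3
    omega
  set s0 := c / m0 with hs0
  have hcdec : c = m0 * s0 + c0 := by
    have h1 : c % m0 = c0 := hcm
    have := (Nat.div_add_mod c m0).symm
    rw [h1] at this
    exact this
  -- `s0 + R K ≤ R K2`
  have hs0K : s0 + R * K ≤ R * K2 := by
    have h1 : m0 * (s0 + R * K) ≤ m0 * (R * K2) := by
      calc m0 * (s0 + R * K) = m0 * s0 + m * K := by rw [hm]; ring
        _ ≤ c + m * K := by omega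
        _ ≤ m * K2 := hcK
        _ = m0 * (R * K2) := by rw [hm]; ring
    exact Nat.le_of_mul_le_mul_left h1 (by omega)
  have h2s : 2 ^ s ≤ 2 ^ h := Nat.pow_le_pow_right (by norm_num) hs2
  have h2h1 : 2 ^ (h + 1) = 2 * 2 ^ h := by ring
  have h2h2 : 2 ^ (h + 2) = 4 * 2 ^ h := by ring
  have h0 : 0 < 2 ^ h := by positivity
  set M' := M - s0 with hM'
  have hM'2 : 2 ^ (h + 1) ≤ M' := by omega
  have hRK : R * K ≤ R * K2 := Nat.mul_le_mul_left _ hKK
  have hcard : (B.image (fun t => R * t)).card = B.card := by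
    apply Finset.card_image_of_injective
    intro t t' h
    have h' : R * t = R * t' := h
    exact Nat.eq_of_mul_eq_mul_left (by omega) h'
  have hmain := bad_count (M := M') (m := m0) (H := R * K) (K := R * K2) (s := s) (D := D)
    (B := B.image (fun t => R * t)) (by omega) ((Nat.sub_le _ _).trans hM1) hM'2 (hRK.trans hKs) hRK hs hs2 hπ ?_ ?_
  · rw [hcard] at hmain
    exact hmain
  · intro x hx
    obtain ⟨t, ht, rfl⟩ := Finset.mem_image.mp hx
    rw [hB, Finset.mem_filter, Finset.mem_range] at ht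
    rw [Finset.mem_range]
    exact Nat.mul_lt_mul_of_pos_left ht.1 (by omega)
  · intro x hx p hp hpd
    obtain ⟨t, ht, rfl⟩ := Finset.mem_image.mp hx
    rw [hB, Finset.mem_filter, Finset.mem_range] at ht
    apply ht.2 p hp
    have h2 : 2 ^ (m0 + 2) - (c + m * t) = m0 * (M' - R * t) := by
      have h3 : m * t = m0 * (R * t) := by rw [hm]; ring
      rw [h3, hMc, hcdec, hM', Nat.mul_sub, Nat.mul_sub]
      omega
    rw [h2]
    exact hpd.mul_left _

/-- The class modulo `2^N w`. -/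
lemma class_count {w N K K2 s z1 c D : ℕ} {T S : Finset ℕ} (hw : 16 ≤ w)
    (hg : ∀ i < N, Good (2 ^ i * w)) (hmK : 2 ^ N * w ≤ K2)
    (hcmod : c ≡ 2 ^ (2 ^ N * w + 2) [MOD 2 ^ N * w]) (hKK : K ≤ K2)
    (hcK : c + 2 ^ N * w * K ≤ 2 ^ N * w * K2) (hKs : 2 ^ N * K2 ≤ 2 ^ s) (hD : D = 48 * 2 ^ N)
    (hs : D * s ≤ w) (hπ : ∀ i < N, D * (primes (2 ^ (N - i) * K2)).card ≤ 2 ^ (N - i) * K)
    (hT : ∀ q ∈ T \ S, z1 < q ∧ Nat.Coprime (2 ^ N * w) q) (hT1 : 8 * T.card ≤ z1)
    (hT2 : 8 * T.card ≤ K) :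
    ∃ I : Finset ℕ, (∀ t ∈ I, t < K ∧
      Rich N (2 ^ N * w * 2 ^ (2 ^ N * w + 2)) (c + 2 ^ N * w * t) ∧
      ∀ q ∈ T \ S, ¬ c + 2 ^ N * w * t ≡ 4 [MOD q]) ∧ K ≤ 2 * I.card := by
  classical
  set m := 2 ^ N * w with hm
  have hmpos : 0 < m := Nat.mul_pos (by positivity) (by omega)
  have hmi : ∀ i < N, m = 2 ^ (N - i) * (2 ^ i * w) := by
    intro i hi
    rw [← mul_assoc, ← pow_add, show N - i + i = N by omega]
  have hmodi : ∀ i < N, c ≡ 2 ^ (2 ^ i * w + 2) [MOD 2 ^ i * w] := by
    intro i hi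
    have h1 : c ≡ 2 ^ (m + 2) [MOD 2 ^ i * w] :=
      hcmod.of_dvd (by rw [hmi i hi]; exact dvd_mul_left _ _)
    refine h1.trans ?_
    have h2 : 2 ^ (m + 2) = 2 ^ ((2 ^ i * w) * (2 ^ (N - i) - 1)) * 2 ^ (2 ^ i * w + 2) := by
      rw [← pow_add]
      congr 1
      obtain ⟨s, hs⟩ : ∃ s, 2 ^ (N - i) = s + 1 :=
        ⟨2 ^ (N - i) - 1, by have := Nat.one_le_two_pow (n := N - i); omega⟩
      rw [hmi i hi, hs, Nat.add_sub_cancel]
      ring
    rw [h2]
    exact pow_step (hg i hi) _
  have hwi : ∀ i, w ≤ 2 ^ i * w := fun i => Nat.le_mul_of_pos_left w (by positivity)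
  have hK16 : 16 ≤ K2 := (hw.trans (hwi N)).trans hmK
  have hD2 : 2 ≤ D := by
    have : 0 < 2 ^ N := by positivity
    omega
  set B : ℕ → Finset ℕ := fun i => (Finset.range K).filter (fun t => ∀ p, p.Prime →
      p ∣ 2 ^ (2 ^ i * w + 2) - (c + m * t) → p ≤ 2 ^ (N - i) * K2) with hB
  have hBc : ∀ i ∈ Finset.range N, D * (B i).card ≤ 6 * (2 ^ (N - i) * K) := by
    intro i hi
    rw [Finset.mem_range] at hi
    refine bad_one (m0 := 2 ^ i * w) (m := m) (R := 2 ^ (N - i)) (s := s) (by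
      have := hwi i; omega) (hmi i hi) Nat.one_le_two_pow (hmodi i hi) hKK hcK ?_ hD2 ?_ (hπ i hi)
    · refine le_trans (Nat.mul_le_mul_right _ (Nat.pow_le_pow_right (by norm_num) ?_)) hKs
      omega
    · exact hs.trans (hwi i)
  have hsum : ∑ i ∈ Finset.range N, 2 ^ (N - i) ≤ 2 * 2 ^ N := by
    have h1 : ∀ n : ℕ, ∑ i ∈ Finset.range n, 2 ^ (n - i) + 2 = 2 * 2 ^ n := by
      intro n
      induction n with
      | zero => simp
      | succ n ih =>
        rw [Finset.sum_range_succ', Nat.sub_zero, pow_succ]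
        have h2 : ∑ i ∈ Finset.range n, 2 ^ (n + 1 - (i + 1)) =
            ∑ i ∈ Finset.range n, 2 ^ (n - i) := by
          apply Finset.sum_congr rfl
          intro i _
          congr 1
          omega
        rw [h2]
        omega
    have := h1 N
    omega
  set BB := (Finset.range N).biUnion B with hBB
  have hBBc : 4 * BB.card ≤ K := by
    have h1 : D * BB.card ≤ 6 * (2 * 2 ^ N * K) := by
      calc D * BB.card ≤ D * ∑ i ∈ Finset.range N, (B i).card :=
            Nat.mul_le_mul_left _ Finset.card_biUnion_le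
        _ = ∑ i ∈ Finset.range N, D * (B i).card := by rw [Finset.mul_sum]
        _ ≤ ∑ i ∈ Finset.range N, 6 * (2 ^ (N - i) * K) := Finset.sum_le_sum hBc
        _ = 6 * ((∑ i ∈ Finset.range N, 2 ^ (N - i)) * K) := by
            rw [← Finset.mul_sum, Finset.sum_mul]
        _ ≤ 6 * (2 * 2 ^ N * K) := by gcongr
    have h2 : (12 * 2 ^ N) * (4 * BB.card) ≤ (12 * 2 ^ N) * K := by
      calc (12 * 2 ^ N) * (4 * BB.card) = D * BB.card := by rw [hD]; ring
        _ ≤ 6 * (2 * 2 ^ N * K) := h1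
        _ = (12 * 2 ^ N) * K := by ring
    exact Nat.le_of_mul_le_mul_left h2 (by positivity)
  set E := (T \ S).biUnion (fun q => (Finset.range K).filter (fun i => c + m * i ≡ 4 [MOD q]))
    with hE
  have hEc : E.card ≤ T.card * (K / z1) + T.card := by
    calc E.card ≤ ∑ q ∈ T \ S,
          ((Finset.range K).filter (fun i => c + m * i ≡ 4 [MOD q])).card :=
          Finset.card_biUnion_le
      _ ≤ ∑ q ∈ T \ S, (K / z1 + 1) := by
          apply Finset.sum_le_sum
          intro q hq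
          obtain ⟨h1, h2⟩ := hT q hq
          refine (count_mod h2).trans ?_
          rcases Nat.eq_zero_or_pos z1 with h0 | h0
          · have hTe : T.card = 0 := by omega
            have : q ∈ T := (Finset.mem_sdiff.mp hq).1
            rw [Finset.card_eq_zero] at hTe
            rw [hTe] at this
            simp at this
          · have := Nat.div_le_div_left h1.le h0 (a := K)
            omega
      _ = (T \ S).card * (K / z1 + 1) := by rw [Finset.sum_const, smul_eq_mul]
      _ ≤ T.card * (K / z1 + 1) := Nat.mul_le_mul_right _ (Finset.card_le_card Finset.sdiff_subset)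
      _ = T.card * (K / z1) + T.card := by ring
  have hE4 : 4 * E.card ≤ K := by
    have h1 : 8 * (T.card * (K / z1)) ≤ K := by
      calc 8 * (T.card * (K / z1)) = (8 * T.card) * (K / z1) := by ring
        _ ≤ z1 * (K / z1) := Nat.mul_le_mul_right _ hT1
        _ ≤ K := Nat.mul_div_le K z1
    omega
  refine ⟨Finset.range K \ (BB ∪ E), ?_, ?_⟩
  · intro t ht
    rw [Finset.mem_sdiff, Finset.mem_union, not_or, Finset.mem_range] at ht
    obtain ⟨hlt, htB, htE⟩ := ht
    have hkt : c + m * t < m * K2 := by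
      calc c + m * t < c + m * t + m := by omega
        _ = c + m * (t + 1) := by ring
        _ ≤ c + m * K := Nat.add_le_add_left (Nat.mul_le_mul_left _ hlt) _
        _ ≤ m * K2 := hcK
    -- the primes
    have hex : ∀ i < N, ∃ p, p.Prime ∧ 2 ^ (N - i) * K2 < p ∧
        p ∣ 2 ^ (2 ^ i * w + 2) - (c + m * t) := by
      intro i hi
      by_contra hcon
      push Not at hcon
      apply htB
      rw [hBB, Finset.mem_biUnion]
      refine ⟨i, Finset.mem_range.mpr hi, ?_⟩
      rw [hB, Finset.mem_filter]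
      refine ⟨Finset.mem_range.mpr hlt, fun p hp hpd => ?_⟩
      by_contra h
      push Not at h
      exact hcon p hp h hpd
    choose! p hp hpK hpd using hex
    have hle : ∀ i < N, c + m * t < 2 ^ (2 ^ i * w + 2) := by
      intro i hi
      have h1 : m * K2 ≤ 2 ^ (2 * s) := by
        calc m * K2 ≤ K2 * K2 := Nat.mul_le_mul_right _ hmK
          _ ≤ (2 ^ N * K2) * (2 ^ N * K2) := by
              have h2 : K2 ≤ 2 ^ N * K2 := Nat.le_mul_of_pos_left K2 (by positivity)
              exact Nat.mul_le_mul h2 h2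
          _ ≤ 2 ^ s * 2 ^ s := Nat.mul_le_mul hKs hKs
          _ = 2 ^ (2 * s) := by rw [← pow_add]; congr 1; ring
      have h2 : 2 ^ (2 * s) ≤ 2 ^ (2 ^ i * w + 2) := by
        apply Nat.pow_le_pow_right (by norm_num)
        have h3 : 2 * s ≤ D * s := Nat.mul_le_mul_right _ hD2
        have := hwi i
        omega
      omega
    have hmK' : ∀ i < N, 2 ^ i * w ≤ K2 := by
      intro i hi
      have h1 : 2 ^ i * w ≤ 2 ^ N * w :=
        Nat.mul_le_mul_right _ (Nat.pow_le_pow_right (by norm_num) hi.le)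
      omega
    have hpK' : ∀ i < N, K2 < p i := by
      intro i hi
      have h1 : K2 ≤ 2 ^ (N - i) * K2 := Nat.le_mul_of_pos_left K2 (by positivity)
      have := hpK i hi
      omega
    have hsol : ∀ i < N, 1 ≤ 2 ^ i * w * p i ∧ 2 ^ i * w * p i ≤ m * 2 ^ (m + 2) ∧
        2 ^ (2 ^ i * w * p i + 2) % (2 ^ i * w * p i) = c + m * t := by
      intro i hi
      have hpi := hpK' i hi
      have hcop : Nat.Coprime (2 ^ i * w) (p i) := by
        rw [Nat.coprime_comm, Nat.Prime.coprime_iff_not_dvd (hp i hi)]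
        intro h
        have h1 := Nat.le_of_dvd (Nat.mul_pos (by positivity) (by omega)) h
        have := hmK' i hi
        omega
      have him : 2 ^ i * w ≤ m := by
        rw [hm]
        exact Nat.mul_le_mul_right _ (Nat.pow_le_pow_right (by norm_num) hi.le)
      refine ⟨Nat.mul_pos (Nat.mul_pos (by positivity) (by omega)) (hp i hi).pos, ?_, ?_⟩
      · apply Nat.mul_le_mul him
        have h1 : p i ≤ 2 ^ (2 ^ i * w + 2) - (c + m * t) :=
          Nat.le_of_dvd (by have := hle i hi; omega) (hpd i hi)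
        have h2 : 2 ^ (2 ^ i * w + 2) ≤ 2 ^ (m + 2) :=
          Nat.pow_le_pow_right (by norm_num) (by omega)
        omega
      · refine value_eq (hg i hi) (hp i hi) (by omega) hcop ?_ ?_ ?_
        · have h2 : m * t ≡ 0 [MOD 2 ^ i * w] := by
            apply (Nat.modEq_zero_iff_dvd).mpr
            rw [hmi i hi]
            exact Dvd.dvd.mul_right (dvd_mul_left _ _) _
          have h3 : c + m * t ≡ c + 0 [MOD 2 ^ i * w] := h2.add_left c
          exact h3.trans (hmodi i hi)
        · exact (Nat.modEq_iff_dvd' (hle i hi).le).mpr (hpd i hi)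
        · calc c + m * t < m * K2 := hkt
            _ = 2 ^ i * w * (2 ^ (N - i) * K2) := by rw [hmi i hi]; ring
            _ ≤ 2 ^ i * w * p i := Nat.mul_le_mul_left _ (hpK i hi).le
    refine ⟨hlt, ?_, ?_⟩
    · refine ⟨(Finset.range N).image (fun i => 2 ^ i * w * p i), ?_, ?_⟩
      · rw [Finset.card_image_of_injOn, Finset.card_range]
        have key : ∀ i i', i < N → i' < N → i < i' →
            2 ^ i * w * p i ≠ 2 ^ i' * w * p i' := by
          intro i i' hi hi' hlt' h
          have h1 : 2 ^ i' = 2 ^ i * (2 * 2 ^ (i' - i - 1)) := by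
            rw [← pow_succ', ← pow_add]
            congr 1
            omega
          rw [h1] at h
          have h2 : 2 ^ i * w * p i = 2 ^ i * w * (2 * (2 ^ (i' - i - 1) * p i')) := by
            rw [h]; ring
          have h3 := Nat.eq_of_mul_eq_mul_left (Nat.mul_pos (by positivity) (by omega)) h2
          have h4 : 2 ∣ p i := ⟨_, h3⟩
          have h5 := (Nat.prime_dvd_prime_iff_eq Nat.prime_two (hp i hi)).mp h4
          have := hpK' i hi
          omega
        intro i hi i' hi' h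
        rw [Finset.mem_coe, Finset.mem_range] at hi hi'
        have h' : 2 ^ i * w * p i = 2 ^ i' * w * p i' := h
        rcases lt_trichotomy i i' with h1 | h1 | h1
        · exact absurd h' (key i i' hi hi' h1)
        · exact h1
        · exact absurd h'.symm (key i' i hi' hi h1)
      · intro n hn
        obtain ⟨i, hi, rfl⟩ := Finset.mem_image.mp hn
        rw [Finset.mem_range] at hi
        exact hsol i hi
    · intro q hq h
      apply htE
      rw [hE, Finset.mem_biUnion]
      exact ⟨q, hq, Finset.mem_filter.mpr ⟨Finset.mem_range.mpr hlt, h⟩⟩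
  · have h1 : (Finset.range K).card - (BB ∪ E).card ≤ (Finset.range K \ (BB ∪ E)).card :=
      Finset.le_card_sdiff (BB ∪ E) (Finset.range K)
    rw [Finset.card_range] at h1
    have h2 : (BB ∪ E).card ≤ BB.card + E.card := Finset.card_union_le BB E
    omega

/-- One class. -/
lemma class_exists {T S : Finset ℕ} {v a z z1 M y N D L X H K1 g : ℕ}
    (hT : ∀ q ∈ T, q.Prime ∧ z1 < q ∧ q ≤ z ∧ ∀ l : ℕ, l.Prime → l ∣ q - 1 → l ≤ v)
    (hv : v ≤ z1) (hvz : v ≤ z) (ha : Nat.log 2 z ≤ a) (hT1 : 8 * T.card ≤ z1)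
    (hS : S ⊆ T) (hSM : S.card = M) (hM : primorial v ^ a * z ^ M ≤ 2 ^ y)
    (hD : D = 48 * 2 ^ N) (hy : D * L ≤ 2 ^ y) (hXL : 3 * X ≤ 2 ^ L) (hHX : H ≤ X)
    (hy4 : 4 ≤ y) (hU1 : 2 ^ (y + N + 1) * (2 ^ (y + N + 1) + 1) ≤ H)
    (hU4 : 4 * 2 ^ (y + N + 1) ≤ H) (hT2 : 8 * T.card ≤ H / 2 ^ (y + N + 1) - 1)
    (hg0 : 1 ≤ g) (hK1 : K1 ≤ X / 2 ^ (y + N + 1))
    (hg1 : ∀ K, K1 ≤ K → g * (primes K).card ≤ K) (hgH : 6 * (D * X) ≤ g * H) :
    ∃ A : Finset ℕ, (∀ k ∈ A, X ≤ k ∧ k < X + H ∧
      Rich N (2 ^ (y + N + 1) * 2 ^ (2 ^ (y + N + 1) + 2)) k ∧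
      ∀ q ∈ T, (k ≡ 4 [MOD q] ↔ q ∈ S)) ∧ H / 2 ^ (y + N + 1) - 1 ≤ 2 * A.card := by
  classical
  set u := primorial v ^ a * ∏ q ∈ S, q with hu
  have hprod0 : 0 < ∏ q ∈ S, q := Finset.prod_pos fun q hq => (hT q (hS hq)).1.pos
  have hpr0 : 0 < primorial v ^ a := pow_pos (primorial_pos v) a
  have hu0 : 0 < u := Nat.mul_pos hpr0 hprod0
  have huy : u ≤ 2 ^ y := by
    refine le_trans (Nat.mul_le_mul_left _ ?_) hM
    rw [← hSM, ← Finset.prod_const]
    apply Finset.prod_le_prod'
    intro q hq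
    exact (hT q (hS hq)).2.2.1
  set l := Nat.log 2 u with hl
  have hl1 : 2 ^ l ≤ u := Nat.pow_log_le_self 2 hu0.ne'
  have hl2 : u < 2 ^ (l + 1) := Nat.lt_pow_succ_log_self (by norm_num) u
  have hly : l ≤ y := by
    have h1 : 2 ^ l ≤ 2 ^ y := hl1.trans huy
    exact (Nat.pow_le_pow_iff_right (by norm_num : 1 < 2)).mp h1
  set j := y - l with hj
  have hjl : j + l = y := by omega
  set w := 2 ^ j * u with hw
  have hw1 : 2 ^ y ≤ w := by
    rw [hw, ← hjl, pow_add]
    exact Nat.mul_le_mul_left _ hl1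
  have hw2 : w < 2 ^ (y + 1) := by
    have : y + 1 = j + (l + 1) := by omega
    rw [hw, this, pow_add]
    exact Nat.mul_lt_mul_of_pos_left hl2 (by positivity)
  have hw16 : 16 ≤ w := by
    have : 2 ^ 4 ≤ 2 ^ y := Nat.pow_le_pow_right (by norm_num) hy4
    omega
  -- prime divisors of `2^i w`
  have hpd : ∀ i p, p.Prime → p ∣ 2 ^ i * w → p = 2 ∨ p ≤ v ∨ p ∈ S := by
    intro i p hp hpm
    rcases (Nat.Prime.dvd_mul hp).mp hpm with h1 | h1
    · left
      exact (Nat.prime_dvd_prime_iff_eq hp Nat.prime_two).mp (hp.dvd_of_dvd_pow h1)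
    rw [hw, hu] at h1
    rcases (Nat.Prime.dvd_mul hp).mp h1 with h1 | h1
    · left
      exact (Nat.prime_dvd_prime_iff_eq hp Nat.prime_two).mp (hp.dvd_of_dvd_pow h1)
    rcases (Nat.Prime.dvd_mul hp).mp h1 with h2 | h2
    · right; left
      have h3 := hp.dvd_of_dvd_pow h2
      unfold primorial at h3
      obtain ⟨x, hx, hx2⟩ := (Prime.dvd_finsetProd_iff (Nat.prime_iff.mp hp) _).mp h3
      rw [Finset.mem_filter, Finset.mem_range] at hx
      have := (Nat.prime_dvd_prime_iff_eq hp hx.2).mp hx2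
      omega
    · right; right
      obtain ⟨x, hx, hx2⟩ := (Prime.dvd_finsetProd_iff (Nat.prime_iff.mp hp) _).mp h2
      have := (Nat.prime_dvd_prime_iff_eq hp (hT x (hS hx)).1).mp hx2
      rw [this]; exact hx
  have hprm : ∀ i, primorial v ^ a ∣ 2 ^ i * w := by
    intro i
    rw [hw, hu]
    exact Dvd.dvd.mul_left (Dvd.dvd.mul_left (dvd_mul_right _ _) _) _
  have hsub1 : ∀ i p, p.Prime → p ∣ 2 ^ i * w → p - 1 ∣ 2 ^ i * w := by
    intro i p hp hpm
    rcases hpd i p hp hpm with h1 | h1 | h1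
    · rw [h1]; exact one_dvd _
    · have h2 := hp.two_le
      refine (dvd_primorial_pow (v := v) (z := z) (by omega) (by omega) ha ?_).trans (hprm i)
      intro l _ hl
      have := Nat.le_of_dvd (by omega) hl
      omega
    · obtain ⟨h2, h3, h4, h5⟩ := hT p (hS h1)
      refine (dvd_primorial_pow ?_ ?_ ha h5).trans (hprm i)
      · have := hp.two_le; omega
      · omega
  have hg : ∀ i, Good (2 ^ i * w) := fun i =>
    good_of (Nat.mul_pos (by positivity) (by omega)) (hsub1 i)
  set U := 2 ^ (y + N + 1) with hU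
  set m := 2 ^ N * w with hm
  have hmpos : 0 < m := Nat.mul_pos (by positivity) (by omega)
  have hm2 : m < U := by
    have : y + N + 1 = N + (y + 1) := by omega
    rw [hm, hU, this, pow_add]
    exact Nat.mul_lt_mul_of_pos_left hw2 (by positivity)
  have hUpos : 0 < U := by omega
  have hUH : U ≤ H := by omega
  set c0 := 2 ^ (m + 2) % m with hc0
  have hc0m : c0 < m := Nat.mod_lt _ hmpos
  set c := c0 + m * (X / m + 1) with hc
  have hcmod : c ≡ 2 ^ (m + 2) [MOD m] := by
    have h1 : m * (X / m + 1) ≡ 0 [MOD m] := (Nat.modEq_zero_iff_dvd).mpr (dvd_mul_right _ _)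
    have h2 : c ≡ c0 + 0 [MOD m] := h1.add_left c0
    exact h2.trans (Nat.mod_modEq _ _)
  set K := H / m - 1 with hK
  set K2 := X / m + H / m + 1 with hK2
  have hHm : U + 1 ≤ H / m := by
    rw [Nat.le_div_iff_mul_le hmpos]
    calc (U + 1) * m ≤ (U + 1) * U := Nat.mul_le_mul_left _ hm2.le
      _ = U * (U + 1) := by ring
      _ ≤ H := hU1
  have hHUm : H / U ≤ H / m := Nat.div_le_div_left hm2.le hmpos
  have hXm1 : m * (X / m) ≤ X := Nat.mul_div_le X m
  have hXm2 : X < m * (X / m + 1) := Nat.lt_mul_div_succ X hmpos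
  have hHm1 : m * (H / m) ≤ H := Nat.mul_div_le H m
  have hHm2 : H < m * (H / m + 1) := Nat.lt_mul_div_succ H hmpos
  have hcK : c + m * K ≤ m * K2 := by
    have h1 : m * K + m = m * (H / m) := by
      have : H / m = K + 1 := by omega
      rw [this]; ring
    have h2 : m * K2 = m * (X / m + 1) + m * (H / m) := by rw [hK2]; ring
    omega
  have hKK : K ≤ K2 := by
    have h1 : 0 ≤ X / m := Nat.zero_le _
    omega
  have hKs : 2 ^ N * K2 ≤ 2 ^ L := by
    refine le_trans ?_ hXL
    calc 2 ^ N * K2 ≤ m * K2 := Nat.mul_le_mul_right _ (Nat.le_mul_of_pos_right _ (by omega))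
      _ = m * (X / m) + m * (H / m) + m := by rw [hK2]; ring
      _ ≤ 3 * X := by omega
  have hcop : ∀ q ∈ T \ S, z1 < q ∧ Nat.Coprime m q := by
    intro q hq
    rw [Finset.mem_sdiff] at hq
    obtain ⟨h2, h3, h4, h5⟩ := hT q hq.1
    refine ⟨h3, ?_⟩
    rw [Nat.coprime_comm, Nat.Prime.coprime_iff_not_dvd h2]
    intro h
    rcases hpd N q h2 h with h6 | h6 | h6
    · have : 0 < T.card := Finset.card_pos.mpr ⟨q, hq.1⟩
      omega
    · omega
    · exact hq.2 h6
  -- the primes
  have hDK : D * K2 ≤ g * K := by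
    have h1 : m * (D * K2) ≤ m * (g * K) := by
      have h2 : m * K2 ≤ 3 * X := by
        calc m * K2 = m * (X / m) + m * (H / m) + m := by rw [hK2]; ring
          _ ≤ 3 * X := by omega
      have h3 : H ≤ 2 * (m * K) := by
        have h4 : m * K + m = m * (H / m) := by
          have : H / m = K + 1 := by omega
          rw [this]; ring
        have h5 : m * (H / m + 1) = m * (H / m) + m := by ring
        omega
      have h6 : 2 * (m * (D * K2)) ≤ 2 * (m * (g * K)) := by
        calc 2 * (m * (D * K2)) = 2 * (D * (m * K2)) := by ring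
          _ ≤ 2 * (D * (3 * X)) := by gcongr
          _ = 6 * (D * X) := by ring
          _ ≤ g * H := hgH
          _ ≤ g * (2 * (m * K)) := Nat.mul_le_mul_left _ h3
          _ = 2 * (m * (g * K)) := by ring
      omega
    exact Nat.le_of_mul_le_mul_left h1 hmpos
  have hXUm : X / U ≤ X / m := Nat.div_le_div_left hm2.le hmpos
  have hπ : ∀ i < N, D * (primes (2 ^ (N - i) * K2)).card ≤ 2 ^ (N - i) * K := by
    intro i _
    set R := 2 ^ (N - i) with hR
    have hR1 : 1 ≤ R := Nat.one_le_two_pow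
    have h1 : K1 ≤ R * K2 := by
      have h2 : K2 ≤ R * K2 := Nat.le_mul_of_pos_left K2 (by omega)
      omega
    have h2 := hg1 _ h1
    have h3 : g * (D * (primes (R * K2)).card) ≤ g * (R * K) := by
      calc g * (D * (primes (R * K2)).card) = D * (g * (primes (R * K2)).card) := by ring
        _ ≤ D * (R * K2) := Nat.mul_le_mul_left _ h2
        _ = R * (D * K2) := by ring
        _ ≤ R * (g * K) := Nat.mul_le_mul_left _ hDK
        _ = g * (R * K) := by ring
    exact Nat.le_of_mul_le_mul_left h3 hg0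
  obtain ⟨I, hI, hIc⟩ := class_count (w := w) (N := N) (K := K) (K2 := K2) (s := L) (z1 := z1)
    (c := c) (D := D) (T := T) (S := S) hw16 (fun i _ => hg i) (by
      have h1 : U ≤ K2 := by omega
      omega) hcmod hKK hcK hKs hD
    (hy.trans hw1) hπ hcop hT1 (by omega)
  refine ⟨I.image (fun i => c + m * i), ?_, ?_⟩
  · intro k hk
    obtain ⟨i, hi, rfl⟩ := Finset.mem_image.mp hk
    obtain ⟨hiK, hval, hqq⟩ := hI i hi
    refine ⟨by omega, ?_,
      hval.mono (Nat.mul_le_mul hm2.le (Nat.pow_le_pow_right (by norm_num) (by omega))), ?_⟩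
    · have h1 : m * i + m ≤ m * K := by
        calc m * i + m = m * (i + 1) := by ring
          _ ≤ m * K := Nat.mul_le_mul_left _ hiK
      have h2 : m * K + m = m * (H / m) := by
        have : H / m = K + 1 := by omega
        rw [this]; ring
      have h3 : m * (X / m + 1) = m * (X / m) + m := by ring
      omega
    · intro q hq
      constructor
      · intro h
        by_contra hqS
        exact hqq q (Finset.mem_sdiff.mpr ⟨hq, hqS⟩) h
      · intro hqS
        have hqp := (hT q hq).1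
        have hqm : q ∣ m := by
          rw [hm, hw, hu]
          exact Dvd.dvd.mul_left (Dvd.dvd.mul_left (Dvd.dvd.mul_left
            (Finset.dvd_prod_of_mem (fun q => q) hqS) _) _) _
        have hq2 : q ≠ 2 := by
          have h1 : 0 < T.card := Finset.card_pos.mpr ⟨q, hq⟩
          have h2 := (hT q hq).2.1
          omega
        have hc2 : Nat.Coprime 2 q := by
          rw [Nat.coprime_primes Nat.prime_two hqp]
          exact fun h => hq2 h.symm
        obtain ⟨t, ht⟩ := hsub1 N q hqp hqm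
        have h3 : 2 ^ (m + 2) ≡ 4 [MOD q] := by
          have h4 := (Nat.ModEq.pow_totient hc2).pow t
          rw [Nat.totient_prime hqp, ← pow_mul, ← ht, one_pow] at h4
          have := h4.mul_right 4
          rw [pow_add]
          simpa using this
        have h5 : c ≡ 2 ^ (m + 2) [MOD q] := hcmod.of_dvd hqm
        have h6 : m * i ≡ 0 [MOD q] := (Nat.modEq_zero_iff_dvd).mpr (hqm.mul_right i)
        have h8 : c + m * i ≡ c + 0 [MOD q] := h6.add_left c
        rw [add_zero] at h8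
        exact h8.trans (h5.trans h3)
  · have hcard : (I.image (fun i => c + m * i)).card = I.card := by
      apply Finset.card_image_of_injective
      intro i i' h
      have h' : m * i = m * i' := by simpa using h
      exact Nat.eq_of_mul_eq_mul_left hmpos h'
    rw [hcard]
    omega

/-- The lower bound for the number of `k` in `[X, X + H)` with `N` representations. -/
theorem count_lower {T : Finset ℕ} {v a z z1 M y N D L X H K1 g : ℕ}
    (hT : ∀ q ∈ T, q.Prime ∧ z1 < q ∧ q ≤ z ∧ ∀ l : ℕ, l.Prime → l ∣ q - 1 → l ≤ v)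
    (hv : v ≤ z1) (hvz : v ≤ z) (ha : Nat.log 2 z ≤ a) (hT1 : 8 * T.card ≤ z1)
    (hM : primorial v ^ a * z ^ M ≤ 2 ^ y)
    (hD : D = 48 * 2 ^ N) (hy : D * L ≤ 2 ^ y) (hXL : 3 * X ≤ 2 ^ L) (hHX : H ≤ X)
    (hy4 : 4 ≤ y) (hU1 : 2 ^ (y + N + 1) * (2 ^ (y + N + 1) + 1) ≤ H)
    (hU4 : 4 * 2 ^ (y + N + 1) ≤ H) (hT2 : 8 * T.card ≤ H / 2 ^ (y + N + 1) - 1)
    (hg0 : 1 ≤ g) (hK1 : K1 ≤ X / 2 ^ (y + N + 1))
    (hg1 : ∀ K, K1 ≤ K → g * (primes K).card ≤ K) (hgH : 6 * (D * X) ≤ g * H) :
    (T.card.choose M) * (H / 2 ^ (y + N + 1) - 1) ≤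
      2 * (V N (2 ^ (y + N + 1) * 2 ^ (2 ^ (y + N + 1) + 2)) X H).card := by
  classical
  have key : ∀ S ∈ T.powersetCard M, ∃ A : Finset ℕ, (∀ k ∈ A, X ≤ k ∧ k < X + H ∧
      Rich N (2 ^ (y + N + 1) * 2 ^ (2 ^ (y + N + 1) + 2)) k ∧
      ∀ q ∈ T, (k ≡ 4 [MOD q] ↔ q ∈ S)) ∧ H / 2 ^ (y + N + 1) - 1 ≤ 2 * A.card := by
    intro S hS
    rw [Finset.mem_powersetCard] at hS
    exact class_exists hT hv hvz ha hT1 hS.1 hS.2 hM hD hy hXL hHX hy4 hU1 hU4 hT2 hg0 hK1 hg1 hgH
  choose! A hA1 hA2 using key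
  have hdisj : ∀ S ∈ T.powersetCard M, ∀ S' ∈ T.powersetCard M, S ≠ S' →
      Disjoint (A S) (A S') := by
    intro S hS S' hS' hne
    rw [Finset.disjoint_left]
    intro k hk hk'
    apply hne
    obtain ⟨_, _, _, h1⟩ := hA1 S hS k hk
    obtain ⟨_, _, _, h2⟩ := hA1 S' hS' k hk'
    rw [Finset.mem_powersetCard] at hS hS'
    ext q
    constructor
    · intro hq
      exact (h2 q (hS.1 hq)).mp ((h1 q (hS.1 hq)).mpr hq)
    · intro hq
      exact (h1 q (hS'.1 hq)).mp ((h2 q (hS'.1 hq)).mpr hq)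
  have hsub : (T.powersetCard M).biUnion A ⊆
      V N (2 ^ (y + N + 1) * 2 ^ (2 ^ (y + N + 1) + 2)) X H := by
    intro k hk
    obtain ⟨S, hS, hkS⟩ := Finset.mem_biUnion.mp hk
    obtain ⟨h1, h2, h3, _⟩ := hA1 S hS k hkS
    rw [V, Finset.mem_filter, Finset.mem_Ico]
    exact ⟨⟨h1, h2⟩, h3⟩
  calc (T.card.choose M) * (H / 2 ^ (y + N + 1) - 1)
      = ∑ _S ∈ T.powersetCard M, (H / 2 ^ (y + N + 1) - 1) := by
        rw [Finset.sum_const, Finset.card_powersetCard, smul_eq_mul]
    _ ≤ ∑ S ∈ T.powersetCard M, 2 * (A S).card := Finset.sum_le_sum hA2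
    _ = 2 * ((T.powersetCard M).biUnion A).card := by
        rw [← Finset.mul_sum, Finset.card_biUnion hdisj]
    _ ≤ _ := Nat.mul_le_mul_left _ (Finset.card_le_card hsub)

end Pool.Agent.Lib.MP_3e329f_nt.Short
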