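import Pool.Agent.Lib.MP_3e329f_nt.Classes

set_option autoImplicit false

/-!
The number of exceptions in the residue class of `2^(m+2)` modulo a good number `m`.
-/

namespace Pool.Agent.Lib.MP_3e329f_nt.Cls

open Pool.Agent.Lib.MP_3e329f_nt (Val primes card_primes)

/-- Bound for the number of bad `i`. -/
lemma bad_raw {M m K s : ℕ} {Q B : Finset ℕ} (hQ : ∀ p ∈ Q, p.Prime) (hKQ : primes K ⊆ Q)
    (hM : M ≤ 2 ^ (m + 2))
    (hM2 : 2 ^ (m / 2 + 1) ≤ M) (hKs : K ≤ 2 ^ s) (hs2 : s ≤ m / 2)
    (hB : B ⊆ Finset.range K)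
    (hsm : ∀ i ∈ B, ∀ p, p.Prime → p ∣ M - i → p ∈ Q) :
    (m / 2) * B.card ≤ s * K + (m + 2) * Q.card := by
  set h := m / 2 with hh
  have h1 : 2 ^ s ≤ 2 ^ h := Nat.pow_le_pow_right (by norm_num) hs2
  have h2 : 2 ^ (h + 1) = 2 * 2 ^ h := by ring
  have h0 : 0 < 2 ^ h := by positivity
  have hK : K < M := by omega
  have h3 := smooth_count hQ hKQ hK hB hsm
  have h4 : (2 ^ h) ^ B.card ≤ (M - K) ^ B.card := Nat.pow_le_pow_left (by omega) _
  have h5 : K.factorial ≤ (2 ^ s) ^ K :=
    (Nat.factorial_le_pow K).trans (Nat.pow_le_pow_left hKs K)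
  have h6 : M ^ Q.card ≤ (2 ^ (m + 2)) ^ Q.card := Nat.pow_le_pow_left hM _
  have h7 : 2 ^ (h * B.card) ≤ 2 ^ (s * K + (m + 2) * Q.card) := by
    calc 2 ^ (h * B.card) = (2 ^ h) ^ B.card := by rw [← pow_mul]
      _ ≤ K.factorial * M ^ Q.card := h4.trans h3
      _ ≤ (2 ^ s) ^ K * (2 ^ (m + 2)) ^ Q.card := Nat.mul_le_mul h5 h6
      _ = 2 ^ (s * K + (m + 2) * Q.card) := by rw [← pow_mul, ← pow_mul, ← pow_add]
  exact (Nat.pow_le_pow_iff_right (by norm_num : 1 < 2)).mp h7

open Classical in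
/-- The exceptions. -/
noncomputable def Ex (X m : ℕ) : Finset ℕ :=
  (Finset.range X).filter (fun k => k ≡ 2 ^ (m + 2) [MOD m] ∧ ¬ Val k)

/-- The number of members of a class. -/
lemma card_Ex_le {X m : ℕ} (hm : 1 ≤ m) : (Ex X m).card ≤ X / m + 1 := by
  classical
  have h : (Ex X m).card ≤ (Finset.range (X / m + 1)).card := by
    apply Finset.card_le_card_of_injOn (fun k => k / m)
    · intro k hk
      rw [Finset.mem_coe, Ex, Finset.mem_filter, Finset.mem_range] at hk
      rw [Finset.mem_coe, Finset.mem_range]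
      have : k / m ≤ X / m := Nat.div_le_div_right hk.1.le
      show k / m < X / m + 1
      omega
    · intro k hk l hl hkl
      rw [Finset.mem_coe, Ex, Finset.mem_filter] at hk hl
      have h1 : k / m = l / m := hkl
      have h2 : k % m = l % m := hk.2.1.trans hl.2.1.symm
      rw [← Nat.div_add_mod k m, ← Nat.div_add_mod l m, h1, h2]
  rwa [Finset.card_range] at h

/-- The main bound. -/
lemma card_Ex_main {X m s : ℕ} (hm : 7 ≤ m) (hg : Good m) (hK2 : 2 ≤ X / m)
    (hXs : X ≤ 2 ^ s) (hs2 : s ≤ m / 2) :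
    (m / 2) * (Ex X m).card ≤ s * (X / m) + (m + 2) * ((primes (X / m)).card +
      m.primeFactors.card) + m / 2 := by
  classical
  set K := X / m with hK
  set M := 2 ^ (m + 2) / m with hMdef
  set c := 2 ^ (m + 2) % m with hcdef
  have hMc : 2 ^ (m + 2) = m * M + c := (Nat.div_add_mod _ _).symm
  have hc : c < m := Nat.mod_lt _ (by omega)
  have hM : M ≤ 2 ^ (m + 2) := Nat.div_le_self _ _
  have hKX : K ≤ X := Nat.div_le_self _ _
  have hM2 : 2 ^ (m / 2 + 1) ≤ M := by
    by_contra hcon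
    push Not at hcon
    have h1 : m < 2 ^ (m / 2 + 1) := by
      have h2 : ∀ x : ℕ, 1 ≤ x → 2 * x ≤ 2 ^ x := by
        intro x hx
        induction x, hx using Nat.le_induction with
        | base => norm_num
        | succ n hn ih =>
          have : 2 ^ (n + 1) = 2 * 2 ^ n := by ring
          have : 2 ^ 1 ≤ 2 ^ n := Nat.pow_le_pow_right (by norm_num) hn
          omega
      have := h2 (m / 2 + 1) (by omega)
      omega
    have h3 : m * M + c < 2 ^ (m / 2 + 1) * 2 ^ (m / 2 + 1) := by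
      calc m * M + c < m * M + m := by omega
        _ = m * (M + 1) := by ring
        _ ≤ 2 ^ (m / 2 + 1) * 2 ^ (m / 2 + 1) := Nat.mul_le_mul h1.le hcon
    rw [← hMc, ← pow_add] at h3
    have := (Nat.pow_lt_pow_iff_right (by norm_num : 1 < 2)).mp h3
    omega
  have hKM : K < M := by
    have h1 : 2 ^ s ≤ 2 ^ (m / 2) := Nat.pow_le_pow_right (by norm_num) hs2
    have h2 : 2 ^ (m / 2 + 1) = 2 * 2 ^ (m / 2) := by ring
    have h0 : 0 < 2 ^ (m / 2) := by positivity
    omega
  set Q := primes K ∪ m.primeFactors with hQdef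
  have hQ : ∀ p ∈ Q, p.Prime := by
    intro p hp
    rw [hQdef, Finset.mem_union] at hp
    rcases hp with hp | hp
    · rw [primes, Finset.mem_filter] at hp
      exact hp.2
    · exact Nat.prime_of_mem_primeFactors hp
  have hQc : Q.card ≤ (primes K).card + m.primeFactors.card := Finset.card_union_le _ _
  set B := (Finset.range K).filter (fun i => ∀ p, p.Prime → p ∣ M - i → p ∈ Q) with hBdef
  have hBc := bad_raw hQ Finset.subset_union_left hM hM2 (hKX.trans hXs) hs2
    (Finset.filter_subset _ _ : B ⊆ Finset.range K) (fun i hi => (Finset.mem_filter.mp hi).2)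
  -- the exceptions come from `B` and `K`
  have hsub : Ex X m ⊆ (insert K B).image (fun i => c + m * i) := by
    intro k hk
    rw [Ex, Finset.mem_filter, Finset.mem_range] at hk
    obtain ⟨hkX, hkm, hkv⟩ := hk
    have h1 : k % m = c := hkm
    have h2 : c + m * (k / m) = k := by
      rw [← h1, add_comm]
      exact Nat.div_add_mod k m
    rw [Finset.mem_image]
    refine ⟨k / m, ?_, h2⟩
    have h3 : k / m ≤ K := Nat.div_le_div_right hkX.le
    rw [Finset.mem_insert]
    rcases Nat.eq_or_lt_of_le h3 with h4 | h4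
    · exact Or.inl h4
    · right
      rw [hBdef, Finset.mem_filter, Finset.mem_range]
      refine ⟨h4, ?_⟩
      by_contra hcon
      push Not at hcon
      obtain ⟨p, hp, hpd, hpQ⟩ := hcon
      rw [hQdef, Finset.mem_union, not_or] at hpQ
      have hpK : K < p := by
        by_contra hcon
        apply hpQ.1
        rw [primes, Finset.mem_filter, Finset.mem_range]
        exact ⟨by omega, hp⟩
      have hpm : ¬ p ∣ m := by
        intro h
        apply hpQ.2
        rw [Nat.mem_primeFactors]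
        exact ⟨hp, h, by omega⟩
      have h5 := val_of_large (by omega) hg hK2 hMc hc h4 (by omega) hp hpK hpm hpd
      rw [h2] at h5
      exact hkv h5
  have hcard : (Ex X m).card ≤ B.card + 1 :=
    (Finset.card_le_card hsub).trans (Finset.card_image_le.trans (Finset.card_insert_le _ _))
  calc (m / 2) * (Ex X m).card ≤ (m / 2) * (B.card + 1) := Nat.mul_le_mul_left _ hcard
    _ = (m / 2) * B.card + m / 2 := by ring
    _ ≤ s * K + (m + 2) * Q.card + m / 2 := Nat.add_le_add_right hBc _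
    _ ≤ _ := Nat.add_le_add_right (Nat.add_le_add_left (Nat.mul_le_mul_left _ hQc) _) _

/-- Chebyshev's upper bound. -/
lemma cheb_up : ∃ C : ℝ, 0 < C ∧ ∀ K : ℕ, 2 ≤ K →
    ((primes K).card : ℝ) ≤ C * (K / Real.log (K + 2)) := by
  have h1 := Chebyshev.eventually_primeCounting_le (ε := 1) one_pos
  have h5 := tendsto_natCast_atTop_atTop (R := ℝ) |>.eventually h1
  obtain ⟨K0, hK0⟩ := Filter.eventually_atTop.mp h5
  have hlog0 : 0 ≤ Real.log ((K0 : ℝ) + 2) := Real.log_nonneg (by
    have : (0 : ℝ) ≤ K0 := Nat.cast_nonneg _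
    linarith)
  refine ⟨6 + Real.log (K0 + 2), by linarith, fun K hK2 => ?_⟩
  have hK2' : (2 : ℝ) ≤ K := by exact_mod_cast hK2
  have hlogK : 0 < Real.log K := Real.log_pos (by linarith)
  have hlogK2 : 0 < Real.log ((K : ℝ) + 2) := Real.log_pos (by linarith)
  have h2 : Real.log ((K : ℝ) + 2) ≤ 2 * Real.log K := by
    have h3 : (K : ℝ) + 2 ≤ (K : ℝ) ^ 2 := by nlinarith
    have h4 := Real.log_le_log (by linarith) h3
    rw [Real.log_pow] at h4
    exact_mod_cast h4
  rcases le_or_gt K0 K with h | h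
  · have h3 := hK0 K h
    rw [Nat.floor_natCast] at h3
    rw [card_primes]
    have h4 : Real.log 4 ≤ 2 := by
      have : Real.log 4 = 2 * Real.log 2 := by
        rw [show (4 : ℝ) = 2 ^ 2 by norm_num, Real.log_pow]; norm_num
      have := Real.log_two_lt_d9
      linarith
    calc (Nat.primeCounting K : ℝ) ≤ (Real.log 4 + 1) * K / Real.log K := h3
      _ ≤ 3 * K / Real.log K := by
          apply div_le_div_of_nonneg_right _ hlogK.le
          exact mul_le_mul_of_nonneg_right (by linarith) (by linarith)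
      _ ≤ 6 * K / Real.log ((K : ℝ) + 2) := by
          rw [div_le_div_iff₀ hlogK hlogK2]
          nlinarith
      _ = 6 * (K / Real.log ((K : ℝ) + 2)) := by ring
      _ ≤ (6 + Real.log (K0 + 2)) * (K / Real.log (K + 2)) := by
          apply mul_le_mul_of_nonneg_right _ (by positivity)
          linarith
  · have h3 : ((primes K).card : ℝ) ≤ K := by
      have h4 : (primes K).card ≤ K := by
        have h5 : primes K ⊆ Finset.Icc 1 K := by
          intro p hp
          rw [primes, Finset.mem_filter, Finset.mem_range] at hp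
          rw [Finset.mem_Icc]
          exact ⟨hp.2.one_le, by omega⟩
        have := Finset.card_le_card h5
        rwa [Nat.card_Icc, Nat.add_sub_cancel] at this
      exact_mod_cast h4
    have h4 : Real.log ((K : ℝ) + 2) ≤ Real.log (K0 + 2) := by
      apply Real.log_le_log (by linarith)
      have : (K : ℝ) ≤ K0 := by exact_mod_cast h.le
      linarith
    have h5 : (K : ℝ) ≤ Real.log (K0 + 2) * (K / Real.log (K + 2)) := by
      rw [← mul_div_assoc, le_div_iff₀ hlogK2]
      nlinarith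
    have h6 : 0 ≤ (K : ℝ) / Real.log (K + 2) := by positivity
    calc ((primes K).card : ℝ) ≤ K := h3
      _ ≤ Real.log (K0 + 2) * (K / Real.log (K + 2)) := h5
      _ ≤ _ := by nlinarith

/-- The bound for the number of exceptions. -/
theorem except : ∃ C : ℝ, ∀ X m : ℕ, 2 ≤ X → 1 ≤ m → Good m →
    ((Ex X m).card : ℝ) ≤
      C * ((X / m) * (Real.log X / m + 1 / Real.log (X / m + 2)) + Real.log X) := by
  obtain ⟨C1, hC1, hcheb⟩ := cheb_up
  refine ⟨30 + 12 * C1, fun X m hX hm hg => ?_⟩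
  set L := Real.log X with hL
  have hX2 : (2 : ℝ) ≤ X := by exact_mod_cast hX
  have hX0 : (0 : ℝ) < X := by linarith
  have hm1 : (1 : ℝ) ≤ m := by exact_mod_cast hm
  have hm0 : (0 : ℝ) < m := by linarith
  have hL0 : (69 / 100 : ℝ) ≤ L := by
    have h1 := Real.log_le_log (by norm_num) hX2
    have h2 := Real.log_two_gt_d9
    linarith
  set q : ℝ := (X : ℝ) / m with hq
  have hq0 : 0 < q := by positivity
  have hlogq : 0 < Real.log (q + 2) := Real.log_pos (by linarith)
  have hA : 0 ≤ q * (1 / Real.log (q + 2)) := by positivity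
  have hA' : 0 ≤ q * (L / m) := by positivity
  have hsum : q * (L / m + 1 / Real.log (q + 2)) + L = q * (L / m) + q * (1 / Real.log (q + 2)) + L := by
    ring
  have hKq : ((X / m : ℕ) : ℝ) ≤ q := Nat.cast_div_le
  have htriv : ((Ex X m).card : ℝ) ≤ q + 1 := by
    have h1 : ((Ex X m).card : ℝ) ≤ ((X / m : ℕ) : ℝ) + 1 := by exact_mod_cast card_Ex_le hm
    linarith
  rcases lt_or_ge (m : ℝ) (8 * (L + 1)) with h8 | h8
  · -- small `m`
    have h1 : (1 / 20 : ℝ) ≤ L / m := by
      rw [le_div_iff₀ hm0]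
      linarith
    have h2 : q * (1 / 20) ≤ q * (L / m) := mul_le_mul_of_nonneg_left h1 hq0.le
    have h3 : (0 : ℝ) ≤ C1 * (q * (L / m) + q * (1 / Real.log (q + 2)) + L) := by positivity
    rw [hsum]
    nlinarith
  rcases lt_or_ge (X / m) 2 with h9 | h9
  · have h1 : ((Ex X m).card : ℝ) ≤ 2 := by
      have h2 := card_Ex_le (X := X) hm
      have h3 : (Ex X m).card ≤ 2 := by omega
      exact_mod_cast h3
    have h3 : (0 : ℝ) ≤ C1 * (q * (L / m) + q * (1 / Real.log (q + 2)) + L) := by positivity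
    rw [hsum]
    nlinarith
  -- the main case
  set K := X / m with hK
  set s := Nat.log 2 X + 1 with hs
  have hXs : X ≤ 2 ^ s := (Nat.lt_pow_succ_log_self (by norm_num) X).le
  have hsr : (s : ℝ) ≤ 3 * L := by
    have h1 : 2 ^ Nat.log 2 X ≤ X := Nat.pow_log_le_self 2 (by omega)
    have h2 : ((2 : ℝ)) ^ Nat.log 2 X ≤ X := by exact_mod_cast h1
    have h3 := Real.log_le_log (by positivity) h2
    rw [Real.log_pow] at h3
    have h4 := Real.log_two_gt_d9
    have h5 : (0 : ℝ) ≤ Nat.log 2 X := Nat.cast_nonneg _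
    rw [hs]
    push_cast
    nlinarith
  have hs2 : s ≤ m / 2 := by
    have h1 : 2 * s ≤ m := by
      have h2 : ((2 * s : ℕ) : ℝ) ≤ m := by
        push_cast
        linarith
      exact_mod_cast h2
    omega
  have hm7 : 7 ≤ m := by
    have h1 : (7 : ℝ) ≤ m := by linarith
    exact_mod_cast h1
  have hmain := card_Ex_main hm7 hg h9 hXs hs2
  have hmX : m ≤ X := by
    by_contra hcon
    push Not at hcon
    have : X / m = 0 := Nat.div_eq_of_lt hcon
    omega
  have hω : (m.primeFactors.card : ℝ) ≤ 3 * L := by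
    have h1 : m.primeFactors.card ≤ s := (card_primeFactors_le (by omega) hmX).trans (by omega)
    have h2 : (m.primeFactors.card : ℝ) ≤ s := by exact_mod_cast h1
    linarith
  have hπ := hcheb K h9
  -- pass to the reals
  have hh : (m : ℝ) / 3 ≤ ((m / 2 : ℕ) : ℝ) := by
    have h1 : m ≤ 3 * (m / 2) := by omega
    have h2 : (m : ℝ) ≤ 3 * ((m / 2 : ℕ) : ℝ) := by exact_mod_cast h1
    linarith
  have hh2 : ((m + 2 : ℕ) : ℝ) ≤ 3 * ((m / 2 : ℕ) : ℝ) := by
    have h1 : m + 2 ≤ 3 * (m / 2) := by omega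
    exact_mod_cast h1
  set h : ℝ := ((m / 2 : ℕ) : ℝ) with hhdef
  have hhpos : 0 < h := by linarith [show (0 : ℝ) < m / 3 by positivity]
  have hmain' : h * ((Ex X m).card : ℝ) ≤
      s * (K : ℝ) + ((m + 2 : ℕ) : ℝ) * (((primes K).card : ℝ) + m.primeFactors.card) + h := by
    rw [hhdef]
    exact_mod_cast hmain
  have hKlog : (K : ℝ) / Real.log (K + 2) ≤ 2 * (q * (1 / Real.log (q + 2))) := by
    have hK2' : (2 : ℝ) ≤ K := by exact_mod_cast h9
    have hlogK : 0 < Real.log ((K : ℝ) + 2) := Real.log_pos (by linarith)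
    have hqK : q < K + 1 := by
      have h1 : X < m * (K + 1) := Nat.lt_mul_div_succ _ hm
      have h2 : (X : ℝ) < m * (K + 1) := by exact_mod_cast h1
      rw [hq, div_lt_iff₀ hm0]
      linarith
    have h1 : Real.log (q + 2) ≤ 2 * Real.log ((K : ℝ) + 2) := by
      have h3 : q + 2 ≤ ((K : ℝ) + 2) ^ 2 := by nlinarith
      have h4 := Real.log_le_log (by linarith) h3
      rw [Real.log_pow] at h4
      exact_mod_cast h4
    have h2 : 2 * (q * (1 / Real.log (q + 2))) = 2 * q / Real.log (q + 2) := by ring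
    rw [h2, div_le_div_iff₀ hlogK hlogq]
    have h3 : (K : ℝ) * Real.log (q + 2) ≤ q * (2 * Real.log ((K : ℝ) + 2)) :=
      mul_le_mul hKq h1 hlogq.le hq0.le
    linarith
  have h10 : ((Ex X m).card : ℝ) ≤ 9 * (q * (L / m)) +
      3 * (C1 * (2 * (q * (1 / Real.log (q + 2)))) + 3 * L) + 1 := by
    have h11 : s * (K : ℝ) ≤ h * (9 * (q * (L / m))) := by
      have h12 : s * (K : ℝ) ≤ 3 * L * q := mul_le_mul hsr hKq (Nat.cast_nonneg _) (by linarith)
      have h13 : (m : ℝ) / 3 * (9 * (q * (L / m))) ≤ h * (9 * (q * (L / m))) :=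
        mul_le_mul_of_nonneg_right hh (by positivity)
      have h14 : (m : ℝ) / 3 * (9 * (q * (L / m))) = 3 * L * q := by
        field_simp
        ring
      linarith
    have h15 : ((primes K).card : ℝ) + m.primeFactors.card ≤
        C1 * (2 * (q * (1 / Real.log (q + 2)))) + 3 * L := by
      have h16 : C1 * (K / Real.log (K + 2)) ≤ C1 * (2 * (q * (1 / Real.log (q + 2)))) :=
        mul_le_mul_of_nonneg_left hKlog hC1.le
      linarith
    have h17 : ((m + 2 : ℕ) : ℝ) * (((primes K).card : ℝ) + m.primeFactors.card) ≤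
        (3 * h) * (C1 * (2 * (q * (1 / Real.log (q + 2)))) + 3 * L) :=
      mul_le_mul hh2 h15 (by positivity) (by positivity)
    have h18 : h * ((Ex X m).card : ℝ) ≤ h * (9 * (q * (L / m)) +
      3 * (C1 * (2 * (q * (1 / Real.log (q + 2)))) + 3 * L) + 1) := by
      calc h * ((Ex X m).card : ℝ) ≤ h * (9 * (q * (L / m))) +
            (3 * h) * (C1 * (2 * (q * (1 / Real.log (q + 2)))) + 3 * L) + h := by linarith
        _ = _ := by ring
    exact le_of_mul_le_mul_left h18 hhpos
  have h19 : 0 ≤ C1 * (q * (L / m)) := by positivity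
  have h20 : 0 ≤ C1 * (q * (1 / Real.log (q + 2))) := by positivity
  have h21 : 0 ≤ C1 * L := by positivity
  rw [hsum]
  nlinarith

end Pool.Agent.Lib.MP_3e329f_nt.Cls
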