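import Pool.Agent.Lib.MP_3e329f_nt.ShiftU

set_option autoImplicit false

/-!
A positive proportion of the primes `q ≤ z` is such that all prime factors of `q - 1` are
`≤ z^u`, for some `u < 1/2` (Goldfeld's argument), second part.
-/

namespace Pool.Agent.Lib.MP_3e329f_nt

open Finset Filter ArithmeticFunction

open Pool.Agent.CM (wd sA sT er BVc CP mu)
open Pool.Agent.CH (thP)

theorem sA_nonneg' (X : ℝ) (N l : ℕ) : 0 ≤ sA (fW X) N l 1 := sum_nonneg fun _ _ => fW_nonneg _ _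

/-- the final arithmetic -/
theorem goldArith {C K δ L S X M0 M1 M2 B1 B2 l3 : ℝ} (hC : 0 < C) (hK : 0 < K) (hδ : 0 < δ)
    (hδ8 : δ ≤ 1 / 8) (hCδ : C * δ ≤ 1 / 200) (hL : 8 * (K + 5) ≤ δ * L) (hL0 : 4 ≤ L)
    (hX : 0 < X) (hS : X / 2 ≤ S) (hl3 : l3 ≤ L + 2)
    (htot : M0 + (M1 + M2) ≤ l3 * S)
    (hM0 : S * ((1 / 2 - δ ^ 2) * L - K) - X ≤ M0)
    (hM1 : M1 ≤ C * X * (2 * δ * L + 8))
    (hB1 : (1 / 2 - δ ^ 2) * L * B1 ≤ M1) (hB2 : (1 / 2 + δ) * L * B2 ≤ M2) :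
    B1 + B2 ≤ (1 - δ / 2) * S := by
  have hS0 : 0 < S := by linarith
  set a : ℝ := 1 / 2 - δ ^ 2 with ha
  set b : ℝ := 1 / 2 + δ with hb
  have hδ2 : δ ^ 2 ≤ δ / 8 := by nlinarith
  have ha1 : 31 / 64 ≤ a := by rw [ha]; linarith
  have ha2 : a ≤ 1 / 2 := by rw [ha]; nlinarith
  have hb1 : 1 / 2 ≤ b := by rw [hb]; linarith
  have hL1 : 0 < L := by linarith
  have hab : 0 < a * b * L := by positivity
  have hM12 : M1 + M2 ≤ S * ((1 - a) * L + K + 4) := by
    have h1 : l3 * S ≤ (L + 2) * S := mul_le_mul_of_nonneg_right hl3 hS0.le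
    nlinarith
  have hM1' : M1 ≤ 2 * S * C * (2 * δ * L + 8) := by
    refine hM1.trans ?_
    have h1 : C * X ≤ 2 * S * C := by nlinarith
    exact mul_le_mul_of_nonneg_right h1 (by positivity)
  have h1 : a * b * L * (B1 + B2) ≤ a * (M1 + M2) + (b - a) * M1 := by
    have h2 : b * (a * L * B1) ≤ b * M1 := mul_le_mul_of_nonneg_left hB1 (by linarith)
    have h3 : a * (b * L * B2) ≤ a * M2 := mul_le_mul_of_nonneg_left hB2 (by linarith)
    nlinarith
  have hba : b - a ≤ 9 / 8 * δ := by rw [ha, hb]; linarith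
  have hba0 : 0 ≤ b - a := by rw [ha, hb]; nlinarith
  have h4 : a * (M1 + M2) ≤ a * (S * ((1 - a) * L + K + 4)) :=
    mul_le_mul_of_nonneg_left hM12 (by linarith)
  have h5 : (b - a) * M1 ≤ 9 / 8 * δ * (2 * S * C * (2 * δ * L + 8)) := by
    calc (b - a) * M1 ≤ (b - a) * (2 * S * C * (2 * δ * L + 8)) :=
          mul_le_mul_of_nonneg_left hM1' hba0
      _ ≤ _ := mul_le_mul_of_nonneg_right hba (by positivity)
  have h6 : 9 / 8 * δ * (2 * S * C * (2 * δ * L + 8)) =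
      S * ((C * δ) * (9 / 2 * (δ * L)) + 18 * (C * δ)) := by ring
  have h7 : S * ((C * δ) * (9 / 2 * (δ * L)) + 18 * (C * δ)) ≤
      S * (1 / 200 * (9 / 2 * (δ * L)) + 18 * (1 / 200)) := by
    apply mul_le_mul_of_nonneg_left _ hS0.le
    have : (C * δ) * (9 / 2 * (δ * L)) ≤ 1 / 200 * (9 / 2 * (δ * L)) :=
      mul_le_mul_of_nonneg_right hCδ (by positivity)
    linarith
  have h8 : a * (S * ((1 - a) * L + K + 4)) + S * (1 / 200 * (9 / 2 * (δ * L)) + 18 * (1 / 200)) ≤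
      a * b * L * ((1 - δ / 2) * S) := by
    have h9 : a * ((1 - a) * L + K + 4) + (1 / 200 * (9 / 2 * (δ * L)) + 18 * (1 / 200)) ≤
        a * (b * L * (1 - δ / 2)) := by
      have h10 : b * (1 - δ / 2) - (1 - a) ≥ 9 / 16 * δ := by
        rw [ha, hb]
        nlinarith
      have h11 : (1 - a) * L + 9 / 16 * (δ * L) ≤ b * L * (1 - δ / 2) := by nlinarith
      have h12 : a * ((1 - a) * L + 9 / 16 * (δ * L)) ≤ a * (b * L * (1 - δ / 2)) :=
        mul_le_mul_of_nonneg_left h11 (by linarith)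
      have hδL : 0 < δ * L := by positivity
      have h13 : 31 / 64 * (9 / 16 * (δ * L)) ≤ a * (9 / 16 * (δ * L)) :=
        mul_le_mul_of_nonneg_right ha1 (by positivity)
      have h14 : a * (K + 4) ≤ 1 / 2 * (K + 4) := mul_le_mul_of_nonneg_right ha2 (by linarith)
      nlinarith
    calc _ = S * (a * ((1 - a) * L + K + 4) + (1 / 200 * (9 / 2 * (δ * L)) + 18 * (1 / 200))) := by
          ring
      _ ≤ S * (a * (b * L * (1 - δ / 2))) := mul_le_mul_of_nonneg_left h9 hS0.le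
      _ = _ := by ring
  have h9 : a * b * L * (B1 + B2) ≤ a * b * L * ((1 - δ / 2) * S) := by linarith
  exact le_of_mul_le_mul_left h9 hab

/-- most primes -/
theorem goldU (hBV : BVc CP 1) (hm1 : Pool.Agent.CM.M.R_m1) (hmu : Pool.Agent.CM.M.R_mu)
    (hsv : ∃ C : ℝ, 0 < C ∧ ∀ᶠ X : ℝ in atTop, ∀ l : ℕ, l.Prime → (l : ℝ) ≤ X ^ (3 / 4 : ℝ) →
      sA (fun n => thP n * wd 1 X n) ⌊3 * X⌋₊ l 1 ≤ C * X / l) :
    ∃ δ : ℝ, 0 < δ ∧ δ ≤ 1 / 8 ∧ ∀ᶠ X : ℝ in atTop,
      X / 2 ≤ sT (fW X) ⌊3 * X⌋₊ ∧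
      ∑ l ∈ (Ioc ⌊X ^ (1 / 2 - δ ^ 2)⌋₊ ⌊3 * X⌋₊).filter Nat.Prime, sA (fW X) ⌊3 * X⌋₊ l 1 ≤
        (1 - δ / 2) * sT (fW X) ⌊3 * X⌋₊ := by
  classical
  obtain ⟨C, hC, hsv⟩ := hsv
  set δ : ℝ := min (1 / 8) (1 / (200 * C)) with hδdef
  have hδ : 0 < δ := lt_min (by norm_num) (by positivity)
  have hδ8 : δ ≤ 1 / 8 := min_le_left _ _
  have hCδ : C * δ ≤ 1 / 200 := by
    have : δ ≤ 1 / (200 * C) := min_le_right _ _
    rw [le_div_iff₀ (by positivity)] at this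
    linarith
  have hδ2 : δ ^ 2 ≤ δ / 8 := by nlinarith
  have hδ20 : 0 < δ ^ 2 := by positivity
  obtain ⟨K, hK, hlow⟩ := bvLowU hBV hδ20 (by linarith)
  refine ⟨δ, hδ, hδ8, ?_⟩
  have e3 : ∀ᶠ X : ℝ in atTop, 8 * (K + 5) / δ ≤ Real.log X :=
    Real.tendsto_log_atTop.eventually_ge_atTop _
  filter_upwards [hsv, hlow, sT_lower hm1 hmu, e3, eventually_ge_atTop (Real.exp 8)]
    with X hs hl hmass hbig hXe
  have hX0 : 0 < X := lt_of_lt_of_le (Real.exp_pos 8) hXe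
  have hX1 : 1 ≤ X := le_trans (Real.one_le_exp (by norm_num)) hXe
  have hX3 : 3 ≤ X := by
    have := Real.add_one_le_exp (8 : ℝ)
    linarith only [hXe, this]
  have hlog8 : 8 ≤ Real.log X := (Real.le_log_iff_exp_le hX0).mpr hXe
  have hmass' : X / 2 ≤ sT (fW X) ⌊3 * X⌋₊ := hmass
  refine ⟨hmass', ?_⟩
  set L := Real.log X with hL
  set N := ⌊3 * X⌋₊ with hN
  set a : ℝ := 1 / 2 - δ ^ 2 with ha
  set b : ℝ := 1 / 2 + δ with hb
  set Da := ⌊X ^ a⌋₊ with hDa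
  set Db := ⌊X ^ b⌋₊ with hDb
  have ha1 : 31 / 64 ≤ a := by rw [ha]; linarith
  have ha2 : a ≤ 1 / 2 := by rw [ha]; linarith
  have hb1 : 1 / 2 ≤ b := by rw [hb]; linarith
  have hb2 : b ≤ 3 / 4 := by rw [hb]; linarith
  have rp : ∀ {x y : ℝ}, x ≤ y → X ^ x ≤ X ^ y := fun h =>
    Real.rpow_le_rpow_of_exponent_le hX1 h
  have hDab : Da ≤ Db := Nat.floor_mono (rp (by linarith))
  have hDbN : Db ≤ N := by
    apply Nat.floor_mono
    calc X ^ b ≤ X ^ (1 : ℝ) := rp (by linarith)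
      _ = X := Real.rpow_one X
      _ ≤ 3 * X := by linarith
  have hDbN' : Da ≤ N := hDab.trans hDbN
  have hXa2 : 2 ≤ X ^ a := by
    have h1 : Real.log 2 ≤ Real.log (X ^ a) := by
      rw [Real.log_rpow hX0]
      have := Real.log_two_lt_d9
      nlinarith
    exact (Real.log_le_log_iff (by norm_num) (by positivity)).1 h1
  have hDage : X ^ a / 2 ≤ Da := by
    have := Nat.lt_floor_add_one (X ^ a)
    rw [← hDa] at this
    linarith
  have hDa1 : 1 ≤ Da := by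
    have : (1 : ℝ) ≤ Da := by linarith
    exact_mod_cast this
  have hDble : (Db : ℝ) ≤ X ^ b := Nat.floor_le (by positivity)
  have hDa0 : (0 : ℝ) < Da := by exact_mod_cast hDa1
  have hDb1 : 1 ≤ Db := hDa1.trans hDab
  have hDb0 : (0 : ℝ) < Db := by exact_mod_cast hDb1
  set A : ℕ → ℝ := fun l => sA (fW X) N l 1 with hA
  have hA0 : ∀ l, 0 ≤ A l := fun l => sA_nonneg' X N l
  -- the sums
  set M0 := ∑ l ∈ (Icc 1 Da).filter Nat.Prime, Real.log l * A l with hM0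
  set M1 := ∑ l ∈ (Ioc Da Db).filter Nat.Prime, Real.log l * A l with hM1
  set M2 := ∑ l ∈ (Ioc Db N).filter Nat.Prime, Real.log l * A l with hM2
  have htot0 := totalU hX1
  have split : ∀ g : ℕ → ℝ, ∀ x y w : ℕ, x ≤ y → y ≤ w →
      ∑ l ∈ (Ioc x y).filter Nat.Prime, g l + ∑ l ∈ (Ioc y w).filter Nat.Prime, g l =
        ∑ l ∈ (Ioc x w).filter Nat.Prime, g l := by
    intro g x y w h1 h2
    rw [sum_filter, sum_filter, sum_filter]
    exact Finset.sum_Ioc_consecutive _ h1 h2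
  have hIcc : ∀ n : ℕ, Icc 1 n = Ioc 0 n := by
    intro n
    ext k
    rw [mem_Icc, mem_Ioc]
    omega
  have htot : M0 + (M1 + M2) ≤ Real.log (3 * X) * sT (fW X) N := by
    refine le_trans (le_of_eq ?_) htot0
    rw [hM0, hM1, hM2, split _ _ _ _ hDab hDbN, hIcc, split _ _ _ _ (Nat.zero_le _) hDbN', ← hN,
      hIcc]
  have hl3 : Real.log (3 * X) ≤ L + 2 := by
    rw [Real.log_mul (by norm_num) hX0.ne']
    have h1 : Real.log 3 ≤ 2 := by
      have := Real.log_le_sub_one_of_pos (show (0 : ℝ) < 3 by norm_num)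
      linarith
    linarith
  have hM1b : M1 ≤ C * X * (2 * δ * L + 8) := by
    have h1 : ∀ l ∈ (Ioc Da Db).filter Nat.Prime, Real.log l * A l ≤
        C * X * (vonMangoldt l / l) := by
      intro l hl'
      rw [mem_filter, mem_Ioc] at hl'
      have hl0 : (0 : ℝ) < l := by exact_mod_cast hl'.2.pos
      have h2 : (l : ℝ) ≤ X ^ (3 / 4 : ℝ) := by
        calc (l : ℝ) ≤ Db := by exact_mod_cast hl'.1.2
          _ ≤ X ^ b := hDble
          _ ≤ _ := rp hb2
      have h3 := hs l hl'.2 h2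
      have h4 : A l ≤ C * X / l := h3
      rw [vonMangoldt_apply_prime hl'.2]
      calc Real.log l * A l ≤ Real.log l * (C * X / l) :=
            mul_le_mul_of_nonneg_left h4 (Real.log_natCast_nonneg l)
        _ = _ := by ring
    refine (sum_le_sum h1).trans ?_
    rw [← mul_sum]
    apply mul_le_mul_of_nonneg_left _ (by positivity)
    have h5 : ∑ l ∈ (Ioc Da Db).filter Nat.Prime, vonMangoldt l / (l : ℝ) ≤
        ∑ l ∈ Ioc Da Db, vonMangoldt l / (l : ℝ) := by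
      apply sum_le_sum_of_subset_of_nonneg (filter_subset _ _)
      intro q _ _
      exact div_nonneg vonMangoldt_nonneg (Nat.cast_nonneg _)
    refine (h5.trans (Pool.Agent.MPbca.mertens_Ioc hDa1 hDab)).trans ?_
    have h6 : (Db : ℝ) / Da ≤ 2 * X ^ (b - a) := by
      rw [div_le_iff₀ hDa0]
      have h7 : X ^ b = X ^ (b - a) * X ^ a := by
        rw [← Real.rpow_add hX0]; congr 1; ring
      calc (Db : ℝ) ≤ X ^ b := hDble
        _ = 2 * X ^ (b - a) * (X ^ a / 2) := by rw [h7]; ring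
        _ ≤ 2 * X ^ (b - a) * Da := mul_le_mul_of_nonneg_left hDage (by positivity)
    have h8 := Real.log_le_log (by positivity) h6
    rw [Real.log_mul (by norm_num) (by positivity), Real.log_rpow hX0] at h8
    have h9 : (b - a) * L ≤ 2 * δ * L := by
      apply mul_le_mul_of_nonneg_right _ (by linarith)
      rw [ha, hb]; linarith
    have := Real.log_two_lt_d9
    linarith
  have hB1 : a * L * ∑ l ∈ (Ioc Da Db).filter Nat.Prime, A l ≤ M1 := by
    rw [mul_sum]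
    apply sum_le_sum
    intro l hl'
    rw [mem_filter, mem_Ioc] at hl'
    apply mul_le_mul_of_nonneg_right _ (hA0 l)
    have h1 : X ^ a < l := Nat.lt_of_floor_lt hl'.1.1
    have h2 := Real.log_le_log (by positivity) h1.le
    rwa [Real.log_rpow hX0] at h2
  have hB2 : b * L * ∑ l ∈ (Ioc Db N).filter Nat.Prime, A l ≤ M2 := by
    rw [mul_sum]
    apply sum_le_sum
    intro l hl'
    rw [mem_filter, mem_Ioc] at hl'
    apply mul_le_mul_of_nonneg_right _ (hA0 l)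
    have h1 : X ^ b < l := Nat.lt_of_floor_lt hl'.1.1
    have h2 := Real.log_le_log (by positivity) h1.le
    rwa [Real.log_rpow hX0] at h2
  have hbig' : 8 * (K + 5) ≤ δ * L := by
    rw [div_le_iff₀ hδ] at hbig
    linarith
  have fin := goldArith hC hK hδ hδ8 hCδ hbig' (by linarith) hX0 hmass' hl3 htot hl hM1b hB1 hB2
  rw [split _ _ _ _ hDab hDbN] at fin
  exact fin

/-- Many primes `q` with `q - 1` smooth, exponent `< 1/2`. -/
theorem smoothShiftU (hBV : BVc CP 1) (hm1 : Pool.Agent.CM.M.R_m1) (hmu : Pool.Agent.CM.M.R_mu)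
    (hsv : ∃ C : ℝ, 0 < C ∧ ∀ᶠ X : ℝ in atTop, ∀ l : ℕ, l.Prime → (l : ℝ) ≤ X ^ (3 / 4 : ℝ) →
      sA (fun n => thP n * wd 1 X n) ⌊3 * X⌋₊ l 1 ≤ C * X / l) :
    ∃ u : ℝ, 1 / 4 ≤ u ∧ u < 1 / 2 ∧ ∀ ε : ℝ, 0 < ε →
      ∀ᶠ z : ℕ in atTop, (z : ℝ) ^ (1 - ε) ≤ ((smU u z).card : ℝ) := by
  classical
  obtain ⟨δ, hδ, hδ8, hg⟩ := goldU hBV hm1 hmu hsv
  have hδ2 : δ ^ 2 ≤ δ / 8 := by nlinarith
  have hδ20 : 0 < δ ^ 2 := by positivity
  refine ⟨1 / 2 - δ ^ 2, by linarith, by linarith, fun ε hε => ?_⟩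
  set a : ℝ := 1 / 2 - δ ^ 2 with ha
  have ha0 : 0 ≤ a := by rw [ha]; linarith
  have hX3 : Tendsto (fun z : ℕ => (z : ℝ) / 3) atTop atTop :=
    tendsto_natCast_atTop_atTop.atTop_div_const (by norm_num)
  have hlz : ∀ᶠ z : ℕ in atTop, Real.log z ≤ δ / 12 * (z : ℝ) ^ ε := by
    have h1 := (isLittleO_log_rpow_atTop hε).bound (show (0 : ℝ) < δ / 12 by positivity)
    filter_upwards [tendsto_natCast_atTop_atTop.eventually h1, eventually_ge_atTop 1] with z hz hz1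
    have hz1' : (1 : ℝ) ≤ z := by exact_mod_cast hz1
    rw [Real.norm_of_nonneg (Real.log_nonneg hz1'), Real.norm_of_nonneg (by positivity)] at hz
    exact hz
  filter_upwards [hX3.eventually hg, hlz, eventually_ge_atTop 3] with z hz hlog hz3
  have hz3' : (3 : ℝ) ≤ z := by exact_mod_cast hz3
  have hz0 : (0 : ℝ) < z := by linarith
  obtain ⟨X, hX⟩ : ∃ X : ℝ, X = (z : ℝ) / 3 := ⟨_, rfl⟩
  rw [← hX] at hz
  have hX1 : 1 ≤ X := by rw [hX]; linarith
  have hX0 : 0 < X := by linarith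
  have hXz : X ≤ z := by rw [hX]; linarith
  have h3X : ⌊3 * X⌋₊ = z := by
    have : 3 * X = z := by rw [hX]; ring
    rw [this, Nat.floor_natCast]
  rw [h3X] at hz
  obtain ⟨hmass, hB⟩ := hz
  have hlog0 : 0 < Real.log (z : ℝ) := Real.log_pos (by linarith)
  set P := (Ioc ⌊X ^ a⌋₊ z).filter Nat.Prime with hP
  have key : sT (fW X) z ≤ ((smU a z).card : ℝ) * Real.log z + ∑ l ∈ P, sA (fW X) z l 1 := by
    have h1 : ∑ l ∈ P, sA (fW X) z l 1 =
        ∑ n ∈ Icc 1 z, (∑ _l ∈ P.filter (fun l => n ≡ 1 [MOD l]), (1 : ℝ)) * fW X n := by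
      rw [← sum_sA]
      simp
    have h2 : ∑ n ∈ Icc 1 z, (if n ∈ smU a z then Real.log z else 0) ≤
        ((smU a z).card : ℝ) * Real.log z := by
      rw [← sum_filter, sum_const, nsmul_eq_mul]
      apply mul_le_mul_of_nonneg_right _ hlog0.le
      apply Nat.cast_le.2
      apply card_le_card
      intro n hn
      exact (mem_filter.1 hn).2
    rw [h1]
    refine le_trans ?_ (add_le_add_left h2 _)
    rw [← sum_add_distrib, sT]
    apply sum_le_sum
    intro n hn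
    rw [mem_Icc] at hn
    by_cases hp : n.Prime
    · by_cases hs : n ∈ smU a z
      · rw [if_pos hs]
        have h3 : fW X n ≤ Real.log z := fW_le hn.2
        have h4 : 0 ≤ (∑ _l ∈ P.filter (fun l => n ≡ 1 [MOD l]), (1 : ℝ)) * fW X n :=
          mul_nonneg (sum_nonneg fun _ _ => zero_le_one) (fW_nonneg _ _)
        linarith
      · rw [if_neg hs, zero_add]
        rw [mem_smU] at hs
        push Not at hs
        obtain ⟨l, hl, hdl, hlz'⟩ := hs (by omega) hp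
        have hn2 := hp.two_le
        have hln : l ≤ n - 1 := Nat.le_of_dvd (by omega) hdl
        have hlP : l ∈ P.filter (fun l => n ≡ 1 [MOD l]) := by
          rw [mem_filter, hP, mem_filter, mem_Ioc]
          refine ⟨⟨⟨?_, by omega⟩, hl⟩, ((Nat.modEq_iff_dvd' hn.1).2 hdl).symm⟩
          rw [Nat.floor_lt (by positivity)]
          calc X ^ a ≤ (z : ℝ) ^ a := Real.rpow_le_rpow hX0.le hXz ha0
            _ < l := hlz'
        have h5 : (1 : ℝ) ≤ ∑ _l ∈ P.filter (fun l => n ≡ 1 [MOD l]), (1 : ℝ) := by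
          rw [sum_const, nsmul_eq_mul, mul_one]
          have : 0 < (P.filter (fun l => n ≡ 1 [MOD l])).card := card_pos.2 ⟨l, hlP⟩
          exact_mod_cast this
        have h6 := mul_le_mul_of_nonneg_right h5 (fW_nonneg X n)
        linarith
    · rw [fW_zero hp, mul_zero, add_zero]
      split_ifs
      · exact hlog0.le
      · exact le_rfl
  have h7 : δ / 2 * (X / 2) ≤ δ / 2 * sT (fW X) z := mul_le_mul_of_nonneg_left hmass (by positivity)
  have h8 : δ / 12 * z ≤ ((smU a z).card : ℝ) * Real.log z := by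
    have h9 : δ / 2 * (X / 2) = δ / 12 * z := by rw [hX]; ring
    linarith
  have h10 : (z : ℝ) ^ (1 - ε) * Real.log z ≤ δ / 12 * z := by
    calc (z : ℝ) ^ (1 - ε) * Real.log z ≤ (z : ℝ) ^ (1 - ε) * (δ / 12 * (z : ℝ) ^ ε) :=
          mul_le_mul_of_nonneg_left hlog (by positivity)
      _ = δ / 12 * ((z : ℝ) ^ (1 - ε) * (z : ℝ) ^ ε) := by ring
      _ = δ / 12 * z := by
          rw [← Real.rpow_add hz0]
          have : 1 - ε + ε = 1 := by ring
          rw [this, Real.rpow_one]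
  exact le_of_mul_le_mul_right (h10.trans h8) hlog0

end Pool.Agent.Lib.MP_3e329f_nt
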