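import Mathlib

set_option autoImplicit false

/-!
Primes `q` such that `q - 1` has only small prime factors.
-/

namespace Pool.Agent.Lib.MP_3e329f_nt

open Finset Filter

/-- The primes `q ≤ z` such that all prime factors of `q - 1` are `≤ z^u`. -/
noncomputable def smU (u : ℝ) (z : ℕ) : Finset ℕ := by
  classical exact (range (z + 1)).filter (fun q => q.Prime ∧
    ∀ l : ℕ, l.Prime → l ∣ q - 1 → (l : ℝ) ≤ (z : ℝ) ^ u)

theorem mem_smU {u : ℝ} {z q : ℕ} : q ∈ smU u z ↔ q < z + 1 ∧ q.Prime ∧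
    ∀ l : ℕ, l.Prime → l ∣ q - 1 → (l : ℝ) ≤ (z : ℝ) ^ u := by
  classical
  simp only [smU, Finset.mem_filter, Finset.mem_range]

end Pool.Agent.Lib.MP_3e329f_nt
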