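import Mathlib
import Pool.Agent.Lib.MP_3e329f_nt.SmU

set_option autoImplicit false

/-!
Choice of the parameters for a general exponent `u` between `1/4` and `1/2`.
-/

namespace Pool.Agent.Lib.MP_3e329f_nt

open Finset Filter

/-- the set `T`, for one `z` -/
theorem PU_exists_T (u η : ℝ) (hη0 : 0 < η) (hη1 : η ≤ 1 / 400) (z : ℕ) (hz1 : 1 ≤ z)
    (hA : (z : ℝ) ^ (1 - η / 2) ≤ ((smU u z).card : ℝ)) (h6 : (6 : ℝ) ≤ (z : ℝ) ^ (η / 2)) :
    ∃ T : Finset ℕ, (∀ q ∈ T, q.Prime ∧ ⌊(z : ℝ) ^ (1 - η)⌋₊ < q ∧ q ≤ z ∧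
      ∀ l : ℕ, l.Prime → l ∣ q - 1 → l ≤ ⌊(z : ℝ) ^ u⌋₊) ∧
      (z : ℝ) ^ (1 - 2 * η) ≤ (T.card : ℝ) ∧ 8 * T.card ≤ ⌊(z : ℝ) ^ (1 - η)⌋₊ := by
  classical
  have hz : (1 : ℝ) ≤ (z : ℝ) := by exact_mod_cast hz1
  have hz0 : (0 : ℝ) < (z : ℝ) := by linarith
  set W : ℝ := (z : ℝ) ^ (1 - 2 * η) with hW
  set w : ℝ := (z : ℝ) ^ (η / 2) with hw
  have hW1 : 1 ≤ W := Real.one_le_rpow hz (by linarith)
  have e1 : (z : ℝ) ^ (1 - η) = W * w ^ 2 := by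
    rw [hW, hw, ← Real.rpow_natCast, ← Real.rpow_mul hz0.le, ← Real.rpow_add hz0]
    congr 1
    push_cast
    ring
  have e2 : (z : ℝ) ^ (1 - η / 2) = W * w ^ 3 := by
    rw [hW, hw, ← Real.rpow_natCast, ← Real.rpow_mul hz0.le, ← Real.rpow_add hz0]
    congr 1
    push_cast
    ring
  have hw2 : 36 ≤ w ^ 2 := by nlinarith
  have hWw : 36 * W ≤ W * w ^ 2 := by nlinarith
  set z1 : ℕ := ⌊(z : ℝ) ^ (1 - η)⌋₊ with hz1'
  have f1 : (z1 : ℝ) ≤ W * w ^ 2 := by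
    rw [← e1]
    exact Nat.floor_le (by positivity)
  have f2 : W * w ^ 2 < (z1 : ℝ) + 1 := by
    rw [← e1]
    exact Nat.lt_floor_add_one _
  set t : ℕ := ⌈W⌉₊ with ht
  have g1 : W ≤ (t : ℝ) := Nat.le_ceil W
  have g2 : (t : ℝ) < W + 1 := Nat.ceil_lt_add_one (by linarith)
  -- the large elements
  set S : Finset ℕ := (smU u z).filter (fun q => z1 < q) with hS
  have hcard : (smU u z).card ≤ S.card + (z1 + 1) := by
    have h1 : smU u z ⊆ S ∪ range (z1 + 1) := by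
      intro q hq
      rw [Finset.mem_union, hS, Finset.mem_filter, Finset.mem_range]
      rcases lt_or_ge z1 q with h | h
      · exact Or.inl ⟨hq, h⟩
      · exact Or.inr (by omega)
    calc (smU u z).card ≤ (S ∪ range (z1 + 1)).card := Finset.card_le_card h1
      _ ≤ S.card + (range (z1 + 1)).card := Finset.card_union_le _ _
      _ = S.card + (z1 + 1) := by rw [Finset.card_range]
  have hcard' : ((smU u z).card : ℝ) ≤ (S.card : ℝ) + (z1 + 1) := by exact_mod_cast hcard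
  have htS : t ≤ S.card := by
    have h1 : (t : ℝ) ≤ (S.card : ℝ) := by
      rw [e2] at hA
      have h3 : W * w ^ 3 = (W * w ^ 2) * w := by ring
      have h4 : 6 * (W * w ^ 2) ≤ (W * w ^ 2) * w := by nlinarith
      nlinarith
    exact_mod_cast h1
  obtain ⟨T, hTS, hTc⟩ := Finset.exists_subset_card_eq htS
  refine ⟨T, ?_, ?_, ?_⟩
  · intro q hq
    have h1 := hTS hq
    rw [hS, Finset.mem_filter, mem_smU] at h1
    obtain ⟨⟨h2, h3, h4⟩, h5⟩ := h1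
    refine ⟨h3, h5, by omega, ?_⟩
    intro l hl hlq
    exact Nat.le_floor (h4 l hl hlq)
  · rw [hTc]
    exact g1
  · rw [hTc]
    have h1 : ((8 * t : ℕ) : ℝ) ≤ (z1 : ℝ) := by
      push_cast
      nlinarith
    exact_mod_cast h1

/-- lower bound of the binomial coefficient -/
theorem PU_choose (t M y : ℕ) (X : ℝ) (hX : 0 ≤ X) (hMy : M ≤ y)
    (ht : 2 * (y : ℝ) * X ≤ t) (h2 : 2 * y ≤ t) : X ^ M ≤ (t.choose M : ℝ) := by
  have h1 := Nat.pow_le_choose (α := ℝ) M t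
  refine le_trans ?_ h1
  rw [le_div_iff₀ (by exact_mod_cast Nat.factorial_pos M)]
  have h3 : (M.factorial : ℝ) ≤ (y : ℝ) ^ M := by
    have h4 : M.factorial ≤ y ^ M := (Nat.factorial_le_pow M).trans (Nat.pow_le_pow_left hMy M)
    exact_mod_cast h4
  have h5 : X * (y : ℝ) ≤ ((t + 1 - M : ℕ) : ℝ) := by
    have h6 : ((t + 1 - M : ℕ) : ℝ) = (t : ℝ) + 1 - M := by
      rw [Nat.cast_sub (by omega)]
      push_cast
      ring
    have h7 : (M : ℝ) ≤ (y : ℝ) := by exact_mod_cast hMy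
    have h8 : 2 * (y : ℝ) ≤ (t : ℝ) := by exact_mod_cast h2
    rw [h6]
    nlinarith
  calc X ^ M * (M.factorial : ℝ) ≤ X ^ M * (y : ℝ) ^ M :=
        mul_le_mul_of_nonneg_left h3 (pow_nonneg hX M)
    _ = (X * (y : ℝ)) ^ M := (mul_pow _ _ _).symm
    _ ≤ ((t + 1 - M : ℕ) : ℝ) ^ M := pow_le_pow_left₀ (by positivity) h5 M

theorem PU_four_le (y : ℕ) (hy : 16 ≤ y) : y ^ 4 ≤ 2 ^ y := by
  induction y, hy using Nat.le_induction with
  | base => norm_num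
  | succ k hk ih =>
    have h1 : 4 * (k + 1) ^ 2 ≤ 5 * k ^ 2 := by nlinarith
    have h2 : 16 * (k + 1) ^ 4 ≤ 25 * k ^ 4 := by
      calc 16 * (k + 1) ^ 4 = (4 * (k + 1) ^ 2) ^ 2 := by ring
        _ ≤ (5 * k ^ 2) ^ 2 := Nat.pow_le_pow_left h1 2
        _ = 25 * k ^ 4 := by ring
    have h : (k + 1) ^ 4 ≤ 2 * k ^ 4 := by omega
    calc (k + 1) ^ 4 ≤ 2 * k ^ 4 := h
      _ ≤ 2 * 2 ^ k := Nat.mul_le_mul_left 2 ih
      _ = 2 ^ (k + 1) := by ring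

/-- the parameters for one `y` -/
theorem PU_one (u : ℝ) (hu0 : 1 / 4 ≤ u) (hu1 : u ≤ 1 / 2) (ε η : ℝ) (hη : η = ε / 100)
    (hη0 : 0 < η) (hη1 : η ≤ 1 / 400) (y z : ℕ)
    (hzdef : z = ⌊(y : ℝ) ^ ((1 - 2 * η) / u)⌋₊)
    (hA : (z : ℝ) ^ (1 - η / 2) ≤ ((smU u z).card : ℝ)) (h6 : (6 : ℝ) ≤ (z : ℝ) ^ (η / 2))
    (hlog : Real.log y ≤ (η * Real.log 2 / 8) * (y : ℝ) ^ (2 * η))
    (h4 : (4 : ℝ) ≤ (y : ℝ) ^ η) (hlog2 : Real.log 2 ≤ η * Real.log y) (hy : 16 ≤ y) :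
    ∃ (T : Finset ℕ) (v a z z1 M : ℕ),
      (∀ q ∈ T, q.Prime ∧ z1 < q ∧ q ≤ z ∧ ∀ l : ℕ, l.Prime → l ∣ q - 1 → l ≤ v) ∧
      v ≤ z1 ∧ Nat.log 2 z ≤ a ∧ 8 * T.card ≤ z1 ∧ 8 * T.card ≤ 2 ^ y ∧
      primorial v ^ a * z ^ M ≤ 2 ^ y ∧
      ((2 : ℝ) ^ y) ^ (1 - u - ε) ≤ ((T.card).choose M : ℝ) := by
  have hY : (16 : ℝ) ≤ (y : ℝ) := by exact_mod_cast hy
  have hY0 : (0 : ℝ) < (y : ℝ) := by linarith
  have hY1 : (1 : ℝ) ≤ (y : ℝ) := by linarith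
  have hl2 : 0 < Real.log 2 := Real.log_pos (by norm_num)
  have hLY : 0 < Real.log y := Real.log_pos (by linarith)
  have hupos : 0 < u := by linarith
  set A : ℝ := (1 - 2 * η) / u with hAdef
  have hAu : A * u = 1 - 2 * η := by
    rw [hAdef]
    field_simp
  have hA2 : 2 * (1 - 2 * η) ≤ A := by
    rw [hAdef, le_div_iff₀ hupos]
    nlinarith
  have hA1 : 1 ≤ A := by linarith
  have hA4 : A ≤ 4 := by
    rw [hAdef, div_le_iff₀ hupos]
    linarith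
  set B : ℝ := A + η with hBdef
  have hB5 : B ≤ 5 := by rw [hBdef]; linarith
  have hB0 : 0 < B := by rw [hBdef]; linarith
  set θ : ℝ := A * (1 - 2 * η) - 1 - η with hθdef
  have hθ0 : 0 ≤ θ := by
    rw [hθdef]
    nlinarith
  have hYA : (4 : ℝ) ≤ (y : ℝ) ^ A := by
    have h := Real.self_le_rpow_of_one_le hY1 hA1
    linarith
  have hz_le : (z : ℝ) ≤ (y : ℝ) ^ A := by
    rw [hzdef]
    exact Nat.floor_le (by linarith)
  have hz_ge : (y : ℝ) ^ A / 2 ≤ (z : ℝ) := by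
    have h := Nat.lt_floor_add_one ((y : ℝ) ^ A)
    rw [← hzdef] at h
    linarith
  have hz2 : (2 : ℝ) ≤ (z : ℝ) := by linarith
  have hz1' : 1 ≤ z := by
    have : (1 : ℝ) ≤ (z : ℝ) := by linarith
    exact_mod_cast this
  have hz1 : (1 : ℝ) ≤ (z : ℝ) := by linarith
  have hz0 : (0 : ℝ) < (z : ℝ) := by linarith
  obtain ⟨T, hT1, hT2, hT3⟩ := PU_exists_T u η hη0 hη1 z hz1' hA h6
  set v : ℕ := ⌊(z : ℝ) ^ u⌋₊ with hv
  set z1 : ℕ := ⌊(z : ℝ) ^ (1 - η)⌋₊ with hz1def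
  set a : ℕ := Nat.log 2 z with ha
  set b : ℕ := a + 1 with hb
  set M : ℕ := (y - 2 * v * a) / b with hM
  have hbpos : 0 < b := Nat.succ_pos a
  -- bound for `a`
  have ha1 : (a : ℝ) * Real.log 2 ≤ A * Real.log y := by
    have h1 : 2 ^ a ≤ z := Nat.pow_log_le_self 2 (by omega)
    have h2 : ((2 : ℝ)) ^ a ≤ (y : ℝ) ^ A := by
      refine le_trans ?_ hz_le
      exact_mod_cast h1
    have h3 := Real.log_le_log (by positivity) h2
    rw [Real.log_pow, Real.log_rpow hY0] at h3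
    exact h3
  have hb1 : (b : ℝ) * Real.log 2 ≤ B * Real.log y := by
    rw [hb, hBdef]
    push_cast
    linarith
  have ha2 : (a : ℝ) * Real.log 2 ≤ 4 * Real.log y := by
    have h1 : A * Real.log y ≤ 4 * Real.log y := mul_le_mul_of_nonneg_right hA4 hLY.le
    linarith
  -- bound for `v`
  have hv1 : (v : ℝ) ≤ (y : ℝ) ^ (1 - 2 * η) := by
    have h1 : (v : ℝ) ≤ (z : ℝ) ^ u := Nat.floor_le (by positivity)
    have h2 : (z : ℝ) ^ u ≤ ((y : ℝ) ^ A) ^ u :=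
      Real.rpow_le_rpow hz0.le hz_le hupos.le
    rw [← Real.rpow_mul hY0.le, hAu] at h2
    exact h1.trans h2
  have hva : 2 * (v : ℝ) * (a : ℝ) ≤ η * (y : ℝ) := by
    have h1 : (v : ℝ) * ((a : ℝ) * Real.log 2) ≤ (y : ℝ) ^ (1 - 2 * η) * (4 * Real.log y) :=
      mul_le_mul hv1 ha2 (by positivity) (by positivity)
    have h2 : (y : ℝ) ^ (1 - 2 * η) * (4 * Real.log y) ≤
        (y : ℝ) ^ (1 - 2 * η) * (4 * ((η * Real.log 2 / 8) * (y : ℝ) ^ (2 * η))) :=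
      mul_le_mul_of_nonneg_left (by linarith) (by positivity)
    have h3 : (y : ℝ) ^ (1 - 2 * η) * (4 * ((η * Real.log 2 / 8) * (y : ℝ) ^ (2 * η))) =
        (η * (y : ℝ) / 2) * Real.log 2 := by
      have h4 : (y : ℝ) ^ (1 - 2 * η) * (y : ℝ) ^ (2 * η) = (y : ℝ) := by
        rw [← Real.rpow_add hY0]
        have : 1 - 2 * η + 2 * η = 1 := by ring
        rw [this, Real.rpow_one]
      calc _ = ((y : ℝ) ^ (1 - 2 * η) * (y : ℝ) ^ (2 * η)) * (η * Real.log 2 / 2) := by ring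
        _ = _ := by rw [h4]; ring
    have h5 : ((v : ℝ) * (a : ℝ)) * Real.log 2 ≤ (η * (y : ℝ) / 2) * Real.log 2 := by
      calc ((v : ℝ) * (a : ℝ)) * Real.log 2 = (v : ℝ) * ((a : ℝ) * Real.log 2) := by ring
        _ ≤ _ := h1.trans (h2.trans h3.le)
    have h6 := le_of_mul_le_mul_right h5 hl2
    linarith
  have hva' : 2 * v * a ≤ y := by
    have h1 : ((2 * v * a : ℕ) : ℝ) ≤ (y : ℝ) := by
      push_cast
      nlinarith
    exact_mod_cast h1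
  have hlogy : Real.log y ≤ η * (y : ℝ) * Real.log 2 / 8 := by
    have h1 : (y : ℝ) ^ (2 * η) ≤ (y : ℝ) := by
      calc (y : ℝ) ^ (2 * η) ≤ (y : ℝ) ^ (1 : ℝ) :=
            Real.rpow_le_rpow_of_exponent_le hY1 (by linarith)
        _ = (y : ℝ) := Real.rpow_one _
    have h2 : (η * Real.log 2 / 8) * (y : ℝ) ^ (2 * η) ≤ (η * Real.log 2 / 8) * (y : ℝ) :=
      mul_le_mul_of_nonneg_left h1 (by positivity)
    linarith
  -- bounds for `M`
  have hMb : b * M ≤ y - 2 * v * a := Nat.mul_div_le _ _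
  have hMy : M ≤ y := (Nat.div_le_self _ _).trans (Nat.sub_le _ _)
  have hM1 : (1 - 2 * η) * ((y : ℝ) * Real.log 2) ≤ B * ((M : ℝ) * Real.log y) := by
    have h1 : y - 2 * v * a < b * (M + 1) := Nat.lt_mul_div_succ _ hbpos
    have h2 : y < b * (M + 1) + 2 * v * a := by omega
    have h3 : (y : ℝ) < (b : ℝ) * ((M : ℝ) + 1) + 2 * (v : ℝ) * (a : ℝ) := by exact_mod_cast h2
    have h4 : (1 - η) * (y : ℝ) ≤ (b : ℝ) * ((M : ℝ) + 1) := by linarith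
    have h5 : ((1 - η) * (y : ℝ)) * Real.log 2 ≤ (B * Real.log y) * ((M : ℝ) + 1) := by
      calc ((1 - η) * (y : ℝ)) * Real.log 2 ≤ ((b : ℝ) * ((M : ℝ) + 1)) * Real.log 2 :=
            mul_le_mul_of_nonneg_right h4 hl2.le
        _ = ((b : ℝ) * Real.log 2) * ((M : ℝ) + 1) := by ring
        _ ≤ (B * Real.log y) * ((M : ℝ) + 1) := mul_le_mul_of_nonneg_right hb1 (by positivity)
    have h6 : B * Real.log y ≤ η * ((y : ℝ) * Real.log 2) := by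
      have h7 : B * Real.log y ≤ 5 * Real.log y := mul_le_mul_of_nonneg_right hB5 hLY.le
      have h8 : 0 < η * ((y : ℝ) * Real.log 2) := by positivity
      linarith
    linarith
  -- bounds for the size of `T`
  have ht1 : 2 * ((y : ℝ) * (y : ℝ) ^ θ) ≤ (T.card : ℝ) := by
    refine le_trans ?_ hT2
    have h1 : ((y : ℝ) ^ A / 2) ^ (1 - 2 * η) ≤ (z : ℝ) ^ (1 - 2 * η) :=
      Real.rpow_le_rpow (by positivity) hz_ge (by linarith)
    refine le_trans ?_ h1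
    rw [Real.div_rpow (by positivity) (by norm_num), ← Real.rpow_mul hY0.le]
    have h2 : (2 : ℝ) ^ (1 - 2 * η) ≤ 2 := by
      calc (2 : ℝ) ^ (1 - 2 * η) ≤ (2 : ℝ) ^ (1 : ℝ) :=
            Real.rpow_le_rpow_of_exponent_le (by norm_num) (by linarith)
        _ = 2 := Real.rpow_one _
    have h4' : (y : ℝ) ^ (A * (1 - 2 * η)) = ((y : ℝ) * (y : ℝ) ^ θ) * (y : ℝ) ^ η := by
      have h7 : A * (1 - 2 * η) = 1 + θ + η := by rw [hθdef]; ring
      rw [h7, Real.rpow_add hY0, Real.rpow_add hY0, Real.rpow_one]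
    rw [le_div_iff₀ (by positivity), h4']
    have h5 : (0 : ℝ) < (y : ℝ) * (y : ℝ) ^ θ := by positivity
    calc 2 * ((y : ℝ) * (y : ℝ) ^ θ) * (2 : ℝ) ^ (1 - 2 * η)
        ≤ 2 * ((y : ℝ) * (y : ℝ) ^ θ) * 2 := mul_le_mul_of_nonneg_left h2 (by positivity)
      _ = ((y : ℝ) * (y : ℝ) ^ θ) * 4 := by ring
      _ ≤ ((y : ℝ) * (y : ℝ) ^ θ) * (y : ℝ) ^ η := mul_le_mul_of_nonneg_left h4 h5.le
  have ht2 : 2 * (y : ℝ) * (y : ℝ) ^ θ ≤ (T.card : ℝ) := by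
    refine le_trans (le_of_eq ?_) ht1
    ring
  have ht3 : 2 * y ≤ T.card := by
    have h1 : (1 : ℝ) ≤ (y : ℝ) ^ θ := Real.one_le_rpow hY1 hθ0
    have h2 : ((2 * y : ℕ) : ℝ) ≤ (T.card : ℝ) := by
      push_cast
      nlinarith
    exact_mod_cast h2
  refine ⟨T, v, a, z, z1, M, hT1, ?_, le_refl _, hT3, ?_, ?_, ?_⟩
  · -- `v ≤ z1`
    exact Nat.floor_le_floor (Real.rpow_le_rpow_of_exponent_le hz1 (by linarith))
  · -- `8 T.card ≤ 2 ^ y`
    have h1 : z1 ≤ z := by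
      have h2 : (z1 : ℝ) ≤ (z : ℝ) := by
        calc (z1 : ℝ) ≤ (z : ℝ) ^ (1 - η) := Nat.floor_le (by positivity)
          _ ≤ (z : ℝ) ^ (1 : ℝ) := Real.rpow_le_rpow_of_exponent_le hz1 (by linarith)
          _ = (z : ℝ) := Real.rpow_one _
      exact_mod_cast h2
    have h3 : z ≤ y ^ 4 := by
      have h2 : (z : ℝ) ≤ (y : ℝ) ^ 4 := by
        calc (z : ℝ) ≤ (y : ℝ) ^ A := hz_le
          _ ≤ (y : ℝ) ^ (4 : ℝ) := Real.rpow_le_rpow_of_exponent_le hY1 hA4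
          _ = (y : ℝ) ^ 4 := by norm_cast
      exact_mod_cast h2
    exact hT3.trans (h1.trans (h3.trans (PU_four_le y hy)))
  · -- the product
    have h1 : primorial v ^ a ≤ 2 ^ (2 * v * a) := by
      calc primorial v ^ a ≤ (4 ^ v) ^ a := Nat.pow_le_pow_left (primorial_le_four_pow v) a
        _ = 2 ^ (2 * v * a) := by
          have h0 : (4 : ℕ) ^ v = 2 ^ (2 * v) := by
            rw [pow_mul]; norm_num
          rw [h0, ← pow_mul]
    have h2 : z ^ M ≤ 2 ^ (b * M) := by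
      have h3 : z < 2 ^ b := Nat.lt_pow_succ_log_self (by norm_num) z
      calc z ^ M ≤ (2 ^ b) ^ M := Nat.pow_le_pow_left h3.le M
        _ = 2 ^ (b * M) := (pow_mul _ _ _).symm
    calc primorial v ^ a * z ^ M ≤ 2 ^ (2 * v * a) * 2 ^ (b * M) := Nat.mul_le_mul h1 h2
      _ = 2 ^ (2 * v * a + b * M) := (pow_add _ _ _).symm
      _ ≤ 2 ^ y := Nat.pow_le_pow_right (by norm_num) (by omega)
  · -- the binomial coefficient
    refine le_trans ?_ (PU_choose T.card M y ((y : ℝ) ^ θ) (by positivity) hMy ht2 ht3)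
    rw [← Real.rpow_natCast, ← Real.rpow_mul (by norm_num), ← Real.rpow_natCast,
      ← Real.rpow_mul hY0.le, Real.rpow_def_of_pos (by norm_num), Real.rpow_def_of_pos hY0,
      Real.exp_le_exp]
    have hkey : (1 - u - ε) * B ≤ θ * (1 - 2 * η) := by
      have h1 : ε = 100 * η := by rw [hη]; ring
      have h2 : (1 - u - ε) * B = A - (1 - 2 * η) - 100 * (η * A) + η * (1 - u) - 100 * (η * η) := by
        rw [h1, hBdef]
        linear_combination (-1 : ℝ) * hAu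
      have h3 : θ * (1 - 2 * η) = A - 4 * (η * A) + 4 * ((η * η) * A) - 1 + η + 2 * (η * η) := by
        rw [hθdef]
        ring
      rw [h2, h3]
      have h4 : η * 1 ≤ η * A := mul_le_mul_of_nonneg_left hA1 hη0.le
      have h5 : 0 ≤ (η * η) * A := by positivity
      have h6 : 0 ≤ η * u := by positivity
      have h7 : 0 ≤ η * η := by positivity
      nlinarith
    have h1 : (1 - u - ε) * ((y : ℝ) * Real.log 2) ≤ θ * ((M : ℝ) * Real.log y) := by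
      have hp : 0 < (y : ℝ) * Real.log 2 := by positivity
      have h2 : ((1 - u - ε) * ((y : ℝ) * Real.log 2)) * B ≤ (θ * ((M : ℝ) * Real.log y)) * B := by
        calc ((1 - u - ε) * ((y : ℝ) * Real.log 2)) * B
            = ((1 - u - ε) * B) * ((y : ℝ) * Real.log 2) := by ring
          _ ≤ (θ * (1 - 2 * η)) * ((y : ℝ) * Real.log 2) := mul_le_mul_of_nonneg_right hkey hp.le
          _ = θ * ((1 - 2 * η) * ((y : ℝ) * Real.log 2)) := by ring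
          _ ≤ θ * (B * ((M : ℝ) * Real.log y)) := mul_le_mul_of_nonneg_left hM1 hθ0
          _ = (θ * ((M : ℝ) * Real.log y)) * B := by ring
      exact le_of_mul_le_mul_right h2 hB0
    calc Real.log 2 * ((y : ℝ) * (1 - u - ε)) = (1 - u - ε) * ((y : ℝ) * Real.log 2) := by ring
      _ ≤ θ * ((M : ℝ) * Real.log y) := h1
      _ = Real.log y * (θ * (M : ℝ)) := by ring

theorem paramsU (u : ℝ) (hu0 : 1 / 4 ≤ u) (hu1 : u ≤ 1 / 2)
    (hA : ∀ ε : ℝ, 0 < ε → ∀ᶠ z : ℕ in atTop, (z : ℝ) ^ (1 - ε) ≤ ((smU u z).card : ℝ))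
    (ε : ℝ) (hε : 0 < ε) :
    ∀ᶠ y : ℕ in atTop, ∃ (T : Finset ℕ) (v a z z1 M : ℕ),
      (∀ q ∈ T, q.Prime ∧ z1 < q ∧ q ≤ z ∧ ∀ l : ℕ, l.Prime → l ∣ q - 1 → l ≤ v) ∧
      v ≤ z1 ∧ Nat.log 2 z ≤ a ∧ 8 * T.card ≤ z1 ∧ 8 * T.card ≤ 2 ^ y ∧
      primorial v ^ a * z ^ M ≤ 2 ^ y ∧
      ((2 : ℝ) ^ y) ^ (1 - u - ε) ≤ ((T.card).choose M : ℝ) := by
  set ε' : ℝ := min ε (1 / 4) with hε'
  have hε0 : 0 < ε' := lt_min hε (by norm_num)
  have hε1 : ε' ≤ 1 / 4 := min_le_right _ _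
  have hε2 : ε' ≤ ε := min_le_left _ _
  set η : ℝ := ε' / 100 with hη
  have hη0 : 0 < η := by rw [hη]; positivity
  have hη1 : η ≤ 1 / 400 := by rw [hη]; linarith
  have hupos : 0 < u := by linarith
  have hApos : 0 < (1 - 2 * η) / u := div_pos (by linarith) hupos
  have hl2 : 0 < Real.log 2 := Real.log_pos (by norm_num)
  have tc : Tendsto (fun y : ℕ => (y : ℝ)) atTop atTop := tendsto_natCast_atTop_atTop
  have tz : Tendsto (fun y : ℕ => ⌊(y : ℝ) ^ ((1 - 2 * η) / u)⌋₊) atTop atTop :=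
    tendsto_nat_floor_atTop.comp ((tendsto_rpow_atTop hApos).comp tc)
  have e1 : ∀ᶠ y : ℕ in atTop, ((⌊(y : ℝ) ^ ((1 - 2 * η) / u)⌋₊ : ℕ) : ℝ) ^ (1 - η / 2) ≤
      ((smU u ⌊(y : ℝ) ^ ((1 - 2 * η) / u)⌋₊).card : ℝ) :=
    tz.eventually (hA (η / 2) (by positivity))
  have e2 : ∀ᶠ y : ℕ in atTop,
      (6 : ℝ) ≤ ((⌊(y : ℝ) ^ ((1 - 2 * η) / u)⌋₊ : ℕ) : ℝ) ^ (η / 2) :=
    ((tendsto_rpow_atTop (by positivity)).comp
      (tendsto_natCast_atTop_atTop.comp tz)).eventually_ge_atTop 6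
  have e3 : ∀ᶠ y : ℕ in atTop,
      Real.log y ≤ (η * Real.log 2 / 8) * (y : ℝ) ^ (2 * η) := by
    have h1 := (isLittleO_log_rpow_atTop (r := 2 * η) (by positivity)).bound
      (c := η * Real.log 2 / 8) (by positivity)
    have h2 := tc.eventually h1
    filter_upwards [h2, eventually_ge_atTop 1] with y hy hy1
    have hY1 : (1 : ℝ) ≤ (y : ℝ) := by exact_mod_cast hy1
    rw [Real.norm_of_nonneg (Real.log_nonneg hY1), Real.norm_of_nonneg (by positivity)] at hy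
    exact hy
  have e4 : ∀ᶠ y : ℕ in atTop, (4 : ℝ) ≤ (y : ℝ) ^ η :=
    ((tendsto_rpow_atTop hη0).comp tc).eventually_ge_atTop 4
  have e5 : ∀ᶠ y : ℕ in atTop, Real.log 2 ≤ η * Real.log y := by
    have h1 := (Real.tendsto_log_atTop.comp tc).eventually_ge_atTop (Real.log 2 / η)
    filter_upwards [h1] with y hy
    have h2 : Real.log 2 / η ≤ Real.log y := hy
    rw [div_le_iff₀ (by positivity)] at h2
    linarith
  filter_upwards [e1, e2, e3, e4, e5, eventually_ge_atTop 16] with y h1 h2 h3 h4 h5 h6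
  obtain ⟨T, v, a, z, z1, M, g1, g2, g3, g4, g5, g6, g7⟩ :=
    PU_one u hu0 hu1 ε' η hη hη0 hη1 y _ rfl h1 h2 h3 h4 h5 h6
  refine ⟨T, v, a, z, z1, M, g1, g2, g3, g4, g5, g6, le_trans ?_ g7⟩
  refine Real.rpow_le_rpow_of_exponent_le ?_ (by linarith)
  exact one_le_pow₀ (by norm_num)

end Pool.Agent.Lib.MP_3e329f_nt
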