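import Mathlib

/-!
# Every power of two is a value of `2^(n+2) mod n`

For `d ≥ 1` with odd part `t` and a large prime `p ≡ 1 (mod φ(t))` one has
`2^(d p + 2) mod (d p) = 2^(d+2)`; the exponents `0, 1, 2` are done by `n = 7, 3, 6`.
-/

namespace Pool.Agent.Lib.MP_3e329f_nt.PowersOfTwo

/-- `a(n) = 2^(n+2) mod n`, the least nonnegative remainder. -/
def a (n : ℕ) : ℕ := 2 ^ (n + 2) % n

/-- Every power of two is a value. -/
lemma pow_two_value (j : ℕ) : ∃ n : ℕ, 1 ≤ n ∧ a n = 2 ^ j := by
  rcases Nat.lt_or_ge j 3 with hj | hj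
  · interval_cases j
    · exact ⟨7, by norm_num, by norm_num [a]⟩
    · exact ⟨3, by norm_num, by norm_num [a]⟩
    · exact ⟨6, by norm_num, by norm_num [a]⟩
  · obtain ⟨d, rfl⟩ : ∃ d, j = d + 2 := ⟨j - 2, by omega⟩
    have hd : d ≠ 0 := by omega
    obtain ⟨s, t, ht, hdst⟩ := Nat.exists_eq_two_pow_mul_odd hd
    have htpos : 0 < t := ht.pos
    have hφ : Nat.totient t ≠ 0 := (Nat.totient_pos.mpr htpos).ne'
    obtain ⟨p, hp, hpgt, hp1⟩ := Nat.exists_prime_gt_modEq_one (2 ^ (d + 2)) hφ
    have hdlt : d < 2 ^ (d + 2) := lt_of_lt_of_le (Nat.lt_two_pow_self) (Nat.pow_le_pow_right (by norm_num) (by omega))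
    have hdp : d < p := hdlt.trans hpgt
    have hcop : Nat.Coprime d p := by
      rw [Nat.coprime_comm, Nat.Prime.coprime_iff_not_dvd hp]
      intro h
      have := Nat.le_of_dvd (by omega) h
      omega
    have : Fact p.Prime := ⟨hp⟩
    refine ⟨d * p, Nat.mul_pos (by omega) hp.pos, ?_⟩
    have hmod : 2 ^ (d * p + 2) ≡ 2 ^ (d + 2) [MOD (d * p)] := by
      rw [← Nat.modEq_and_modEq_iff_modEq_mul hcop]
      constructor
      · -- modulo `d`
        have hle : d + 2 ≤ d * p + 2 := by
          have := Nat.le_mul_of_pos_right d hp.pos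
          omega
        apply Nat.ModEq.symm
        rw [Nat.modEq_iff_dvd' (Nat.pow_le_pow_right (by norm_num) hle)]
        obtain ⟨u, hu⟩ : Nat.totient t ∣ p - 1 := (Nat.modEq_iff_dvd' hp.one_le).mp hp1.symm
        have hexp : d * p + 2 = (d + 2) + d * (p - 1) := by
          have : p = (p - 1) + 1 := by have := hp.one_le; omega
          conv_lhs => rw [this]
          ring
        have hfac : 2 ^ (d * p + 2) - 2 ^ (d + 2) = 2 ^ (d + 2) * (2 ^ (d * (p - 1)) - 1) := by
          generalize d * (p - 1) = w at hexp ⊢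
          rw [hexp, pow_add 2 (d + 2) w, Nat.mul_sub (2 ^ (d + 2)) (2 ^ w) 1, mul_one]
        rw [hfac]
        conv_lhs => rw [hdst]
        apply Nat.mul_dvd_mul
        · apply pow_dvd_pow
          have h1 : s < 2 ^ s := Nat.lt_two_pow_self
          have h2 : 2 ^ s ≤ d := by rw [hdst]; exact Nat.le_mul_of_pos_right _ htpos
          omega
        · have h3 : 2 ^ (d * (p - 1)) ≡ 1 [MOD t] := by
            have h4 : 2 ^ Nat.totient t ≡ 1 [MOD t] := Nat.ModEq.pow_totient (by
              rw [Nat.coprime_two_left]; exact ht)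
            have h5 : d * (p - 1) = Nat.totient t * (u * d) := by rw [hu]; ring
            rw [h5, pow_mul]
            have := h4.pow (u * d)
            simpa using this
          exact (Nat.modEq_iff_dvd' Nat.one_le_two_pow).mp h3.symm
      · rw [← ZMod.natCast_eq_natCast_iff]
        push_cast
        rw [pow_add, pow_add, pow_mul, ZMod.pow_card]
    have h7 := hmod
    unfold Nat.ModEq at h7
    unfold a
    rw [h7, Nat.mod_eq_of_lt]
    calc 2 ^ (d + 2) < p := hpgt
      _ ≤ d * p := Nat.le_mul_of_pos_left p (by omega)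

/-- **Result.** For every `j ≥ 0` there is `n ≥ 1` with `2^(n+2) mod n = 2^j`. -/
theorem powers_of_two : ∀ j : ℕ, ∃ n : ℕ, 1 ≤ n ∧ a n = 2 ^ j := pow_two_value

end Pool.Agent.Lib.MP_3e329f_nt.PowersOfTwo
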