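import Pool.Agent.Lib.MP_3e329f_nt.Count

set_option autoImplicit false

/-!
Several `n` for each `k`, with a bound for `n`.
-/

namespace Pool.Agent.Lib.MP_3e329f_nt.Many

open Pool.Agent.Lib.MP_3e329f_nt (Good pow_step)

/-- There are `N` integers `1 ≤ n ≤ B` with `2^(n+2) mod n = k`. -/
def Rich (N B k : ℕ) : Prop :=
  ∃ F : Finset ℕ, F.card = N ∧ ∀ n ∈ F, 1 ≤ n ∧ n ≤ B ∧ 2 ^ (n + 2) % n = k

lemma Rich.mono {N B B' k : ℕ} (h : Rich N B k) (hB : B ≤ B') : Rich N B' k := by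
  obtain ⟨F, hF, h⟩ := h
  exact ⟨F, hF, fun n hn => ⟨(h n hn).1, (h n hn).2.1.trans hB, (h n hn).2.2⟩⟩

lemma value_eq {m p k : ℕ} (hg : Good m) (hp : p.Prime) (hp2 : p ≠ 2)
    (hpm : Nat.Coprime m p) (hkm : k ≡ 2 ^ (m + 2) [MOD m]) (hkp : k ≡ 2 ^ (m + 2) [MOD p])
    (hk : k < m * p) : 2 ^ (m * p + 2) % (m * p) = k := by
  have h1 : 2 ^ (m * p + 2) = 2 ^ (m * (p - 1)) * 2 ^ (m + 2) := by
    rw [← pow_add]
    congr 1
    obtain ⟨q, rfl⟩ : ∃ q, p = q + 1 := ⟨p - 1, by have := hp.pos; omega⟩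
    simp only [Nat.add_sub_cancel]
    ring
  have h2 : 2 ^ (m * p + 2) ≡ k [MOD m] := by
    rw [h1]
    exact (pow_step hg (p - 1)).trans hkm.symm
  have h3 : 2 ^ (m * p + 2) ≡ k [MOD p] := by
    have h4 : 2 ^ (p - 1) ≡ 1 [MOD p] := by
      have hc : Nat.Coprime 2 p := by
        rw [Nat.coprime_primes Nat.prime_two hp]
        exact fun h => hp2 h.symm
      have := Nat.ModEq.pow_totient hc
      rwa [Nat.totient_prime hp] at this
    rw [h1, mul_comm m (p - 1), pow_mul]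
    have := (h4.pow m).mul hkp.symm
    simpa using this
  have h4 : 2 ^ (m * p + 2) ≡ k [MOD m * p] :=
    (Nat.modEq_and_modEq_iff_modEq_mul hpm).mp ⟨h2, h3⟩
  have h5 : 2 ^ (m * p + 2) % (m * p) = k % (m * p) := h4
  rw [h5, Nat.mod_eq_of_lt hk]

end Pool.Agent.Lib.MP_3e329f_nt.Many
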