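import Mathlib

set_option autoImplicit false

/-!
Primes `q` such that `q - 1` has only small prime factors.
-/

namespace Pool.Agent.Lib.MP_3e329f_nt

open Finset Filter

/-- The primes `q ≤ z` such that all prime factors of `q - 1` are `≤ z^(1/2+ε)`. -/
noncomputable def sm (ε : ℝ) (z : ℕ) : Finset ℕ := by
  classical exact (range (z + 1)).filter (fun q => q.Prime ∧
    ∀ l : ℕ, l.Prime → l ∣ q - 1 → (l : ℝ) ≤ (z : ℝ) ^ (1 / 2 + ε))

end Pool.Agent.Lib.MP_3e329f_nt
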