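import Pool.Agent.Lib.MP_0da313_nt.CM.P.bv
import Pool.Agent.Lib.MP_0da313_nt.CM.B
import Pool.Agent.Lib.MP_0da313_nt.CM.M
import Pool.Agent.Lib.MP_3e329f_nt.Sm

set_option autoImplicit false

/-!
Many primes `q ≤ z` such that all prime factors of `q - 1` are `≤ z^(1/2+ε)` (helper49).
-/

namespace Pool.Agent.Lib.MP_3e329f_nt

open Finset Filter

open Pool.Agent.CM (wd sA sT er BVc CP mu)
open Pool.Agent.CH (thP)

theorem thP_nonneg' (n : ℕ) : 0 ≤ thP n := by
  unfold thP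
  split_ifs
  · exact Real.log_natCast_nonneg n
  · exact le_rfl

theorem thP_le' {n N : ℕ} (hn : n ≤ N) : thP n ≤ Real.log N := by
  unfold thP
  split_ifs with h
  · exact Real.log_le_log (by exact_mod_cast h.pos) (by exact_mod_cast hn)
  · exact Real.log_natCast_nonneg N

theorem wd_nonneg' (lam X : ℝ) (n : ℕ) : 0 ≤ wd lam X n := Pool.Agent.MP89da58.tri_nonneg _

theorem wd_le_one' (lam X : ℝ) (n : ℕ) : wd lam X n ≤ 1 := Pool.Agent.MP89da58.tri_le_one _

theorem prod_nonneg' (lam X : ℝ) (n : ℕ) : 0 ≤ thP n * wd lam X n :=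
  mul_nonneg (thP_nonneg' n) (wd_nonneg' _ _ _)

theorem prod_le' {lam X : ℝ} {n N : ℕ} (hn : n ≤ N) : thP n * wd lam X n ≤ Real.log N :=
  (mul_le_mul (thP_le' hn) (wd_le_one' _ _ _) (wd_nonneg' _ _ _)
    (Real.log_natCast_nonneg N)).trans (by rw [mul_one])

/-- lower bound for the mass -/
theorem sT_lower (hm1 : Pool.Agent.CM.M.R_m1) (hmu : Pool.Agent.CM.M.R_mu) :
    ∀ᶠ X : ℝ in atTop, X / 2 ≤ sT (fun n => thP n * wd 1 X n) ⌊3 * X⌋₊ := by
  have h1 := hm1 1 (1 / 2) le_rfl (by norm_num)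
  have h2 := (hmu 1 le_rfl).1
  filter_upwards [h1, eventually_ge_atTop (0 : ℝ)] with X hX hX0
  rw [abs_le] at hX
  have h3 : X ≤ mu 1 * X := by
    have : 1 ≤ mu 1 := by simpa using h2
    nlinarith
  unfold sT
  linarith [hX.1]

/-- Chebyshev's lower bound, from the mass of a window -/
theorem cheb (hm1 : Pool.Agent.CM.M.R_m1) (hmu : Pool.Agent.CM.M.R_mu) :
    ∀ᶠ W : ℝ in atTop, W / (6 * Real.log W) ≤ (((Icc 1 ⌊W⌋₊).filter Nat.Prime).card : ℝ) := by
  have h1 := sT_lower hm1 hmu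
  have h2 : Tendsto (fun W : ℝ => W / 3) atTop atTop := tendsto_id.atTop_div_const (by norm_num)
  filter_upwards [h2.eventually h1, eventually_ge_atTop (3 : ℝ)] with W hW hW3
  have e1 : 3 * (W / 3) = W := by ring
  rw [e1] at hW
  have hlog : 0 < Real.log W := Real.log_pos (by linarith)
  have h3 : sT (fun n => thP n * wd 1 (W / 3) n) ⌊W⌋₊ ≤
      (((Icc 1 ⌊W⌋₊).filter Nat.Prime).card : ℝ) * Real.log W := by
    unfold sT
    have h4 : ∑ n ∈ Icc 1 ⌊W⌋₊, thP n * wd 1 (W / 3) n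
        = ∑ n ∈ (Icc 1 ⌊W⌋₊).filter Nat.Prime, thP n * wd 1 (W / 3) n := by
      rw [sum_filter]
      apply sum_congr rfl
      intro n _
      by_cases h : n.Prime
      · simp [h]
      · simp [h, thP]
    rw [h4]
    calc ∑ n ∈ (Icc 1 ⌊W⌋₊).filter Nat.Prime, thP n * wd 1 (W / 3) n
        ≤ ∑ _n ∈ (Icc 1 ⌊W⌋₊).filter Nat.Prime, Real.log W := by
          apply sum_le_sum
          intro n hn
          rw [mem_filter, mem_Icc] at hn
          refine (prod_le' hn.1.2).trans ?_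
          apply Real.log_le_log
          · have : 1 ≤ ⌊W⌋₊ := hn.1.1.trans hn.1.2
            exact_mod_cast this
          · exact Nat.floor_le (by linarith)
      _ = _ := by rw [sum_const, nsmul_eq_mul]
  rw [div_le_iff₀ (by positivity)]
  nlinarith


theorem omega_le' {m z : ℕ} (hm : m ≠ 0) (hmz : m ≤ z) :
    (m.primeFactors.card : ℝ) ≤ 2 * Real.log z := by
  have h1 : 2 ^ m.primeFactors.card ≤ m := by
    calc 2 ^ m.primeFactors.card ≤ ∏ p ∈ m.primeFactors, p :=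
          Finset.pow_card_le_prod _ _ _ (fun p hp => (Nat.prime_of_mem_primeFactors hp).two_le)
      _ ≤ m := Nat.le_of_dvd (Nat.pos_of_ne_zero hm) (Nat.prod_primeFactors_dvd m)
  have h2 : ((2 : ℝ)) ^ m.primeFactors.card ≤ z := by exact_mod_cast h1.trans hmz
  have h3 := Real.log_le_log (by positivity) h2
  rw [Real.log_pow] at h3
  have h4 := Real.log_two_gt_d9
  have h5 : (0 : ℝ) ≤ m.primeFactors.card := Nat.cast_nonneg _
  nlinarith

theorem mem_sm_of {ε V W : ℝ} {z n l : ℕ} (hn : n.Prime) (hnz : n ≤ z) (hl : l.Prime)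
    (hV : 0 < V) (hVl : V < l) (hlW : (l : ℝ) ≤ W) (hW : W ≤ (z : ℝ) ^ (1 / 2 + ε))
    (hz : (z : ℝ) / V ≤ (z : ℝ) ^ (1 / 2 + ε)) (hd : l ∣ n - 1) : n ∈ sm ε z := by
  classical
  unfold sm
  rw [mem_filter, mem_range]
  refine ⟨by omega, hn, ?_⟩
  intro l' hl' hd'
  by_cases h : l' = l
  · subst h
    exact hlW.trans hW
  · have hco : Nat.Coprime l' l := (Nat.coprime_primes hl' hl).2 h
    have h1 : l' * l ∣ n - 1 := Nat.Coprime.mul_dvd_of_dvd_of_dvd hco hd' hd
    have hn2 := hn.two_le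
    have h2 : l' * l ≤ n - 1 := Nat.le_of_dvd (by omega) h1
    have h3 : ((l' * l : ℕ) : ℝ) ≤ z := by
      exact_mod_cast (show l' * l ≤ z by omega)
    push_cast at h3
    refine le_trans ?_ hz
    rw [le_div_iff₀ hV]
    have h4 : (0 : ℝ) ≤ l' := Nat.cast_nonneg _
    calc (l' : ℝ) * V ≤ l' * l := mul_le_mul_of_nonneg_left hVl.le h4
      _ ≤ z := h3

theorem sum_upper {ε V W lam X : ℝ} {z : ℕ} (P : Finset ℕ)
    (hP : ∀ l ∈ P, l.Prime ∧ V < l ∧ (l : ℝ) ≤ W) (hV : 0 < V)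
    (hW : W ≤ (z : ℝ) ^ (1 / 2 + ε)) (hz : (z : ℝ) / V ≤ (z : ℝ) ^ (1 / 2 + ε)) :
    ∑ l ∈ P, sA (fun n => thP n * wd lam X n) z l 1 ≤
      ((sm ε z).card : ℝ) * (2 * Real.log z * Real.log z) := by
  classical
  have hlog : 0 ≤ Real.log (z : ℝ) := Real.log_natCast_nonneg z
  have h1 : ∑ l ∈ P, sA (fun n => thP n * wd lam X n) z l 1
      = ∑ n ∈ Icc 1 z, ((P.filter (fun l => n ≡ 1 [MOD l])).card : ℝ) * (thP n * wd lam X n) := by
    unfold sA
    simp only [sum_filter]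
    rw [sum_comm]
    apply sum_congr rfl
    intro n _
    rw [← sum_filter, sum_const, nsmul_eq_mul]
  rw [h1]
  have h2 : ∀ n ∈ Icc 1 z, ((P.filter (fun l => n ≡ 1 [MOD l])).card : ℝ) * (thP n * wd lam X n)
      ≤ if n ∈ sm ε z then 2 * Real.log z * Real.log z else 0 := by
    intro n hn
    rw [mem_Icc] at hn
    by_cases hp : n.Prime
    · by_cases hne : (P.filter (fun l => n ≡ 1 [MOD l])).Nonempty
      · obtain ⟨l, hl⟩ := hne
        rw [mem_filter] at hl
        obtain ⟨hlp, hVl, hlW⟩ := hP l hl.1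
        have hd : l ∣ n - 1 := (Nat.modEq_iff_dvd' hn.1).1 hl.2.symm
        rw [if_pos (mem_sm_of hp hn.2 hlp hV hVl hlW hW hz hd)]
        have hn2 := hp.two_le
        have h3 : P.filter (fun l => n ≡ 1 [MOD l]) ⊆ (n - 1).primeFactors := by
          intro k hk
          rw [mem_filter] at hk
          rw [Nat.mem_primeFactors]
          exact ⟨(hP k hk.1).1, (Nat.modEq_iff_dvd' hn.1).1 hk.2.symm, by omega⟩
        have h4 : ((P.filter (fun l => n ≡ 1 [MOD l])).card : ℝ) ≤ 2 * Real.log z :=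
          (Nat.cast_le.2 (card_le_card h3)).trans (omega_le' (by omega) (by omega))
        exact mul_le_mul h4 (prod_le' hn.2) (prod_nonneg' _ _ _) (by positivity)
      · rw [not_nonempty_iff_eq_empty] at hne
        rw [hne]
        simp only [card_empty, Nat.cast_zero, zero_mul]
        split_ifs
        · positivity
        · exact le_rfl
    · have : thP n = 0 := by simp [thP, hp]
      rw [this]
      simp only [zero_mul, mul_zero]
      split_ifs
      · positivity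
      · exact le_rfl
  refine (sum_le_sum h2).trans ?_
  rw [← sum_filter, sum_const, nsmul_eq_mul]
  apply mul_le_mul_of_nonneg_right _ (by positivity)
  apply Nat.cast_le.2
  apply card_le_card
  intro n hn
  exact (mem_filter.1 hn).2

theorem sum_lower {V W T E : ℝ} {N Y : ℕ} (h : ℕ → ℝ) (hW : 0 < W)
    (hY : Y = ⌊W⌋₊)
    (hT : T ≤ sT h N) (hT0 : 0 ≤ T)
    (hE : ∑ q ∈ (Icc 1 Y).filter Squarefree, er h N q 1 ≤ E) :
    (((Ioc ⌊V⌋₊ ⌊W⌋₊).filter Nat.Prime).card : ℝ) * (T / W) - E ≤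
      ∑ l ∈ (Ioc ⌊V⌋₊ ⌊W⌋₊).filter Nat.Prime, sA h N l 1 := by
  set P := (Ioc ⌊V⌋₊ ⌊W⌋₊).filter Nat.Prime with hP
  have h1 : ∑ l ∈ P, er h N l 1 ≤ E := by
    refine le_trans ?_ hE
    apply sum_le_sum_of_subset_of_nonneg
    · intro l hl
      rw [hP, mem_filter, mem_Ioc] at hl
      rw [mem_filter, mem_Icc, hY]
      exact ⟨⟨by omega, hl.1.2⟩, hl.2.squarefree⟩
    · intro q _ _
      exact abs_nonneg _
  have h2 : ∀ l ∈ P, T / W - er h N l 1 ≤ sA h N l 1 := by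
    intro l hl
    rw [hP, mem_filter, mem_Ioc] at hl
    have hφ : (0 : ℝ) < Nat.totient l := by exact_mod_cast Nat.totient_pos.2 hl.2.pos
    have hφ2 : (Nat.totient l : ℝ) ≤ W := by
      have e1 : Nat.totient l ≤ l := Nat.totient_le l
      have e2 : (l : ℝ) ≤ W := (Nat.cast_le.2 hl.1.2).trans (Nat.floor_le hW.le)
      exact (Nat.cast_le.2 e1).trans e2
    have h3 : T / W ≤ sT h N / (Nat.totient l : ℝ) := by
      calc T / W ≤ T / (Nat.totient l : ℝ) := div_le_div_of_nonneg_left hT0 hφ hφ2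
        _ ≤ _ := div_le_div_of_nonneg_right hT hφ.le
    have h4 : -(er h N l 1) ≤ sA h N l 1 - sT h N / (Nat.totient l : ℝ) := by
      unfold er
      exact neg_abs_le _
    linarith
  have h5 := sum_le_sum h2
  rw [sum_sub_distrib, sum_const, nsmul_eq_mul] at h5
  linarith

theorem card_lower {V W : ℝ} (hV : 0 ≤ V) :
    (((Icc 1 ⌊W⌋₊).filter Nat.Prime).card : ℝ) - V ≤
      (((Ioc ⌊V⌋₊ ⌊W⌋₊).filter Nat.Prime).card : ℝ) := by
  classical
  have h1 : (Icc 1 ⌊W⌋₊).filter Nat.Prime ⊆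
      (Ioc ⌊V⌋₊ ⌊W⌋₊).filter Nat.Prime ∪ Icc 1 ⌊V⌋₊ := by
    intro n hn
    rw [mem_filter, mem_Icc] at hn
    rw [mem_union, mem_filter, mem_Ioc, mem_Icc]
    by_cases h : n ≤ ⌊V⌋₊
    · exact Or.inr ⟨hn.1.1, h⟩
    · exact Or.inl ⟨⟨by omega, hn.1.2⟩, hn.2⟩
  have h2 := (card_le_card h1).trans (card_union_le _ _)
  rw [Nat.card_Icc, Nat.add_sub_cancel] at h2
  have h3 : (((Icc 1 ⌊W⌋₊).filter Nat.Prime).card : ℝ) ≤
      (((Ioc ⌊V⌋₊ ⌊W⌋₊).filter Nat.Prime).card : ℝ) + (⌊V⌋₊ : ℝ) := by exact_mod_cast h2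
  have h4 := Nat.floor_le hV
  linarith

/-- Paper proof: see the docstring of the statement (helper17). -/
theorem smoothShift (hBV : Pool.Agent.CM.BVc Pool.Agent.CM.CP 1)
    (hm1 : Pool.Agent.CM.M.R_m1) (hmu : Pool.Agent.CM.M.R_mu) (ε : ℝ) (hε : 0 < ε) :
    ∀ᶠ z : ℕ in atTop, (z : ℝ) ^ (1 - ε) ≤ ((sm ε z).card : ℝ) := by
  obtain ⟨δ, hδ⟩ : ∃ δ, δ = min (ε / 4) (1 / 8) := ⟨_, rfl⟩
  have hδ0 : 0 < δ := by rw [hδ]; exact lt_min (by linarith) (by norm_num)
  have hδ1 : δ ≤ ε / 4 := by rw [hδ]; exact min_le_left _ _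
  have hδ2 : δ ≤ 1 / 8 := by rw [hδ]; exact min_le_right _ _
  have hbv := hBV 2 1 1 δ le_rfl hδ0
  have hmass := sT_lower hm1 hmu
  have hWt : Tendsto (fun X : ℝ => X ^ (1 / 2 - δ)) atTop atTop :=
    tendsto_rpow_atTop (by linarith)
  have hch := hWt.eventually (cheb hm1 hmu)
  have hW3 := hWt.eventually (eventually_ge_atTop (3 : ℝ))
  have hlogX : ∀ᶠ X : ℝ in atTop, 48 ≤ Real.log X :=
    Real.tendsto_log_atTop.eventually (eventually_ge_atTop _)
  have hpow : ∀ᶠ X : ℝ in atTop, 12 * Real.log X ≤ X ^ δ := by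
    have h1 := (isLittleO_log_rpow_atTop hδ0).bound (show (0 : ℝ) < 1 / 12 by norm_num)
    filter_upwards [h1, eventually_ge_atTop (1 : ℝ)] with X hX hX1
    rw [Real.norm_of_nonneg (Real.log_nonneg hX1), Real.norm_of_nonneg (by positivity)] at hX
    linarith
  have hX3 : Tendsto (fun z : ℕ => (z : ℝ) / 3) atTop atTop :=
    tendsto_natCast_atTop_atTop.atTop_div_const (by norm_num)
  have hpz : ∀ᶠ z : ℕ in atTop, 3 ≤ (z : ℝ) ^ (ε / 2) :=
    ((tendsto_rpow_atTop (show 0 < ε / 2 by linarith)).comp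
      tendsto_natCast_atTop_atTop).eventually (eventually_ge_atTop _)
  have hlz : ∀ᶠ z : ℕ in atTop, 288 * (Real.log z) ^ 3 ≤ (z : ℝ) ^ ε := by
    have h1 := (isLittleO_log_rpow_atTop (show 0 < ε / 3 by linarith)).bound
      (show (0 : ℝ) < 1 / 7 by norm_num)
    filter_upwards [tendsto_natCast_atTop_atTop.eventually h1, eventually_ge_atTop 1] with z hz hz1
    have hz1' : (1 : ℝ) ≤ z := by exact_mod_cast hz1
    have hlog := Real.log_nonneg hz1'
    rw [Real.norm_of_nonneg hlog, Real.norm_of_nonneg (by positivity)] at hz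
    have h2 : ((z : ℝ) ^ (ε / 3)) ^ 3 = (z : ℝ) ^ ε := by
      rw [← Real.rpow_natCast, ← Real.rpow_mul (by linarith)]
      congr 1
      push_cast
      ring
    have h3 : 7 * Real.log z ≤ (z : ℝ) ^ (ε / 3) := by linarith
    have h4 : (7 * Real.log z) ^ 3 ≤ ((z : ℝ) ^ (ε / 3)) ^ 3 := by
      apply pow_le_pow_left₀ (by positivity) h3
    rw [h2] at h4
    have h5 : 0 ≤ (Real.log z) ^ 3 := by positivity
    nlinarith
  filter_upwards [hX3.eventually hbv, hX3.eventually hmass, hX3.eventually hch, hX3.eventually hW3,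
    hX3.eventually hlogX, hX3.eventually hpow, hpz, hlz, eventually_ge_atTop 3]
    with z e1 e2 e3 e4 e5 e6 e7 e8 e9
  have hz3 : (3 : ℝ) ≤ z := by exact_mod_cast e9
  have hz0 : (0 : ℝ) < z := by linarith
  obtain ⟨X, hX⟩ : ∃ X : ℝ, X = (z : ℝ) / 3 := ⟨_, rfl⟩
  rw [← hX] at e1 e2 e3 e4 e5 e6
  have hX1 : 1 ≤ X := by rw [hX]; linarith
  have hX0 : 0 < X := by linarith
  have hXz : X ≤ z := by rw [hX]; linarith
  have h3X : ⌊3 * X⌋₊ = z := by
    have : 3 * X = z := by rw [hX]; ring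
    rw [this, Nat.floor_natCast]
  rw [h3X] at e1 e2
  obtain ⟨W, hW⟩ : ∃ W : ℝ, W = X ^ (1 / 2 - δ) := ⟨_, rfl⟩
  obtain ⟨V, hV⟩ : ∃ V : ℝ, V = X ^ (1 / 2 - 2 * δ) := ⟨_, rfl⟩
  have hV0 : 0 < V := by rw [hV]; positivity
  have hVW : V * X ^ δ = W := by
    rw [hV, hW, ← Real.rpow_add hX0]
    congr 1
    ring
  rw [← hW] at e3 e4
  have hL : 0 < Real.log X := by linarith
  -- the window of primes
  have c1 := card_lower (W := W) hV0.le
  have hlogW : Real.log W ≤ Real.log X := by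
    rw [hW, Real.log_rpow hX0]
    nlinarith
  have hlogW0 : 0 < Real.log W := Real.log_pos (by linarith)
  have c2 : W / (6 * Real.log X) ≤ W / (6 * Real.log W) := by
    apply div_le_div_of_nonneg_left (by linarith) (by positivity)
    linarith
  have c3 : V ≤ W / (12 * Real.log X) := by
    rw [le_div_iff₀ (by positivity), ← hVW]
    exact mul_le_mul_of_nonneg_left e6 hV0.le
  have c4 : W / (12 * Real.log X) ≤ (((Ioc ⌊V⌋₊ ⌊W⌋₊).filter Nat.Prime).card : ℝ) := by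
    have : W / (6 * Real.log X) = W / (12 * Real.log X) + W / (12 * Real.log X) := by
      field_simp
      ring
    linarith
  -- Bombieri-Vinogradov
  have hE : ∑ q ∈ (Icc 1 ⌊W⌋₊).filter Squarefree,
      er (fun n => thP n * wd 1 X n) z q 1 ≤ X / (Real.log X) ^ 2 := by
    have := e1 thP rfl (fun _ => 1) (fun q => Nat.coprime_one_left _)
    simpa [hW] using this
  have low := sum_lower (V := V) (fun n => thP n * wd 1 X n) (by linarith : 0 < W) rfl e2
    (by linarith) hE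
  have up := sum_upper (ε := ε) (V := V) (W := W) (lam := 1) (X := X) (z := z)
    ((Ioc ⌊V⌋₊ ⌊W⌋₊).filter Nat.Prime)
    (by
      intro l hl
      rw [mem_filter, mem_Ioc] at hl
      exact ⟨hl.2, Nat.lt_of_floor_lt hl.1.1, (Nat.cast_le.2 hl.1.2).trans (Nat.floor_le (by linarith))⟩)
    hV0
    (by
      rw [hW]
      calc X ^ (1 / 2 - δ) ≤ (z : ℝ) ^ (1 / 2 - δ) :=
            Real.rpow_le_rpow hX0.le hXz (by linarith)
        _ ≤ (z : ℝ) ^ (1 / 2 + ε) :=
            Real.rpow_le_rpow_of_exponent_le (by linarith) (by linarith))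
    (by
      rw [div_le_iff₀ hV0]
      have f1 : (z : ℝ) = 3 * X := by rw [hX]; ring
      have f2 : (z : ℝ) ^ (1 / 2 - 2 * δ) ≤ 3 * V := by
        rw [f1, Real.mul_rpow (by norm_num) hX0.le, ← hV]
        apply mul_le_mul_of_nonneg_right _ hV0.le
        calc (3 : ℝ) ^ (1 / 2 - 2 * δ) ≤ (3 : ℝ) ^ (1 : ℝ) :=
              Real.rpow_le_rpow_of_exponent_le (by norm_num) (by linarith)
          _ = 3 := Real.rpow_one 3
      have f3 : (z : ℝ) = (z : ℝ) ^ (1 / 2 + 2 * δ) * (z : ℝ) ^ (1 / 2 - 2 * δ) := by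
        rw [← Real.rpow_add hz0]
        have : (1 / 2 + 2 * δ) + (1 / 2 - 2 * δ) = 1 := by ring
        rw [this, Real.rpow_one]
      have f4 : (z : ℝ) ^ (1 / 2 + 2 * δ) * 3 ≤ (z : ℝ) ^ (1 / 2 + ε) := by
        calc (z : ℝ) ^ (1 / 2 + 2 * δ) * 3 ≤ (z : ℝ) ^ (1 / 2 + 2 * δ) * (z : ℝ) ^ (ε / 2) :=
              mul_le_mul_of_nonneg_left e7 (by positivity)
          _ = (z : ℝ) ^ (1 / 2 + 2 * δ + ε / 2) := (Real.rpow_add hz0 _ _).symm
          _ ≤ (z : ℝ) ^ (1 / 2 + ε) :=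
              Real.rpow_le_rpow_of_exponent_le (by linarith) (by linarith)
      calc (z : ℝ) = (z : ℝ) ^ (1 / 2 + 2 * δ) * (z : ℝ) ^ (1 / 2 - 2 * δ) := f3
        _ ≤ (z : ℝ) ^ (1 / 2 + 2 * δ) * (3 * V) :=
            mul_le_mul_of_nonneg_left f2 (by positivity)
        _ = ((z : ℝ) ^ (1 / 2 + 2 * δ) * 3) * V := by ring
        _ ≤ (z : ℝ) ^ (1 / 2 + ε) * V := mul_le_mul_of_nonneg_right f4 hV0.le)
  -- the main inequality
  have m1 : X / (24 * Real.log X) ≤
      (((Ioc ⌊V⌋₊ ⌊W⌋₊).filter Nat.Prime).card : ℝ) * (X / 2 / W) := by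
    have hW0 : 0 < W := by linarith
    calc X / (24 * Real.log X) = W / (12 * Real.log X) * (X / 2 / W) := by
          field_simp
          ring
      _ ≤ _ := mul_le_mul_of_nonneg_right c4 (by positivity)
  have m2 : X / (Real.log X) ^ 2 ≤ X / (48 * Real.log X) := by
    apply div_le_div_of_nonneg_left hX0.le (by positivity)
    nlinarith
  have m3 : X / (24 * Real.log X) = X / (48 * Real.log X) + X / (48 * Real.log X) := by
    field_simp
    ring
  have m4 : X / (48 * Real.log X) ≤ ((sm ε z).card : ℝ) * (2 * Real.log z * Real.log z) := by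
    linarith
  have hlz0 : 0 < Real.log z := Real.log_pos (by linarith)
  have m5 : (z : ℝ) / (144 * Real.log z) ≤ X / (48 * Real.log X) := by
    have g1 : Real.log X ≤ Real.log z := Real.log_le_log hX0 hXz
    have g2 : (z : ℝ) / (144 * Real.log z) = X / (48 * Real.log z) := by
      rw [hX]
      field_simp
      ring
    rw [g2]
    apply div_le_div_of_nonneg_left hX0.le (by positivity)
    linarith
  have m6 : (z : ℝ) / (288 * (Real.log z) ^ 3) ≤ ((sm ε z).card : ℝ) := by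
    have g3 : (z : ℝ) / (288 * (Real.log z) ^ 3) =
        (z : ℝ) / (144 * Real.log z) / (2 * Real.log z * Real.log z) := by
      field_simp
      ring
    rw [g3, div_le_iff₀ (by positivity)]
    linarith
  refine le_trans ?_ m6
  rw [le_div_iff₀ (by positivity)]
  calc (z : ℝ) ^ (1 - ε) * (288 * (Real.log z) ^ 3) ≤ (z : ℝ) ^ (1 - ε) * (z : ℝ) ^ ε :=
        mul_le_mul_of_nonneg_left e8 (by positivity)
    _ = z := by
        rw [← Real.rpow_add hz0]
        have : 1 - ε + ε = 1 := by ring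
        rw [this, Real.rpow_one]

end Pool.Agent.Lib.MP_3e329f_nt
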