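import Pool.Agent.Lib.MP_3e329f_nt.Shift
import Pool.Agent.Lib.MP_3e329f_nt.SmU
import Pool.Agent.Lib.MP_bca3e5_nt.Gf2
import Pool.Agent.Lib.MP_bca3e5_nt.Gf3

set_option autoImplicit false

/-!
A positive proportion of the primes `q ≤ z` is such that all prime factors of `q - 1` are
`≤ z^u`, for some `u < 1/2` (Goldfeld's argument).
-/

namespace Pool.Agent.Lib.MP_3e329f_nt

open Finset Filter ArithmeticFunction

open Pool.Agent.CM (wd sA sT er BVc CP mu)
open Pool.Agent.CH (thP)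

/-- the weights -/
noncomputable def fW (X : ℝ) (n : ℕ) : ℝ := thP n * wd 1 X n

theorem fW_nonneg (X : ℝ) (n : ℕ) : 0 ≤ fW X n := prod_nonneg' _ _ _

theorem fW_zero {X : ℝ} {n : ℕ} (h : ¬ n.Prime) : fW X n = 0 := by
  simp [fW, thP, h]

theorem fW_le {X : ℝ} {n N : ℕ} (hn : n ≤ N) : fW X n ≤ Real.log N := prod_le' hn

theorem sum_sA (P : Finset ℕ) (c : ℕ → ℝ) (f : ℕ → ℝ) (N : ℕ) :
    ∑ l ∈ P, c l * sA f N l 1 = ∑ n ∈ Icc 1 N, (∑ l ∈ P.filter (fun l => n ≡ 1 [MOD l]), c l) * f n := by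
  classical
  unfold sA
  simp only [mul_sum, sum_mul, sum_filter, mul_ite, mul_zero, ite_mul, zero_mul]
  rw [sum_comm]

/-- the total mass -/
theorem totalU {X : ℝ} (hX : 1 ≤ X) :
    ∑ l ∈ (Icc 1 ⌊3 * X⌋₊).filter Nat.Prime, Real.log l * sA (fW X) ⌊3 * X⌋₊ l 1 ≤
      Real.log (3 * X) * sT (fW X) ⌊3 * X⌋₊ := by
  classical
  rw [sum_sA, sT, mul_sum]
  apply sum_le_sum
  intro n hn
  rw [mem_Icc] at hn
  by_cases hp : n.Prime
  · apply mul_le_mul_of_nonneg_right _ (fW_nonneg _ _)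
    have hn2 := hp.two_le
    have h1 : ((Icc 1 ⌊3 * X⌋₊).filter Nat.Prime).filter (fun l => n ≡ 1 [MOD l]) ⊆
        (n - 1).primeFactors := by
      intro k hk
      rw [mem_filter, mem_filter] at hk
      rw [Nat.mem_primeFactors]
      exact ⟨hk.1.2, (Nat.modEq_iff_dvd' hn.1).1 hk.2.symm, by omega⟩
    refine (sum_le_sum_of_subset_of_nonneg h1 fun l _ _ => Real.log_natCast_nonneg l).trans ?_
    have h2 : ∑ l ∈ (n - 1).primeFactors, Real.log (l : ℝ) =
        Real.log ((∏ l ∈ (n - 1).primeFactors, l : ℕ) : ℝ) := by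
      rw [Nat.cast_prod, Real.log_prod]
      intro l hl
      have := (Nat.prime_of_mem_primeFactors hl).pos
      positivity
    rw [h2]
    have h3 : ∏ l ∈ (n - 1).primeFactors, l ≤ n - 1 :=
      Nat.le_of_dvd (by omega) (Nat.prod_primeFactors_dvd _)
    have h4 : 0 < ∏ l ∈ (n - 1).primeFactors, l :=
      Finset.prod_pos fun l hl => (Nat.prime_of_mem_primeFactors hl).pos
    apply Real.log_le_log (by exact_mod_cast h4)
    have h5 : ((∏ l ∈ (n - 1).primeFactors, l : ℕ) : ℝ) ≤ (⌊3 * X⌋₊ : ℝ) := by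
      exact_mod_cast (h3.trans (by omega))
    exact h5.trans (Nat.floor_le (by linarith))
  · rw [fW_zero hp, mul_zero, mul_zero]

/-- Mertens, primes only -/
theorem mertensU : ∃ K : ℝ, 0 < K ∧ ∀ D : ℕ, 1 ≤ D →
    Real.log D - K ≤ ∑ l ∈ (Icc 1 D).filter Nat.Prime, Real.log l / l := by
  classical
  obtain ⟨D0, hD0, h0⟩ := Pool.Agent.MPbca.nonprime_tail (show (0 : ℝ) < 1 by norm_num)
  have hlogD0 : 0 ≤ Real.log (D0 : ℝ) := Real.log_natCast_nonneg _
  refine ⟨Real.log D0 + 8, by positivity, fun D hD => ?_⟩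
  have h1 := Pool.Agent.MPbca.mertens_lower D hD
  have h2 := Pool.Agent.MPbca.mertens_upper D0 hD0
  have h3 := h0 D
  have h4 : ∀ d, 0 ≤ vonMangoldt d / (d : ℝ) := fun d =>
    div_nonneg vonMangoldt_nonneg (Nat.cast_nonneg _)
  have h5 : ∑ d ∈ Icc 1 D, vonMangoldt d / (d : ℝ) =
      ∑ d ∈ (Icc 1 D).filter Nat.Prime, vonMangoldt d / (d : ℝ) +
      ∑ d ∈ (Icc 1 D).filter (fun d => ¬ d.Prime), vonMangoldt d / (d : ℝ) :=
    (Finset.sum_filter_add_sum_filter_not _ _ _).symm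
  have h6 : ∑ d ∈ (Icc 1 D).filter Nat.Prime, vonMangoldt d / (d : ℝ) =
      ∑ l ∈ (Icc 1 D).filter Nat.Prime, Real.log l / l := by
    apply sum_congr rfl
    intro l hl
    rw [vonMangoldt_apply_prime (mem_filter.1 hl).2]
  have h7 : ∑ d ∈ (Icc 1 D).filter (fun d => ¬ d.Prime), vonMangoldt d / (d : ℝ) ≤
      ∑ d ∈ Icc 1 D0, vonMangoldt d / (d : ℝ) +
      ∑ d ∈ (Ioc D0 D).filter (fun d => ¬ d.Prime), vonMangoldt d / (d : ℝ) := by
    have hs : (Icc 1 D).filter (fun d => ¬ d.Prime) ⊆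
        Icc 1 D0 ∪ (Ioc D0 D).filter (fun d => ¬ d.Prime) := by
      intro d hd
      rw [mem_filter, mem_Icc] at hd
      rw [mem_union, mem_Icc, mem_filter, mem_Ioc]
      by_cases h : d ≤ D0
      · left; exact ⟨hd.1.1, h⟩
      · right; exact ⟨⟨by omega, hd.1.2⟩, hd.2⟩
    refine (sum_le_sum_of_subset_of_nonneg hs fun _ _ _ => h4 _).trans ?_
    have h8 := Finset.sum_union_inter (s₁ := Icc 1 D0)
      (s₂ := (Ioc D0 D).filter (fun d => ¬ d.Prime)) (f := fun d => vonMangoldt d / (d : ℝ))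
    have h9 : 0 ≤ ∑ d ∈ Icc 1 D0 ∩ (Ioc D0 D).filter (fun d => ¬ d.Prime),
        vonMangoldt d / (d : ℝ) := sum_nonneg fun _ _ => h4 _
    linarith
  linarith

/-- the Bombieri-Vinogradov range -/
theorem bvLowU (hBV : BVc CP 1) {ε : ℝ} (hε : 0 < ε) (hε1 : ε ≤ 1 / 4) : ∃ K : ℝ, 0 < K ∧
    ∀ᶠ X : ℝ in atTop,
    sT (fW X) ⌊3 * X⌋₊ * ((1 / 2 - ε) * Real.log X - K) - X ≤
      ∑ l ∈ (Icc 1 ⌊X ^ (1 / 2 - ε)⌋₊).filter Nat.Prime, Real.log l * sA (fW X) ⌊3 * X⌋₊ l 1 := by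
  classical
  obtain ⟨K, hK, hmert⟩ := mertensU
  refine ⟨K + 1, by linarith, ?_⟩
  have hbv := hBV 2 1 1 ε le_rfl hε
  filter_upwards [hbv, eventually_ge_atTop (Real.exp 4)] with X e1 hXe
  have hX0 : 0 < X := lt_of_lt_of_le (Real.exp_pos 4) hXe
  have hX1 : 1 ≤ X := le_trans (Real.one_le_exp (by norm_num)) hXe
  have hlog4 : 4 ≤ Real.log X := (Real.le_log_iff_exp_le hX0).mpr hXe
  set N := ⌊3 * X⌋₊ with hN
  set W : ℝ := X ^ (1 / 2 - ε) with hW
  set D := ⌊W⌋₊ with hD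
  have hW0 : 0 < W := by positivity
  have hW2 : 2 ≤ W := by
    have h1 : Real.log 2 ≤ Real.log W := by
      rw [hW, Real.log_rpow hX0]
      have := Real.log_two_lt_d9
      nlinarith
    exact (Real.log_le_log_iff (by norm_num) hW0).1 h1
  have hWX : W ≤ X := by
    calc W ≤ X ^ (1 : ℝ) := Real.rpow_le_rpow_of_exponent_le hX1 (by linarith)
      _ = X := Real.rpow_one X
  have hDle : (D : ℝ) ≤ W := Nat.floor_le hW0.le
  have hDge : W / 2 ≤ D := by
    have := Nat.lt_floor_add_one W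
    rw [← hD] at this
    linarith
  have hD1 : 1 ≤ D := by
    have : (1 : ℝ) ≤ D := by linarith
    exact_mod_cast this
  have hS0 : 0 ≤ sT (fW X) N := sum_nonneg fun _ _ => fW_nonneg _ _
  have hE : ∑ q ∈ (Icc 1 D).filter Squarefree, er (fW X) N q 1 ≤ X / (Real.log X) ^ 2 := by
    have := e1 thP rfl (fun _ => 1) (fun q => Nat.coprime_one_left _)
    have hfW : fW X = fun n => thP n * wd 1 X n := rfl
    rw [hfW]
    simpa [hD, hW, hN] using this
  have hE2 : ∑ l ∈ (Icc 1 D).filter Nat.Prime, Real.log l * er (fW X) N l 1 ≤ X := by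
    calc ∑ l ∈ (Icc 1 D).filter Nat.Prime, Real.log l * er (fW X) N l 1
        ≤ ∑ l ∈ (Icc 1 D).filter Nat.Prime, Real.log X * er (fW X) N l 1 := by
          apply sum_le_sum
          intro l hl
          rw [mem_filter, mem_Icc] at hl
          apply mul_le_mul_of_nonneg_right _ (abs_nonneg _)
          apply Real.log_le_log (by exact_mod_cast hl.2.pos)
          have : (l : ℝ) ≤ D := by exact_mod_cast hl.1.2
          linarith
      _ = Real.log X * ∑ l ∈ (Icc 1 D).filter Nat.Prime, er (fW X) N l 1 := by rw [mul_sum]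
      _ ≤ Real.log X * ∑ q ∈ (Icc 1 D).filter Squarefree, er (fW X) N q 1 := by
          apply mul_le_mul_of_nonneg_left _ (by linarith)
          apply sum_le_sum_of_subset_of_nonneg
          · intro l hl
            rw [mem_filter] at hl ⊢
            exact ⟨hl.1, hl.2.squarefree⟩
          · intro _ _ _
            exact abs_nonneg _
      _ ≤ Real.log X * (X / (Real.log X) ^ 2) := mul_le_mul_of_nonneg_left hE (by linarith)
      _ = X / Real.log X := by field_simp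
      _ ≤ X := div_le_self hX0.le (by linarith)
  have h2 : ∀ l ∈ (Icc 1 D).filter Nat.Prime,
      sT (fW X) N * (Real.log l / l) - Real.log l * er (fW X) N l 1 ≤
        Real.log l * sA (fW X) N l 1 := by
    intro l hl
    rw [mem_filter, mem_Icc] at hl
    have hl0 : (0 : ℝ) < l := by exact_mod_cast hl.2.pos
    have hlog : 0 ≤ Real.log (l : ℝ) := Real.log_natCast_nonneg l
    have hφ : (0 : ℝ) < Nat.totient l := by exact_mod_cast Nat.totient_pos.2 hl.2.pos
    have hφ2 : (Nat.totient l : ℝ) ≤ l := by exact_mod_cast Nat.totient_le l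
    have h3 : sT (fW X) N / l ≤ sT (fW X) N / (Nat.totient l : ℝ) :=
      div_le_div_of_nonneg_left hS0 hφ hφ2
    have h4 : -(er (fW X) N l 1) ≤ sA (fW X) N l 1 - sT (fW X) N / (Nat.totient l : ℝ) := by
      unfold er
      exact neg_abs_le _
    have h5 : sT (fW X) N / l - er (fW X) N l 1 ≤ sA (fW X) N l 1 := by linarith
    have h6 := mul_le_mul_of_nonneg_left h5 hlog
    calc sT (fW X) N * (Real.log l / l) - Real.log l * er (fW X) N l 1
        = Real.log l * (sT (fW X) N / l - er (fW X) N l 1) := by ring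
      _ ≤ _ := h6
  have h3 := sum_le_sum h2
  rw [sum_sub_distrib, ← mul_sum] at h3
  have h4 := hmert D hD1
  have h5 : (1 / 2 - ε) * Real.log X - 1 ≤ Real.log D := by
    have h6 := Real.log_le_log (by positivity) hDge
    rw [Real.log_div hW0.ne' (by norm_num), hW, Real.log_rpow hX0] at h6
    have := Real.log_two_lt_d9
    linarith
  have h6 : sT (fW X) N * ((1 / 2 - ε) * Real.log X - (K + 1)) ≤
      sT (fW X) N * ∑ l ∈ (Icc 1 D).filter Nat.Prime, Real.log l / l :=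
    mul_le_mul_of_nonneg_left (by linarith) hS0
  linarith

end Pool.Agent.Lib.MP_3e329f_nt
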