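import Pool.Agent.Lib.MP_3e329f_nt.ShiftU

set_option autoImplicit false

/-!
The sieve bound for the primes in a progression modulo a prime.
-/

namespace Pool.Agent.Lib.MP_3e329f_nt

open Finset Filter ArithmeticFunction

open Pool.Agent.CM (wd sA sT er BVc CP mu)
open Pool.Agent.CH (thP)

theorem sA_le_card {X : ℝ} (hX : 1 ≤ X) {l : ℕ} (hl : l.Prime) :
    sA (fW X) ⌊3 * X⌋₊ l 1 ≤ Real.log (3 * X) *
      (((Icc 1 ⌊3 * X / l⌋₊).filter (fun k => (l * k + 1).Prime)).card : ℝ) := by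
  classical
  have hl0 : (0 : ℝ) < l := by exact_mod_cast hl.pos
  have hX0 : 0 < X := by linarith
  have hlog : 0 ≤ Real.log (3 * X) := Real.log_nonneg (by linarith)
  have hN : (⌊3 * X⌋₊ : ℝ) ≤ 3 * X := Nat.floor_le (by linarith)
  unfold sA
  have h1 : ∀ n ∈ (Icc 1 ⌊3 * X⌋₊).filter (fun n => n ≡ 1 [MOD l]), fW X n ≤
      if n.Prime then Real.log (3 * X) else 0 := by
    intro n hn
    rw [mem_filter, mem_Icc] at hn
    split_ifs with hp
    · refine (fW_le hn.1.2).trans ?_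
      apply Real.log_le_log _ hN
      have : 1 ≤ ⌊3 * X⌋₊ := hn.1.1.trans hn.1.2
      exact_mod_cast this
    · rw [fW_zero hp]
  refine (sum_le_sum h1).trans ?_
  rw [← sum_filter, sum_const, nsmul_eq_mul, mul_comm]
  apply mul_le_mul_of_nonneg_left _ hlog
  have h9 : (((Icc 1 ⌊3 * X⌋₊).filter (fun n => n ≡ 1 [MOD l])).filter
      (fun n => n.Prime)).card ≤
      ((Icc 1 ⌊3 * X / l⌋₊).filter (fun k => (l * k + 1).Prime)).card := by
    apply Finset.card_le_card_of_injOn (fun m => (m - 1) / l)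
    · intro m hm
      simp only [coe_filter, mem_filter, mem_Icc, Set.mem_setOf_eq] at hm
      obtain ⟨⟨⟨hm1, hm2⟩, hmod⟩, hmp⟩ := hm
      have hdvd : l ∣ m - 1 := (Nat.modEq_iff_dvd' hmp.one_le).1 hmod.symm
      obtain ⟨a, ha⟩ := hdvd
      have hmtwo := hmp.two_le
      have ha1 : 1 ≤ a := by
        rcases Nat.eq_zero_or_pos a with h' | h'
        · subst h'; omega
        · exact h'
      have hmeq : m = l * a + 1 := by omega
      have hdiv : (m - 1) / l = a := by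
        rw [ha, Nat.mul_div_cancel_left a hl.pos]
      simp only [coe_filter, mem_Icc, Set.mem_setOf_eq]
      rw [hdiv]
      refine ⟨⟨ha1, ?_⟩, ?_⟩
      · rw [Nat.le_floor_iff (by positivity), le_div_iff₀ hl0]
        have h2 : (m : ℝ) = l * a + 1 := by exact_mod_cast hmeq
        have h3 : (m : ℝ) ≤ ⌊3 * X⌋₊ := by exact_mod_cast hm2
        linarith
      · rw [← hmeq]; exact hmp
    · intro m hm m' hm' h'
      simp only [coe_filter, mem_filter, mem_Icc, Set.mem_setOf_eq] at hm hm'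
      obtain ⟨⟨⟨hm1, hm2⟩, hmod⟩, hmp⟩ := hm
      obtain ⟨⟨⟨hm1', hm2'⟩, hmod'⟩, hmp'⟩ := hm'
      obtain ⟨a, ha⟩ := (Nat.modEq_iff_dvd' hmp.one_le).1 hmod.symm
      obtain ⟨b, hb⟩ := (Nat.modEq_iff_dvd' hmp'.one_le).1 hmod'.symm
      simp only at h'
      rw [ha, hb, Nat.mul_div_cancel_left a hl.pos, Nat.mul_div_cancel_left b hl.pos] at h'
      subst h'
      have := hmp.one_le
      have := hmp'.one_le
      omega
  exact_mod_cast h9

theorem sieveU : ∃ C : ℝ, 0 < C ∧ ∀ᶠ X : ℝ in atTop, ∀ l : ℕ, l.Prime →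
    (l : ℝ) ≤ X ^ (3 / 4 : ℝ) →
    sA (fun n => thP n * wd 1 X n) ⌊3 * X⌋₊ l 1 ≤ C * X / l := by
  classical
  obtain ⟨C, hC, Y0, h⟩ := Pool.Agent.MPbca.card_ap_le
  refine ⟨24 * C, by positivity, ?_⟩
  have e1 : ∀ᶠ X : ℝ in atTop, (Y0 : ℝ) ≤ X ^ (1 / 4 : ℝ) :=
    (tendsto_rpow_atTop (by norm_num)).eventually_ge_atTop _
  filter_upwards [e1, eventually_ge_atTop (Real.exp 8)] with X hXY hXe
  intro l hl hlX
  have hX0 : 0 < X := lt_of_lt_of_le (Real.exp_pos 8) hXe
  have hX1 : 1 ≤ X := le_trans (Real.one_le_exp (by norm_num)) hXe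
  have hX3 : 3 ≤ X := by
    have := Real.add_one_le_exp (8 : ℝ)
    linarith only [hXe, this]
  have hlog8 : 8 ≤ Real.log X := (Real.le_log_iff_exp_le hX0).mpr hXe
  have hl0 : (0 : ℝ) < l := by exact_mod_cast hl.pos
  have hXX : X = X ^ (1 / 4 : ℝ) * X ^ (3 / 4 : ℝ) := by
    rw [← Real.rpow_add hX0]; norm_num
  have hq1 : 1 ≤ X ^ (1 / 4 : ℝ) := Real.one_le_rpow hX1 (by norm_num)
  set Y := ⌊3 * X / l⌋₊ with hY
  have h1 : X ^ (1 / 4 : ℝ) ≤ X / l := by
    rw [le_div_iff₀ hl0]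
    calc X ^ (1 / 4 : ℝ) * l ≤ X ^ (1 / 4 : ℝ) * X ^ (3 / 4 : ℝ) :=
          mul_le_mul_of_nonneg_left hlX (by positivity)
      _ = X := hXX.symm
  have hYle : (Y : ℝ) ≤ 3 * X / l := Nat.floor_le (by positivity)
  have hYge : X ^ (1 / 4 : ℝ) ≤ Y := by
    have h2 := Nat.lt_floor_add_one (3 * X / l)
    rw [← hY] at h2
    have h3 : 3 * X / l = 3 * (X / l) := by ring
    rw [h3] at h2
    linarith
  have hYY0 : Y0 ≤ Y := by exact_mod_cast hXY.trans hYge
  have h4 := h Y hYY0 l hl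
  have h5 := sA_le_card hX1 hl
  have hlogY : Real.log X / 4 ≤ Real.log Y := by
    have := Real.log_le_log (by positivity) hYge
    rw [Real.log_rpow hX0] at this
    linarith only [this]
  have hlogY0 : 0 < Real.log Y := by linarith
  have hl3 : Real.log (3 * X) ≤ 2 * Real.log X := by
    rw [Real.log_mul (by norm_num) hX0.ne', two_mul]
    apply add_le_add _ le_rfl
    exact Real.log_le_log (by norm_num) hX3
  have hl30 : 0 ≤ Real.log (3 * X) := Real.log_nonneg (by linarith)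
  have h6 : sA (fun n => thP n * wd 1 X n) ⌊3 * X⌋₊ l 1 = sA (fW X) ⌊3 * X⌋₊ l 1 := rfl
  rw [h6]
  refine h5.trans ?_
  have h7 : Real.log X / Real.log Y ≤ 4 := by
    rw [div_le_iff₀ hlogY0]
    linarith
  calc Real.log (3 * X) * (((Icc 1 Y).filter (fun k => (l * k + 1).Prime)).card : ℝ)
      ≤ (2 * Real.log X) * (C * (Y / Real.log Y)) :=
        mul_le_mul hl3 h4 (Nat.cast_nonneg _) (by positivity)
    _ = 2 * C * (Y * (Real.log X / Real.log Y)) := by ring
    _ ≤ 2 * C * ((3 * X / l) * 4) := by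
        apply mul_le_mul_of_nonneg_left _ (by positivity)
        exact mul_le_mul hYle h7 (by positivity) (by positivity)
    _ = 24 * C * X / l := by ring

end Pool.Agent.Lib.MP_3e329f_nt
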